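import Pool.Agent.Helper60.CP.Stm2

/-!
# Octonionic versions: volume bounds for the exponents `7` and `8`
-/

set_option autoImplicit false

open Real Set MeasureTheory
open scoped ContDiff

namespace Pool.Agent.Helper60.CP

open Pool.Agent.H206R2.Rot2 (Veff well actW)

/-- PART 5V: volume bound for `𝕆P^2`. -/
def S5_V : Prop := ∀ (L R : ℝ) (f h : ℝ → ℝ), 0 < L → 0 < R →
  Continuous f → Continuous h → (∀ r ∈ Ioo 0 L, 0 < f r) → (∀ r ∈ Ioo 0 L, 0 < h r) →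
  (∃ r ∈ Ioo 0 L, R < h r) →
  (∀ c ∈ Reg R, π * (R - c.1 - KK c) ≤ 2 * ∫ r in Ioo 0 L, √(1 - Veff f h c.1 c.2 r)) →
  R ^ 16 < 2640 * ∫ r in (0 : ℝ)..L, f r ^ 7 * h r ^ 8

/-- PART 6V: volume bound for `S^16`. -/
def S6_V : Prop := ∀ (L R : ℝ) (f h : ℝ → ℝ), 0 < L → 0 < R →
  Continuous f → Continuous h → (∀ r ∈ Ioo 0 L, 0 < f r) → (∀ r ∈ Ioo 0 L, 0 < h r) →
  (∃ r ∈ Ioo 0 L, R < h r) →
  (∀ c ∈ Dsk R, 2 * π * (R - KK c) ≤ 2 * ∫ r in Ioo 0 L, √(1 - Veff f h c.1 c.2 r)) →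
  R ^ 16 * (∫ t in (0 : ℝ)..π, Real.sin t ^ 15) < ∫ r in (0 : ℝ)..L, f r ^ 7 * h r ^ 8

end Pool.Agent.Helper60.CP
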