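import Pool.Agent.Helper60.CP.Stm
import Pool.Agent.H206R2.Rot2.TE
import Pool.Agent.H206R2.Rot2.TG

/-!
# Wells and actions for general pairs of profiles (adapted from `H206R2.Rot2.TE`)
-/

set_option autoImplicit false

open Real Set MeasureTheory Filter Topology
open scoped ContDiff

namespace Pool.Agent.Helper60.CP.Gen

open Pool.Agent.H206R2.Rot2 (Veff well actW)
open Pool.Agent.H206R2.Rot2.TE (exists_last exists_first)

/-- positive smooth functions on `(0, L)` -/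
structure Base (L : ℝ) (f h : ℝ → ℝ) : Prop where
  smooth_f : ContDiff ℝ ∞ f
  smooth_h : ContDiff ℝ ∞ h
  f_pos : ∀ r, 0 < r → r < L → 0 < f r
  h_pos : ∀ r, 0 < r → r < L → 0 < h r

lemma base_of {L : ℝ} {f h : ℝ → ℝ} (hf : IsProfileC L f h) : Base L f h :=
  ⟨hf.smooth_f, hf.smooth_h, hf.f_pos, fun r h1 h2 => hf.h_pos r h1 h2.le⟩

/-- the well of a potential which is `≥ 1` somewhere on both sides -/
theorem well_gen {L : ℝ} {V : ℝ → ℝ} (hVc : ContinuousOn V (Ioo 0 L)) {s : ℝ} (hs0 : 0 < s)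
    (hsL : s < L) (hs : V s < 1) (hu : ∃ u, 0 < u ∧ u < s ∧ 1 ≤ V u) (hv : ∃ v, s < v ∧ v < L ∧ 1 ≤ V v) :
    ∃ p q, 0 < p ∧ p < s ∧ s < q ∧ q < L ∧ V p = 1 ∧ V q = 1 ∧
      well L V s = Ioo p q ∧ ∀ x ∈ Ioo p q, V x < 1 := by
  obtain ⟨u, hu0, hus, hu1⟩ := hu
  obtain ⟨v, hsv, hvL, hv1⟩ := hv
  obtain ⟨p, hup, hps, hp1, hplt⟩ := exists_last hus.le
    (hVc.mono (fun x hx => ⟨lt_of_lt_of_le hu0 hx.1, lt_of_le_of_lt hx.2 hsL⟩)) hu1 hs
  obtain ⟨q, hsq, hqv, hq1, hqlt⟩ := exists_first hsv.le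
    (hVc.mono (fun x hx => ⟨lt_of_lt_of_le hs0 hx.1, lt_of_le_of_lt hx.2 hvL⟩)) hs hv1
  have hp0 : 0 < p := lt_of_lt_of_le hu0 hup
  have hqL : q < L := lt_of_le_of_lt hqv hvL
  have hin : ∀ x ∈ Ioo p q, V x < 1 := by
    intro x hx
    rcases le_total x s with hxs | hxs
    · exact hplt x hx.1 hxs
    · exact hqlt x hxs hx.2
  refine ⟨p, q, hp0, hps, hsq, hqL, hp1, hq1, ?_, hin⟩
  ext r
  constructor
  · intro hr
    have hr' : ∀ x ∈ uIcc s r, 0 < x ∧ x < L ∧ V x < 1 := hr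
    constructor
    · by_contra hcon
      push Not at hcon
      have : p ∈ uIcc s r := by
        rw [uIcc_of_ge (by linarith)]; exact ⟨hcon, hps.le⟩
      have := (hr' p this).2.2
      linarith
    · by_contra hcon
      push Not at hcon
      have : q ∈ uIcc s r := by
        rw [uIcc_of_le (by linarith)]; exact ⟨hsq.le, hcon⟩
      have := (hr' q this).2.2
      linarith
  · intro hr x hx
    have hx' : x ∈ Ioo p q :=
      (ordConnected_Ioo.uIcc_subset ⟨hps, hsq⟩ hr) hx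
    exact ⟨hp0.trans hx'.1, hx'.2.trans hqL, hin x hx'⟩

/-- points near the zeros of a continuous function where `c / g ≥ 1` -/
lemma near_left {g : ℝ → ℝ} (hg : Continuous g) (h0 : g 0 = 0) {L s c : ℝ}
    (hpos : ∀ r, 0 < r → r < L → 0 < g r) (hs0 : 0 < s) (hsL : s < L) (hc : 0 < c) :
    ∃ u, 0 < u ∧ u < s ∧ 1 ≤ c / g u := by
  have e1 : Tendsto g (𝓝[>] 0) (𝓝 (g 0)) := hg.continuousAt.mono_left nhdsWithin_le_nhds
  rw [h0] at e1
  have e2 : ∀ᶠ x in 𝓝[>] (0 : ℝ), g x < c := e1.eventually_lt_const hc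
  have e3 : ∀ᶠ x in 𝓝[>] (0 : ℝ), x ∈ Ioo 0 s := Ioo_mem_nhdsGT hs0
  obtain ⟨u, hu, hu'⟩ := (e2.and e3).exists
  refine ⟨u, hu'.1, hu'.2, ?_⟩
  have hfu : 0 < g u := hpos u hu'.1 (by linarith [hu'.2])
  rw [le_div_iff₀ hfu]
  linarith

lemma near_right {g : ℝ → ℝ} (hg : Continuous g) {L s c : ℝ} (hL : g L = 0)
    (hpos : ∀ r, 0 < r → r < L → 0 < g r) (hs0 : 0 < s) (hsL : s < L) (hc : 0 < c) :
    ∃ u, s < u ∧ u < L ∧ 1 ≤ c / g u := by
  have e1 : Tendsto g (𝓝[<] L) (𝓝 (g L)) := hg.continuousAt.mono_left nhdsWithin_le_nhds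
  rw [hL] at e1
  have e2 : ∀ᶠ x in 𝓝[<] L, g x < c := e1.eventually_lt_const hc
  have e3 : ∀ᶠ x in 𝓝[<] L, x ∈ Ioo s L := Ioo_mem_nhdsLT hsL
  obtain ⟨u, hu, hu'⟩ := (e2.and e3).exists
  refine ⟨u, hu'.1, hu'.2, ?_⟩
  have hfu : 0 < g u := hpos u (by linarith [hu'.1]) hu'.2
  rw [le_div_iff₀ hfu]
  linarith

section
variable {L : ℝ} {f h : ℝ → ℝ} (hf : Base L f h)
include hf

theorem cont_V {c₁ c₂ : ℝ} : ContinuousOn (Veff f h c₁ c₂) (Ioo 0 L) := by
  unfold Veff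
  intro r hr
  have h1 : f r ≠ 0 := (hf.f_pos r hr.1 hr.2).ne'
  have h2 : h r ≠ 0 := (hf.h_pos r hr.1 hr.2).ne'
  have e1 : ContinuousAt f r := hf.smooth_f.continuous.continuousAt
  have e2 : ContinuousAt h r := hf.smooth_h.continuous.continuousAt
  exact (((continuousAt_const.div e1 h1).pow 2).add
    ((continuousAt_const.div e2 h2).pow 2)).continuousWithinAt

theorem meas (c₁ c₂ : ℝ) : Measurable (fun r => √(1 - Veff f h c₁ c₂ r)) := by
  unfold Veff
  have m1 : Measurable f := hf.smooth_f.continuous.measurable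
  have m2 : Measurable h := hf.smooth_h.continuous.measurable
  exact (measurable_const.sub (((measurable_const.div m1).pow_const 2).add
    ((measurable_const.div m2).pow_const 2))).sqrt

end

theorem bd {f h : ℝ → ℝ} (c₁ c₂ r : ℝ) : √(1 - Veff f h c₁ c₂ r) ≤ 1 := by
  rw [Real.sqrt_le_left zero_le_one]
  unfold Veff
  nlinarith [sq_nonneg (c₁ / f r), sq_nonneg (c₂ / h r)]

theorem intOn {L : ℝ} {f h : ℝ → ℝ} (hf : Base L f h) (c₁ c₂ : ℝ) {A : Set ℝ}
    (hA : volume A < ⊤) : IntegrableOn (fun r => √(1 - Veff f h c₁ c₂ r)) A := by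
  refine Measure.integrableOn_of_bounded (M := 1) hA.ne (meas hf c₁ c₂).aestronglyMeasurable ?_
  refine Eventually.of_forall fun r => ?_
  rw [Real.norm_of_nonneg (Real.sqrt_nonneg _)]
  exact bd c₁ c₂ r

theorem well_sub (L : ℝ) (V : ℝ → ℝ) (s : ℝ) : well L V s ⊆ Ioo 0 L := by
  intro r hr
  have := hr r right_mem_uIcc
  exact ⟨this.1, this.2.1⟩

theorem actW_nonneg (L : ℝ) (V : ℝ → ℝ) (s : ℝ) : 0 ≤ actW L V s := by
  unfold actW
  have : 0 ≤ ∫ r in well L V s, √(1 - V r) := integral_nonneg fun r => Real.sqrt_nonneg _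
  linarith

/-- Contribution of a compact interval to the action. -/
theorem actW_ge {L : ℝ} {f h : ℝ → ℝ} (hf : Base L f h) {c₁ c₂ x y s : ℝ}
    (hx : 0 < x) (hy : y < L) (hs : s ∈ Icc x y) (hV : ∀ r ∈ Icc x y, Veff f h c₁ c₂ r < 1) :
    2 * ∫ r in Icc x y, √(1 - Veff f h c₁ c₂ r) ≤ actW L (Veff f h c₁ c₂) s := by
  unfold actW
  have hsub : Icc x y ⊆ well L (Veff f h c₁ c₂) s := by
    intro r hr z hz
    have hz' : z ∈ Icc x y := (ordConnected_Icc.uIcc_subset hs hr) hz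
    exact ⟨lt_of_lt_of_le hx hz'.1, lt_of_le_of_lt hz'.2 hy, hV z hz'⟩
  have hfin : volume (well L (Veff f h c₁ c₂) s) < ⊤ :=
    lt_of_le_of_lt (measure_mono (well_sub L _ s)) measure_Ioo_lt_top
  have := setIntegral_mono_set (intOn hf c₁ c₂ hfin)
    (Eventually.of_forall fun r => Real.sqrt_nonneg _) hsub.eventuallyLE
  linarith

/-- The effective potential stays below `1` on compact intervals for nearby constants. -/
theorem ev_lt {L : ℝ} {f h : ℝ → ℝ} (hf : Base L f h) {c₀ : ℝ × ℝ} {x y : ℝ}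
    (hx : 0 < x) (hy : y < L) (hV : ∀ r ∈ Icc x y, Veff f h c₀.1 c₀.2 r < 1) :
    ∀ᶠ c : ℝ × ℝ in 𝓝 c₀, ∀ r ∈ Icc x y, Veff f h c.1 c.2 r < 1 := by
  refine isCompact_Icc.eventually_forall_of_forall_eventually
    (P := fun (c : ℝ × ℝ) (r : ℝ) => Veff f h c.1 c.2 r < 1) ?_
  intro r hr
  have h1 : f r ≠ 0 := (hf.f_pos r (lt_of_lt_of_le hx hr.1) (lt_of_le_of_lt hr.2 hy)).ne'
  have h2 : h r ≠ 0 :=
    (hf.h_pos r (lt_of_lt_of_le hx hr.1) (lt_of_le_of_lt hr.2 hy)).ne'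
  have e1 : ContinuousAt (fun z : (ℝ × ℝ) × ℝ => f z.2) (c₀, r) :=
    (hf.smooth_f.continuous.comp continuous_snd).continuousAt
  have e2 : ContinuousAt (fun z : (ℝ × ℝ) × ℝ => h z.2) (c₀, r) :=
    (hf.smooth_h.continuous.comp continuous_snd).continuousAt
  have e3 : ContinuousAt (fun z : (ℝ × ℝ) × ℝ => z.1.1) (c₀, r) :=
    (continuous_fst.comp continuous_fst).continuousAt
  have e4 : ContinuousAt (fun z : (ℝ × ℝ) × ℝ => z.1.2) (c₀, r) :=
    (continuous_snd.comp continuous_fst).continuousAt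
  have e5 : ContinuousAt (fun z : (ℝ × ℝ) × ℝ => Veff f h z.1.1 z.1.2 z.2) (c₀, r) := by
    unfold Veff
    exact ((e3.div e1 h1).pow 2).add ((e4.div e2 h2).pow 2)
  exact e5.eventually (eventually_lt_nhds (hV r hr))

theorem tendsto_int {L : ℝ} {f h : ℝ → ℝ} (hf : Base L f h) {c₀ : ℝ × ℝ}
    {c : ℕ → ℝ × ℝ} (hc : Tendsto c atTop (𝓝 c₀)) (x y : ℝ) :
    Tendsto (fun n => ∫ r in Icc x y, √(1 - Veff f h (c n).1 (c n).2 r)) atTop
      (𝓝 (∫ r in Icc x y, √(1 - Veff f h c₀.1 c₀.2 r))) := by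
  refine tendsto_integral_of_dominated_convergence (fun _ => (1 : ℝ)) ?_ ?_ ?_ ?_
  · intro n; exact (meas hf _ _).aestronglyMeasurable
  · exact (integrableOn_const measure_Icc_lt_top.ne : IntegrableOn (fun _ => (1 : ℝ)) (Icc x y))
  · intro n
    refine Eventually.of_forall fun r => ?_
    rw [Real.norm_of_nonneg (Real.sqrt_nonneg _)]
    exact bd _ _ r
  · refine Eventually.of_forall fun r => ?_
    unfold Veff
    have e1 : Tendsto (fun n => (c n).1) atTop (𝓝 c₀.1) := (continuous_fst.tendsto c₀).comp hc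
    have e2 : Tendsto (fun n => (c n).2) atTop (𝓝 c₀.2) := (continuous_snd.tendsto c₀).comp hc
    exact (tendsto_const_nhds.sub (((e1.div_const _).pow 2).add ((e2.div_const _).pow 2))).sqrt

/-- Truncating the interval of integration changes the integral by at most the length. -/
theorem trunc {L : ℝ} {f h : ℝ → ℝ} (hf : Base L f h) (c₁ c₂ : ℝ) {p x y q : ℝ}
    (hpx : p ≤ x) (hxy : x ≤ y) (hyq : y ≤ q) :
    ∫ r in Ioo p q, √(1 - Veff f h c₁ c₂ r) ≤
      (∫ r in Icc x y, √(1 - Veff f h c₁ c₂ r)) + (x - p) + (q - y) := by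
  rw [← integral_Ioc_eq_integral_Ioo, integral_Icc_eq_integral_Ioc,
    ← intervalIntegral.integral_of_le (hpx.trans (hxy.trans hyq)),
    ← intervalIntegral.integral_of_le hxy]
  have hi : ∀ u v : ℝ, IntervalIntegrable (fun r => √(1 - Veff f h c₁ c₂ r)) volume u v := by
    intro u v
    rw [intervalIntegrable_iff]
    exact intOn hf c₁ c₂ (by rw [uIoc]; exact measure_Ioc_lt_top)
  have hb : ∀ u v : ℝ, u ≤ v → ∫ r in u..v, √(1 - Veff f h c₁ c₂ r) ≤ v - u := by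
    intro u v huv
    have := intervalIntegral.integral_mono_on huv (hi u v)
      (intervalIntegrable_const (c := (1 : ℝ))) (fun r _ => bd c₁ c₂ r)
    simpa using this
  rw [← intervalIntegral.integral_add_adjacent_intervals (hi p y) (hi y q),
    ← intervalIntegral.integral_add_adjacent_intervals (hi p x) (hi x y)]
  have := hb p x hpx
  have := hb y q hyq
  linarith

/-- Lower semicontinuity of the action. -/
theorem lsc {L : ℝ} {f h : ℝ → ℝ} (hf : Base L f h) {s : ℕ → ℝ}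
    {c₀ : ℝ × ℝ} {c : ℕ → ℝ × ℝ} (hc : Tendsto c atTop (𝓝 c₀)) {m : ℝ}
    (hD : Tendsto (fun n => actW L (Veff f h (c n).1 (c n).2) (s n)) atTop (𝓝 m))
    {p q x' y' : ℝ} (hp : 0 ≤ p) (hq : q ≤ L)
    (hV : ∀ r ∈ Ioo p q, Veff f h c₀.1 c₀.2 r < 1) (hx : p < x') (hxy : x' ≤ y') (hy : y' < q)
    (hs : ∀ᶠ n in atTop, s n ∈ Icc x' y') :
    2 * (∫ r in Ioo p q, √(1 - Veff f h c₀.1 c₀.2 r)) ≤ m := by
  refine le_of_forall_pos_le_add fun ε hε => ?_
  set x := min (p + ε / 4) x' with hxdef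
  set y := max (q - ε / 4) y' with hydef
  have hpx : p < x := lt_min (by linarith) hx
  have hyq : y < q := max_lt (by linarith) hy
  have hxx : x ≤ x' := min_le_right _ _
  have hyy : y' ≤ y := le_max_right _ _
  have hx4 : x ≤ p + ε / 4 := min_le_left _ _
  have hy4 : q - ε / 4 ≤ y := le_max_left _ _
  have hxy2 : x ≤ y := hxx.trans (hxy.trans hyy)
  have hV' : ∀ r ∈ Icc x y, Veff f h c₀.1 c₀.2 r < 1 := fun r hr =>
    hV r ⟨lt_of_lt_of_le hpx hr.1, lt_of_le_of_lt hr.2 hyq⟩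
  have hx0 : 0 < x := lt_of_le_of_lt hp hpx
  have hyL : y < L := lt_of_lt_of_le hyq hq
  have ev1 := hc.eventually (ev_lt hf hx0 hyL hV')
  have ev2 : ∀ᶠ n in atTop, 2 * (∫ r in Icc x y, √(1 - Veff f h (c n).1 (c n).2 r)) ≤
      actW L (Veff f h (c n).1 (c n).2) (s n) := by
    filter_upwards [ev1, hs] with n hn hsn
    have hsn' : s n ∈ Icc x y := ⟨hxx.trans hsn.1, hsn.2.trans hyy⟩
    exact actW_ge hf hx0 hyL hsn' hn
  have lim : Tendsto (fun n => 2 * (∫ r in Icc x y, √(1 - Veff f h (c n).1 (c n).2 r))) atTop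
      (𝓝 (2 * (∫ r in Icc x y, √(1 - Veff f h c₀.1 c₀.2 r)))) :=
    ((tendsto_int hf hc x y).const_mul 2)
  have key := le_of_tendsto_of_tendsto lim hD ev2
  have ht := trunc hf c₀.1 c₀.2 hpx.le hxy2 hyq.le
  linarith

/-- `TF.abs_F` with a general constant -/
lemma abs_F {L : ℝ} {V G : ℝ → ℝ} (hV : ContinuousOn V (Ioo 0 L)) (hG : ContinuousOn G (Ioo 0 L))
    (hG0 : ∀ x ∈ Ioo 0 L, 0 < G x) {p q s₀ : ℝ} (hp : 0 < p) (hps : p < s₀) (hsq : s₀ < q)
    (hq : q < L) (hVp : V p = 1) (hVq : V q = 1) (hin : ∀ x ∈ Ioo p q, V x < 1) {k d : ℝ}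
    (hk : 0 < k) (hd : 0 < d) {σ : ℝ → ℝ} (hσ : Tendsto σ (𝓝[>] 0) (𝓝 s₀))
    (hmin : ∀ᶠ ε in 𝓝[>] (0 : ℝ), 2 * ∫ r in Ioo p q, √(1 - V r) ≤
      2 * (∫ r in well L (fun r => V r + ((k + ε) ^ 2 - k ^ 2) * G r) (σ ε),
        √(1 - (V r + ((k + ε) ^ 2 - k ^ 2) * G r))) + d * ε) :
    IntegrableOn (fun r => k * G r / √(1 - V r)) (Ioo p q) ∧
      2 * ∫ r in Ioo p q, k * G r / √(1 - V r) ≤ d := by
  have hπ := Real.pi_pos
  set lam : ℝ := d / π with hlam
  have hl : 0 < lam := div_pos hd hπ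
  have hlπ : lam * π = d := by rw [hlam]; field_simp
  have hscale : Tendsto (fun ε : ℝ => ε / lam) (𝓝[>] 0) (𝓝[>] 0) := by
    refine tendsto_nhdsWithin_iff.2 ⟨?_, ?_⟩
    · have : Continuous fun ε : ℝ => ε / lam := by fun_prop
      have h2 := this.tendsto 0
      rw [zero_div] at h2
      exact tendsto_nhdsWithin_of_tendsto_nhds h2
    · filter_upwards [self_mem_nhdsWithin] with ε hε
      exact div_pos hε hl
  have hfun : ∀ ε : ℝ, (fun r => V r + ((lam * k + ε) ^ 2 - (lam * k) ^ 2) * (G r / lam ^ 2)) =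
      fun r => V r + ((k + ε / lam) ^ 2 - k ^ 2) * G r := by
    intro ε
    funext r
    field_simp
  have key := Pool.Agent.H206R2.Rot2.TF.abs_F (L := L) (V := V) (G := fun r => G r / lam ^ 2) hV
    (hG.div_const _) (fun x hx => div_pos (hG0 x hx) (by positivity)) hp hps hsq hq hVp hVq hin
    (k := lam * k) (by positivity) (σ := fun ε => σ (ε / lam)) (hσ.comp hscale) (by
      filter_upwards [hscale.eventually hmin] with ε hε
      have e1 := congrFun (hfun ε)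
      simp only [e1]
      have e2 : d * (ε / lam) = π * ε := by rw [← hlπ]; field_simp
      rw [e2] at hε
      exact hε)
  have e3 : (fun r => lam * k * (G r / lam ^ 2) / √(1 - V r)) =
      fun r => (1 / lam) * (k * G r / √(1 - V r)) := by
    funext r
    field_simp
  rw [e3] at key
  obtain ⟨k1, k2⟩ := key
  have k3 : IntegrableOn (fun r => k * G r / √(1 - V r)) (Ioo p q) := by
    have := k1.const_mul lam
    refine this.congr (Eventually.of_forall fun r => ?_)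
    field_simp
  refine ⟨k3, ?_⟩
  rw [integral_const_mul] at k2
  have k4 : 2 * ∫ r in Ioo p q, k * G r / √(1 - V r) =
      lam * (2 * (1 / lam * ∫ r in Ioo p q, k * G r / √(1 - V r))) := by
    field_simp
  rw [k4, ← hlπ]
  exact mul_le_mul_of_nonneg_left k2 hl.le

/-- `TG.abs_ge` with a general constant -/
lemma abs_ge {L : ℝ} {V G : ℝ → ℝ} (hV : ContinuousOn V (Ioo 0 L)) (hG : ContinuousOn G (Ioo 0 L))
    (hG0 : ∀ x ∈ Ioo 0 L, 0 < G x) {p q s₀ : ℝ} (hp : 0 < p) (hps : p < s₀) (hsq : s₀ < q)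
    (hq : q < L) (hVp : V p = 1) (hVq : V q = 1) (hin : ∀ x ∈ Ioo p q, V x < 1)
    (hpd : DifferentiableAt ℝ V p) (hqd : DifferentiableAt ℝ V q)
    (hp' : deriv V p < 0) (hq' : 0 < deriv V q) {k d : ℝ}
    (hk : 0 < k) (hd : 0 < d) {σ : ℝ → ℝ} (hσ : Tendsto σ (𝓝[>] 0) (𝓝 s₀))
    (hmin : ∀ᶠ ε in 𝓝[>] (0 : ℝ), 2 * (∫ r in Ioo p q, √(1 - V r)) + d * ε ≤
      2 * ∫ r in well L (fun r => V r - (k ^ 2 - (k - ε) ^ 2) * G r) (σ ε),
        √(1 - (V r - (k ^ 2 - (k - ε) ^ 2) * G r)))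
    (hint : IntegrableOn (fun r => k * G r / √(1 - V r)) (Ioo p q)) :
    d ≤ 2 * ∫ r in Ioo p q, k * G r / √(1 - V r) := by
  have hπ := Real.pi_pos
  set lam : ℝ := d / π with hlam
  have hl : 0 < lam := div_pos hd hπ
  have hlπ : lam * π = d := by rw [hlam]; field_simp
  have hscale : Tendsto (fun ε : ℝ => ε / lam) (𝓝[>] 0) (𝓝[>] 0) := by
    refine tendsto_nhdsWithin_iff.2 ⟨?_, ?_⟩
    · have : Continuous fun ε : ℝ => ε / lam := by fun_prop
      have h2 := this.tendsto 0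
      rw [zero_div] at h2
      exact tendsto_nhdsWithin_of_tendsto_nhds h2
    · filter_upwards [self_mem_nhdsWithin] with ε hε
      exact div_pos hε hl
  have hfun : ∀ ε : ℝ, (fun r => V r - ((lam * k) ^ 2 - (lam * k - ε) ^ 2) * (G r / lam ^ 2)) =
      fun r => V r - (k ^ 2 - (k - ε / lam) ^ 2) * G r := by
    intro ε
    funext r
    field_simp
  have e3 : (fun r => lam * k * (G r / lam ^ 2) / √(1 - V r)) =
      fun r => (1 / lam) * (k * G r / √(1 - V r)) := by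
    funext r
    field_simp
  have key := Pool.Agent.H206R2.Rot2.TG.abs_ge (L := L) (V := V) (G := fun r => G r / lam ^ 2) hV
    (hG.div_const _) (fun x hx => div_pos (hG0 x hx) (by positivity)) hp hps hsq hq hVp hVq hin
    (by linarith : 0 < -deriv V p / 2) (by linarith : 0 < deriv V q / 2)
    (Pool.Agent.H206R2.Rot2.TG.left_bound hpd hp' hVp) (Pool.Agent.H206R2.Rot2.TG.right_bound hqd hq' hVq)
    (k := lam * k) (by positivity) (σ := fun ε => σ (ε / lam)) (hσ.comp hscale) (by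
      filter_upwards [hscale.eventually hmin] with ε hε
      have e1 := congrFun (hfun ε)
      simp only [e1]
      have e2 : d * (ε / lam) = π * ε := by rw [← hlπ]; field_simp
      rw [e2] at hε
      exact hε)
    (by rw [e3]; exact hint.const_mul _)
  rw [e3, integral_const_mul] at key
  have k4 : 2 * ∫ r in Ioo p q, k * G r / √(1 - V r) =
      lam * (2 * (1 / lam * ∫ r in Ioo p q, k * G r / √(1 - V r))) := by
    field_simp
  rw [k4, ← hlπ]
  exact mul_le_mul_of_nonneg_left key hl.le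

end Pool.Agent.Helper60.CP.Gen
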