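import Pool.Agent.Helper60.CP.Stm
import Pool.Agent.H206R2.Rot2.TE

/-!
# `U(n)`-invariant metrics on `ℂP^n`: wells of the effective potential and existence of the minimum of
the action defect
-/

set_option autoImplicit false

open Real Set MeasureTheory Filter Topology
open scoped ContDiff

namespace Pool.Agent.Helper60.CP.M

open Pool.Agent.H206R2.Rot2 (Veff well actW)
open Pool.Agent.H206R2.Rot2.TE (exists_last exists_first bd well_sub actW_nonneg)

section
variable {L : ℝ} {f h : ℝ → ℝ} (hf : IsProfileC L f h)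
include hf

theorem f_zero : f 0 = 0 := by
  have := hf.f_odd 0
  simp at this
  linarith

theorem f_L : f L = 0 := by
  have := hf.f_odd_L 0
  simp at this
  linarith

theorem cont_V {c₁ c₂ : ℝ} : ContinuousOn (Veff f h c₁ c₂) (Ioo 0 L) := by
  unfold Veff
  intro r hr
  have h1 : f r ≠ 0 := (hf.f_pos r hr.1 hr.2).ne'
  have h2 : h r ≠ 0 := (hf.h_pos r hr.1 hr.2.le).ne'
  have e1 : ContinuousAt f r := hf.smooth_f.continuous.continuousAt
  have e2 : ContinuousAt h r := hf.smooth_h.continuous.continuousAt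
  exact (((continuousAt_const.div e1 h1).pow 2).add
    ((continuousAt_const.div e2 h2).pow 2)).continuousWithinAt

theorem well_spec {c₁ c₂ : ℝ} (h1 : 0 < c₁)
    {s : ℝ} (hs0 : 0 < s) (hsL : s < L) (hs : Veff f h c₁ c₂ s < 1) :
    ∃ p q, 0 < p ∧ p < s ∧ s < q ∧ q < L ∧ Veff f h c₁ c₂ p = 1 ∧ Veff f h c₁ c₂ q = 1 ∧
      well L (Veff f h c₁ c₂) s = Ioo p q ∧ ∀ x ∈ Ioo p q, Veff f h c₁ c₂ x < 1 := by
  have hVc := cont_V hf (c₁ := c₁) (c₂ := c₂)
  -- a point near `0` with `V ≥ 1`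
  obtain ⟨u, hu0, hus, hu1⟩ : ∃ u, 0 < u ∧ u < s ∧ 1 ≤ Veff f h c₁ c₂ u := by
    have e1 : Tendsto f (𝓝[>] 0) (𝓝 (f 0)) := hf.smooth_f.continuous.continuousAt.mono_left
      nhdsWithin_le_nhds
    rw [f_zero hf] at e1
    have e2 : ∀ᶠ x in 𝓝[>] (0 : ℝ), f x < c₁ := e1.eventually_lt_const h1
    have e3 : ∀ᶠ x in 𝓝[>] (0 : ℝ), x ∈ Ioo 0 s := Ioo_mem_nhdsGT hs0
    obtain ⟨u, hu, hu'⟩ := (e2.and e3).exists
    refine ⟨u, hu'.1, hu'.2, ?_⟩
    have hfu : 0 < f u := hf.f_pos u hu'.1 (by linarith [hu'.2])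
    have : 1 ≤ c₁ / f u := by rw [le_div_iff₀ hfu]; linarith
    unfold Veff
    nlinarith [sq_nonneg (c₂ / h u)]
  obtain ⟨v, hsv, hvL, hv1⟩ : ∃ v, s < v ∧ v < L ∧ 1 ≤ Veff f h c₁ c₂ v := by
    have e1 : Tendsto f (𝓝[<] L) (𝓝 (f L)) := hf.smooth_f.continuous.continuousAt.mono_left
      nhdsWithin_le_nhds
    rw [f_L hf] at e1
    have e2 : ∀ᶠ x in 𝓝[<] L, f x < c₁ := e1.eventually_lt_const h1
    have e3 : ∀ᶠ x in 𝓝[<] L, x ∈ Ioo s L := Ioo_mem_nhdsLT hsL
    obtain ⟨v, hv, hv'⟩ := (e2.and e3).exists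
    refine ⟨v, hv'.1, hv'.2, ?_⟩
    have hfv : 0 < f v := hf.f_pos v (by linarith [hv'.1]) hv'.2
    have : 1 ≤ c₁ / f v := by rw [le_div_iff₀ hfv]; linarith
    unfold Veff
    nlinarith [sq_nonneg (c₂ / h v)]
  obtain ⟨p, hup, hps, hp1, hplt⟩ := exists_last hus.le
    (hVc.mono (fun x hx => ⟨lt_of_lt_of_le hu0 hx.1, lt_of_le_of_lt hx.2 hsL⟩)) hu1 hs
  obtain ⟨q, hsq, hqv, hq1, hqlt⟩ := exists_first hsv.le
    (hVc.mono (fun x hx => ⟨lt_of_lt_of_le hs0 hx.1, lt_of_le_of_lt hx.2 hvL⟩)) hs hv1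
  have hp0 : 0 < p := lt_of_lt_of_le hu0 hup
  have hqL : q < L := lt_of_le_of_lt hqv hvL
  have hin : ∀ x ∈ Ioo p q, Veff f h c₁ c₂ x < 1 := by
    intro x hx
    rcases le_total x s with hxs | hxs
    · exact hplt x hx.1 hxs
    · exact hqlt x hxs hx.2
  refine ⟨p, q, hp0, hps, hsq, hqL, hp1, hq1, ?_, hin⟩
  ext r
  constructor
  · intro hr
    have hr' : ∀ x ∈ uIcc s r, 0 < x ∧ x < L ∧ Veff f h c₁ c₂ x < 1 := hr
    constructor
    · by_contra hcon
      push Not at hcon
      have : p ∈ uIcc s r := by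
        rw [uIcc_of_ge (by linarith)]; exact ⟨hcon, hps.le⟩
      have := (hr' p this).2.2
      linarith
    · by_contra hcon
      push Not at hcon
      have : q ∈ uIcc s r := by
        rw [uIcc_of_le (by linarith)]; exact ⟨hsq.le, hcon⟩
      have := (hr' q this).2.2
      linarith
  · intro hr x hx
    have hx' : x ∈ Ioo p q :=
      (ordConnected_Ioo.uIcc_subset ⟨hps, hsq⟩ hr) hx
    exact ⟨hp0.trans hx'.1, hx'.2.trans hqL, hin x hx'⟩

theorem meas (c₁ c₂ : ℝ) : Measurable (fun r => √(1 - Veff f h c₁ c₂ r)) := by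
  unfold Veff
  have m1 : Measurable f := hf.smooth_f.continuous.measurable
  have m2 : Measurable h := hf.smooth_h.continuous.measurable
  exact (measurable_const.sub (((measurable_const.div m1).pow_const 2).add
    ((measurable_const.div m2).pow_const 2))).sqrt

theorem intOn (c₁ c₂ : ℝ) {A : Set ℝ}
    (hA : volume A < ⊤) : IntegrableOn (fun r => √(1 - Veff f h c₁ c₂ r)) A := by
  refine Measure.integrableOn_of_bounded (M := 1) hA.ne (meas hf c₁ c₂).aestronglyMeasurable ?_
  refine Eventually.of_forall fun r => ?_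
  rw [Real.norm_of_nonneg (Real.sqrt_nonneg _)]
  exact bd c₁ c₂ r

/-- Contribution of a compact interval to the action. -/
theorem actW_ge {c₁ c₂ x y s : ℝ}
    (hx : 0 < x) (hy : y < L) (hs : s ∈ Icc x y) (hV : ∀ r ∈ Icc x y, Veff f h c₁ c₂ r < 1) :
    2 * ∫ r in Icc x y, √(1 - Veff f h c₁ c₂ r) ≤ actW L (Veff f h c₁ c₂) s := by
  unfold actW
  have hsub : Icc x y ⊆ well L (Veff f h c₁ c₂) s := by
    intro r hr z hz
    have hz' : z ∈ Icc x y := (ordConnected_Icc.uIcc_subset hs hr) hz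
    exact ⟨lt_of_lt_of_le hx hz'.1, lt_of_le_of_lt hz'.2 hy, hV z hz'⟩
  have hfin : volume (well L (Veff f h c₁ c₂) s) < ⊤ :=
    lt_of_le_of_lt (measure_mono (well_sub L _ s)) measure_Ioo_lt_top
  have := setIntegral_mono_set (intOn hf c₁ c₂ hfin)
    (Eventually.of_forall fun r => Real.sqrt_nonneg _) hsub.eventuallyLE
  linarith

/-- The effective potential stays below `1` on compact intervals for nearby constants. -/
theorem ev_lt {c₀ : ℝ × ℝ} {x y : ℝ}
    (hx : 0 < x) (hy : y < L) (hV : ∀ r ∈ Icc x y, Veff f h c₀.1 c₀.2 r < 1) :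
    ∀ᶠ c : ℝ × ℝ in 𝓝 c₀, ∀ r ∈ Icc x y, Veff f h c.1 c.2 r < 1 := by
  refine isCompact_Icc.eventually_forall_of_forall_eventually
    (P := fun (c : ℝ × ℝ) (r : ℝ) => Veff f h c.1 c.2 r < 1) ?_
  intro r hr
  have h1 : f r ≠ 0 := (hf.f_pos r (lt_of_lt_of_le hx hr.1) (lt_of_le_of_lt hr.2 hy)).ne'
  have h2 : h r ≠ 0 := (hf.h_pos r (lt_of_lt_of_le hx hr.1) (hr.2.trans hy.le)).ne'
  have e1 : ContinuousAt (fun z : (ℝ × ℝ) × ℝ => f z.2) (c₀, r) :=
    (hf.smooth_f.continuous.comp continuous_snd).continuousAt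
  have e2 : ContinuousAt (fun z : (ℝ × ℝ) × ℝ => h z.2) (c₀, r) :=
    (hf.smooth_h.continuous.comp continuous_snd).continuousAt
  have e3 : ContinuousAt (fun z : (ℝ × ℝ) × ℝ => z.1.1) (c₀, r) :=
    (continuous_fst.comp continuous_fst).continuousAt
  have e4 : ContinuousAt (fun z : (ℝ × ℝ) × ℝ => z.1.2) (c₀, r) :=
    (continuous_snd.comp continuous_fst).continuousAt
  have e5 : ContinuousAt (fun z : (ℝ × ℝ) × ℝ => Veff f h z.1.1 z.1.2 z.2) (c₀, r) := by
    unfold Veff
    exact ((e3.div e1 h1).pow 2).add ((e4.div e2 h2).pow 2)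
  exact e5.eventually (eventually_lt_nhds (hV r hr))

theorem tendsto_int {c₀ : ℝ × ℝ}
    {c : ℕ → ℝ × ℝ} (hc : Tendsto c atTop (𝓝 c₀)) (x y : ℝ) :
    Tendsto (fun n => ∫ r in Icc x y, √(1 - Veff f h (c n).1 (c n).2 r)) atTop
      (𝓝 (∫ r in Icc x y, √(1 - Veff f h c₀.1 c₀.2 r))) := by
  refine tendsto_integral_of_dominated_convergence (fun _ => (1 : ℝ)) ?_ ?_ ?_ ?_
  · intro n; exact (meas hf _ _).aestronglyMeasurable
  · exact (integrableOn_const measure_Icc_lt_top.ne : IntegrableOn (fun _ => (1 : ℝ)) (Icc x y))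
  · intro n
    refine Eventually.of_forall fun r => ?_
    rw [Real.norm_of_nonneg (Real.sqrt_nonneg _)]
    exact bd _ _ r
  · refine Eventually.of_forall fun r => ?_
    unfold Veff
    have e1 : Tendsto (fun n => (c n).1) atTop (𝓝 c₀.1) := (continuous_fst.tendsto c₀).comp hc
    have e2 : Tendsto (fun n => (c n).2) atTop (𝓝 c₀.2) := (continuous_snd.tendsto c₀).comp hc
    exact (tendsto_const_nhds.sub (((e1.div_const _).pow 2).add ((e2.div_const _).pow 2))).sqrt

/-- Truncating the interval of integration changes the integral by at most the length. -/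
theorem trunc (c₁ c₂ : ℝ) {p x y q : ℝ}
    (hpx : p ≤ x) (hxy : x ≤ y) (hyq : y ≤ q) :
    ∫ r in Ioo p q, √(1 - Veff f h c₁ c₂ r) ≤
      (∫ r in Icc x y, √(1 - Veff f h c₁ c₂ r)) + (x - p) + (q - y) := by
  rw [← integral_Ioc_eq_integral_Ioo, integral_Icc_eq_integral_Ioc,
    ← intervalIntegral.integral_of_le (hpx.trans (hxy.trans hyq)),
    ← intervalIntegral.integral_of_le hxy]
  have hi : ∀ u v : ℝ, IntervalIntegrable (fun r => √(1 - Veff f h c₁ c₂ r)) volume u v := by
    intro u v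
    rw [intervalIntegrable_iff]
    exact intOn hf c₁ c₂ (by rw [uIoc]; exact measure_Ioc_lt_top)
  have hb : ∀ u v : ℝ, u ≤ v → ∫ r in u..v, √(1 - Veff f h c₁ c₂ r) ≤ v - u := by
    intro u v huv
    have := intervalIntegral.integral_mono_on huv (hi u v)
      (intervalIntegrable_const (c := (1 : ℝ))) (fun r _ => bd c₁ c₂ r)
    simpa using this
  rw [← intervalIntegral.integral_add_adjacent_intervals (hi p y) (hi y q),
    ← intervalIntegral.integral_add_adjacent_intervals (hi p x) (hi x y)]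
  have := hb p x hpx
  have := hb y q hyq
  linarith

end

theorem continuous_KK : Continuous KK := by
  unfold KK
  exact ((continuous_fst.pow 2).add (continuous_snd.pow 2)).sqrt

theorem KK_nonneg (c : ℝ × ℝ) : 0 ≤ KK c := Real.sqrt_nonneg _

/-- Lower semicontinuity of the action defect. -/
theorem lsc {L : ℝ} {f h : ℝ → ℝ} (hf : IsProfileC L f h) {R : ℝ} {s : ℝ × ℝ → ℝ}
    {c₀ : ℝ × ℝ} {c : ℕ → ℝ × ℝ} (hc : Tendsto c atTop (𝓝 c₀)) {m : ℝ}
    (hD : Tendsto (fun n => Dc L R f h s (c n)) atTop (𝓝 m))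
    {p q x' y' : ℝ} (hp : 0 ≤ p) (hq : q ≤ L)
    (hV : ∀ r ∈ Ioo p q, Veff f h c₀.1 c₀.2 r < 1) (hx : p < x') (hxy : x' ≤ y') (hy : y' < q)
    (hs : ∀ᶠ n in atTop, s (c n) ∈ Icc x' y') :
    2 * (∫ r in Ioo p q, √(1 - Veff f h c₀.1 c₀.2 r)) - π * (R - c₀.1 - KK c₀) ≤ m := by
  refine le_of_forall_pos_le_add fun ε hε => ?_
  set x := min (p + ε / 4) x' with hxdef
  set y := max (q - ε / 4) y' with hydef
  have hpx : p < x := lt_min (by linarith) hx
  have hyq : y < q := max_lt (by linarith) hy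
  have hxx : x ≤ x' := min_le_right _ _
  have hyy : y' ≤ y := le_max_right _ _
  have hx4 : x ≤ p + ε / 4 := min_le_left _ _
  have hy4 : q - ε / 4 ≤ y := le_max_left _ _
  have hxy2 : x ≤ y := hxx.trans (hxy.trans hyy)
  have hV' : ∀ r ∈ Icc x y, Veff f h c₀.1 c₀.2 r < 1 := fun r hr =>
    hV r ⟨lt_of_lt_of_le hpx hr.1, lt_of_le_of_lt hr.2 hyq⟩
  have hx0 : 0 < x := lt_of_le_of_lt hp hpx
  have hyL : y < L := lt_of_lt_of_le hyq hq
  have ev1 := hc.eventually (ev_lt hf hx0 hyL hV')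
  have ev2 : ∀ᶠ n in atTop, 2 * (∫ r in Icc x y, √(1 - Veff f h (c n).1 (c n).2 r)) -
      π * (R - (c n).1 - KK (c n)) ≤ Dc L R f h s (c n) := by
    filter_upwards [ev1, hs] with n hn hsn
    have hsn' : s (c n) ∈ Icc x y := ⟨hxx.trans hsn.1, hsn.2.trans hyy⟩
    have := actW_ge hf hx0 hyL hsn' hn
    unfold Dc
    linarith
  have e1 : Tendsto (fun n => (c n).1) atTop (𝓝 c₀.1) := (continuous_fst.tendsto c₀).comp hc
  have e2 : Tendsto (fun n => KK (c n)) atTop (𝓝 (KK c₀)) := (continuous_KK.tendsto c₀).comp hc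
  have lim : Tendsto (fun n => 2 * (∫ r in Icc x y, √(1 - Veff f h (c n).1 (c n).2 r)) -
      π * (R - (c n).1 - KK (c n))) atTop (𝓝 (2 * (∫ r in Icc x y, √(1 - Veff f h c₀.1 c₀.2 r)) -
      π * (R - c₀.1 - KK c₀))) :=
    ((tendsto_int hf hc x y).const_mul 2).sub (((tendsto_const_nhds.sub e1).sub e2).const_mul π)
  have key := le_of_tendsto_of_tendsto lim hD ev2
  have ht := trunc hf c₀.1 c₀.2 hpx.le hxy2 hyq.le
  linarith

theorem t_M : S_M := by
  intro L R S a b ρ η f h s hf hR hRS ha hab hbL hη hρ hfa hfd hhb hs hsI hsρ hsf hsb hLR hEf hEh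
    hneg
  have hπ := Real.pi_pos
  -- the infimum
  set E : Set ℝ := Dc L R f h s '' Reg R with hE
  have hbdd : BddBelow E := by
    refine ⟨-(π * R), ?_⟩
    rintro _ ⟨c, hc, rfl⟩
    have h0 := actW_nonneg L (Veff f h c.1 c.2) (s c)
    have hK := KK_nonneg c
    obtain ⟨h1, h2, h3⟩ := hc
    unfold Dc
    nlinarith
  obtain ⟨c₁, hc₁, hc₁'⟩ := hneg
  have hne : E.Nonempty := ⟨_, c₁, hc₁, rfl⟩
  set m := sInf E with hm
  have hmneg : m < 0 := by
    have : m ≤ Dc L R f h s c₁ := csInf_le hbdd ⟨c₁, hc₁, rfl⟩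
    linarith
  obtain ⟨u, -, hu, huE⟩ := exists_seq_tendsto_sInf hne hbdd
  choose d hdT hdu using huE
  have hKle : ∀ c : ℝ × ℝ, 0 < c.2 → c.2 ≤ KK c := by
    intro c hc
    unfold KK
    exact Real.le_sqrt_of_sq_le (by nlinarith [sq_nonneg c.1])
  -- subsequence
  have hdK : ∀ n, d n ∈ Icc ((0 : ℝ), (0 : ℝ)) (R, R) := by
    intro n
    obtain ⟨h1, h2, h3⟩ := hdT n
    have hK := hKle (d n) h2
    exact ⟨⟨h1.le, h2.le⟩, ⟨by simp only; linarith, by simp only; linarith⟩⟩
  obtain ⟨c₀, hc₀, φ, hφ, hlim⟩ := isCompact_Icc.tendsto_subseq hdK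
  set c : ℕ → ℝ × ℝ := d ∘ φ with hcdef
  have hcT : ∀ n, c n ∈ Reg R := fun n => hdT (φ n)
  have hD : Tendsto (fun n => Dc L R f h s (c n)) atTop (𝓝 m) := by
    have : (fun n => Dc L R f h s (c n)) = u ∘ φ := by
      funext n; exact hdu (φ n)
    rw [this]
    exact hu.comp hφ.tendsto_atTop
  have e1 : Tendsto (fun n => (c n).1) atTop (𝓝 c₀.1) := (continuous_fst.tendsto c₀).comp hlim
  have e2 : Tendsto (fun n => (c n).2) atTop (𝓝 c₀.2) := (continuous_snd.tendsto c₀).comp hlim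
  have eK : Tendsto (fun n => KK (c n)) atTop (𝓝 (KK c₀)) := (continuous_KK.tendsto c₀).comp hlim
  have h01 : 0 ≤ c₀.1 := hc₀.1.1
  have h02 : 0 ≤ c₀.2 := hc₀.1.2
  have hsum : c₀.1 + KK c₀ ≤ R :=
    le_of_tendsto (e1.add eK) (Eventually.of_forall fun n => (hcT n).2.2.le)
  -- the curve `c₁ + K = R`
  have hsum' : c₀.1 + KK c₀ < R := by
    rcases lt_or_eq_of_le hsum with hh | hh
    · exact hh
    exfalso
    have lim0 : Tendsto (fun n => -(π * (R - (c n).1 - KK (c n)))) atTop
        (𝓝 (-(π * (R - c₀.1 - KK c₀)))) :=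
      (((tendsto_const_nhds.sub e1).sub eK).const_mul π).neg
    have := le_of_tendsto_of_tendsto lim0 hD (Eventually.of_forall fun n => by
      have := actW_nonneg L (Veff f h (c n).1 (c n).2) (s (c n))
      unfold Dc
      linarith)
    have e : R - c₀.1 - KK c₀ = 0 := by linarith
    rw [e] at this
    simp at this
    linarith
  rcases eq_or_lt_of_le h01 with h01' | h01'
  · rcases eq_or_lt_of_le h02 with h02' | h02'
    · -- the origin
      exfalso
      have h10 : c₀.1 = 0 := h01'.symm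
      have h20 : c₀.2 = 0 := h02'.symm
      have key := lsc (R := R) (s := s) hf hlim hD (p := 0) (q := L) (x' := a) (y' := b) le_rfl
        le_rfl (fun r _ => by rw [h10, h20]; unfold Veff; simp) ha hab.le hbL
        (Eventually.of_forall fun n => hsI (c n) (hcT n).1 (hcT n).2.1)
      have hK0 : KK c₀ = 0 := by unfold KK; rw [h10, h20]; simp
      have hint : ∫ r in Ioo 0 L, √(1 - Veff f h c₀.1 c₀.2 r) = L := by
        have e : (fun r => √(1 - Veff f h c₀.1 c₀.2 r)) = fun _ => (1 : ℝ) := by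
          funext r; unfold Veff; rw [h10, h20]; simp
        rw [e, integral_const]
        simp [hf.pos.le]
      rw [hint, hK0, h10] at key
      linarith
    · -- the edge `c₁ = 0`
      exfalso
      have h10 : c₀.1 = 0 := h01'.symm
      set t := c₀.2 with ht
      have hK0 : KK c₀ = t := by
        unfold KK; rw [h10, ← ht]
        rw [show (0 : ℝ) ^ 2 + t ^ 2 = t ^ 2 by ring, Real.sqrt_sq h02'.le]
      have htR : t < R := by rw [h10, hK0] at hsum'; linarith
      obtain ⟨y, hy0, hyL, hyt, hgt, hEy⟩ := hEh t ⟨h02', htR⟩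
      have hyb : y < b := by
        by_contra hcon
        push Not at hcon
        have := hhb y ⟨hcon, hyL.le⟩
        linarith
      have hVt : ∀ r ∈ Ioo y L, Veff f h c₀.1 c₀.2 r < 1 := by
        intro r hr
        have h1 := hgt r ⟨hr.1, hr.2.le⟩
        have h2 : t / h r < 1 := by rw [div_lt_one (by linarith)]; exact h1
        have h3 : 0 < t / h r := div_pos h02' (by linarith)
        unfold Veff
        rw [h10, ← ht, zero_div]
        nlinarith
      have hev : ∀ᶠ n in atTop, s (c n) ∈ Icc b b := by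
        have e3 : Tendsto (fun n => η * (c n).2 - (c n).1) atTop (𝓝 (η * t - 0)) := by
          rw [← h10]; exact (e2.const_mul η).sub e1
        have e4 : (0 : ℝ) < η * t - 0 := by rw [sub_zero]; exact mul_pos hη h02'
        filter_upwards [e3.eventually (lt_mem_nhds e4)] with n hn
        have hn1 := (hcT n).1
        have hn2 := (hcT n).2.1
        rw [hsb _ hn1 hn2 (by linarith)]
        exact ⟨le_rfl, le_rfl⟩
      have key := lsc (R := R) (s := s) hf hlim hD (p := y) (q := L) (x' := b)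
        (y' := b) hy0 le_rfl hVt hyb le_rfl hbL hev
      have hsplit : ∫ r in Ioo y L, √(1 - (t / h r) ^ 2) =
          ∫ r in Ioo y L, √(1 - Veff f h c₀.1 c₀.2 r) := by
        congr 1
        funext r; unfold Veff; rw [h10, ← ht]; simp
      rw [hsplit] at hEy
      rw [hK0, h10] at key
      rw [h10] at hEy
      have : R - 0 - t = R - t := by ring
      rw [this] at key
      linarith
  · rcases eq_or_lt_of_le h02 with h02' | h02'
    · -- the edge `c₂ = 0`
      exfalso
      have h20 : c₀.2 = 0 := h02'.symm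
      set t := c₀.1 with ht
      have hK0 : KK c₀ = t := by
        unfold KK; rw [h20, ← ht]
        rw [show t ^ 2 + (0 : ℝ) ^ 2 = t ^ 2 by ring, Real.sqrt_sq h01'.le]
      have htR : t < R / 2 := by rw [hK0] at hsum'; linarith
      obtain ⟨x, y, hx0, hxa, hay, hyL, hfx, hfy, hgt, hExy⟩ := hEf t ⟨h01', htR⟩
      have hVt : ∀ r ∈ Ioo x y, Veff f h c₀.1 c₀.2 r < 1 := by
        intro r hr
        have h1 := hgt r hr
        have h2 : t / f r < 1 := by rw [div_lt_one (by linarith)]; exact h1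
        have h3 : 0 < t / f r := div_pos h01' (by linarith)
        unfold Veff
        rw [h20, ← ht, zero_div]
        nlinarith
      have hanti : StrictAntiOn f (Icc a L) := by
        refine strictAntiOn_of_deriv_neg (convex_Icc a L) hf.smooth_f.continuous.continuousOn ?_
        intro r hr
        rw [interior_Icc] at hr
        exact hfd r ⟨hr.1.le, hr.2.le⟩
      have hy' : f ((a + y) / 2) < S / 2 := by
        rw [← hfa]
        exact hanti ⟨le_rfl, (hab.trans hbL).le⟩ ⟨by linarith, by linarith⟩ (by linarith)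
      have hev : ∀ᶠ n in atTop, s (c n) ∈ Icc a ((a + y) / 2) := by
        have e3 : Tendsto (fun n => S * √((c n).1 * KK (c n)) / ((c n).1 + KK (c n))) atTop
            (𝓝 (S * √(t * t) / (t + t))) := by
          have eK' : Tendsto (fun n => KK (c n)) atTop (𝓝 t) := by rw [← hK0]; exact eK
          exact (((e1.mul eK').sqrt).const_mul S).div (e1.add eK') (by linarith)
        have e4 : S * √(t * t) / (t + t) = S / 2 := by
          rw [Real.sqrt_mul_self h01'.le]
          field_simp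
          ring
        rw [e4] at e3
        filter_upwards [e3.eventually (lt_mem_nhds hy')] with n hn
        have hn1 := (hcT n).1
        have hn2 := (hcT n).2.1
        have hI := hsI _ hn1 hn2
        have hF := hsf _ hn1 hn2
        refine ⟨hI.1, ?_⟩
        by_contra hcon
        push Not at hcon
        have := hanti (a := (a + y) / 2) (b := s (c n)) ⟨by linarith, by linarith⟩
          ⟨hI.1, hI.2.trans hbL.le⟩ hcon
        linarith
      have key := lsc (R := R) (s := s) hf hlim hD (p := x) (q := y) (x' := a)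
        (y' := (a + y) / 2) hx0 hyL hVt hxa (by linarith) (by linarith) hev
      have hsplit : ∫ r in Ioo x y, √(1 - (t / f r) ^ 2) =
          ∫ r in Ioo x y, √(1 - Veff f h c₀.1 c₀.2 r) := by
        congr 1
        funext r; unfold Veff; rw [h20, ← ht]; simp
      rw [hsplit] at hExy
      rw [hK0] at key
      rw [h20] at hExy key
      rw [← ht] at hExy key
      have : R - t - t = R - 2 * t := by ring
      rw [this] at key
      linarith
    · -- an interior point: the minimum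
      have hc₀T : c₀ ∈ Reg R := ⟨h01', h02', hsum'⟩
      have hopen : IsOpen {c : ℝ × ℝ | 0 < c.1 ∧ 0 < c.2} :=
        (isOpen_lt continuous_const continuous_fst).inter
          (isOpen_lt continuous_const continuous_snd)
      have hscont : ContinuousAt s c₀ := hs.continuousAt (hopen.mem_nhds ⟨h01', h02'⟩)
      have hslim : Tendsto (fun n => s (c n)) atTop (𝓝 (s c₀)) := hscont.tendsto.comp hlim
      have hsI0 := hsI c₀ h01' h02'
      obtain ⟨p, q, hp, hps, hsq, hq, -, -, hw, hin⟩ := well_spec hf h01'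
        (lt_of_lt_of_le ha hsI0.1) (lt_of_le_of_lt hsI0.2 hbL)
        (lt_of_le_of_lt (hsρ c₀ hc₀T) hρ)
      have hev : ∀ᶠ n in atTop, s (c n) ∈ Icc ((p + s c₀) / 2) ((s c₀ + q) / 2) :=
        hslim.eventually (Icc_mem_nhds (by linarith) (by linarith))
      have key := lsc (R := R) (s := s) hf hlim hD (p := p) (q := q) hp.le hq.le hin
        (by linarith) (by linarith) (by linarith) hev
      have hle : Dc L R f h s c₀ ≤ m := by
        unfold Dc actW
        rw [hw]
        exact key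
      refine ⟨c₀, hc₀T, lt_of_le_of_lt hle hmneg, ?_⟩
      intro c' hc'
      exact hle.trans (csInf_le hbdd ⟨c', hc', rfl⟩)

end Pool.Agent.Helper60.CP.M
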