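import Pool.Agent.Helper60.CP.Orb
import Pool.Agent.Helper60.CP.Gen
import Pool.Agent.H206R2.Rot2.Main

/-!
# Assembly
-/

set_option autoImplicit false

open Real Set MeasureTheory
open scoped ContDiff LinearAlgebra.Projectivization Topology

namespace Pool.Agent.Helper60.CP.Asm

open Pool.Agent.H206R2.Rot2 (Veff well actW)

/-- the well of `(t/g)²` -/
lemma well1 {M s₀ t : ℝ} {g : ℝ → ℝ} (hg : Continuous g) (hpos : ∀ x ∈ Ioo 0 M, 0 < g x)
    (h0 : g 0 = 0) (hM : g M = 0) (hs : s₀ ∈ Ioo 0 M) (ht : 0 < t) (hts : t < g s₀) :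
    ∃ x y, 0 < x ∧ x < s₀ ∧ s₀ < y ∧ y < M ∧ g x = t ∧ g y = t ∧ (∀ r ∈ Ioo x y, t < g r) ∧
      well M (fun r => (t / g r) ^ 2) s₀ = Ioo x y := by
  have hpos' : ∀ r, 0 < r → r < M → 0 < g r := fun r h1 h2 => hpos r ⟨h1, h2⟩
  have hVc : ContinuousOn (fun r => (t / g r) ^ 2) (Ioo 0 M) :=
    (continuousOn_const.div hg.continuousOn fun r hr => (hpos r hr).ne').pow 2
  obtain ⟨u, hu0, hus, hu1⟩ := Gen.near_left hg h0 hpos' hs.1 hs.2 ht
  obtain ⟨v, hv0, hvs, hv1⟩ := Gen.near_right hg hM hpos' hs.1 hs.2 ht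
  have hlt : ∀ r, 0 < r → r < M → ((t / g r) ^ 2 < 1 ↔ t < g r) := by
    intro r h1 h2
    have hr := hpos' r h1 h2
    have h3 : 0 < t / g r := by positivity
    rw [sq_lt_one_iff₀ h3.le, div_lt_one hr]
  have heq : ∀ r, 0 < r → r < M → (t / g r) ^ 2 = 1 → g r = t := by
    intro r h1 h2 h3
    have hr := hpos' r h1 h2
    have h4 : 0 < t / g r := by positivity
    have h5 : t / g r = 1 := (pow_eq_one_iff_of_nonneg h4.le two_ne_zero).1 h3
    rw [div_eq_one_iff_eq hr.ne'] at h5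
    exact h5.symm
  obtain ⟨p, q, h1, h2, h3, h4, h5, h6, h7, h8⟩ := Gen.well_gen hVc hs.1 hs.2
    ((hlt s₀ hs.1 hs.2).2 hts) ⟨u, hu0, hus, by nlinarith⟩ ⟨v, hv0, hvs, by nlinarith⟩
  exact ⟨p, q, h1, h2, h3, h4, heq p h1 (by linarith) h5, heq q (by linarith) h4 h6,
    fun r hr => (hlt r (by linarith [hr.1]) (by linarith [hr.2])).1 (h8 r hr), h7⟩

/-- The angle functions. -/
lemma angle {g r : ℝ → ℝ} {p q T c : ℝ} (hr : ContDiff ℝ 2 r) (hrI : ∀ t, p ≤ r t ∧ r t ≤ q)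
    (hg : ContDiff ℝ ∞ g) (hg0 : ∀ x ∈ Icc p q, g x ≠ 0) (hrT : ∀ t, g (r (t + T)) = g (r t)) :
    ∃ θ : ℝ → ℝ, ContDiff ℝ 2 θ ∧ (∀ t, deriv θ t = c / g (r t) ^ 2) ∧
      ∀ t, θ (t + T) = θ t + ∫ s in (0 : ℝ)..T, c / g (r s) ^ 2 := by
  set F : ℝ → ℝ := fun t => c / g (r t) ^ 2 with hF
  have hne : ∀ t, g (r t) ^ 2 ≠ 0 := fun t => pow_ne_zero 2 (hg0 _ ⟨(hrI t).1, (hrI t).2⟩)
  have hF1 : ContDiff ℝ 1 F := by
    have hgr : ContDiff ℝ 1 fun t => g (r t) :=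
      (hg.of_le (by exact_mod_cast le_top)).comp (hr.of_le (by norm_num))
    exact contDiff_const.div (hgr.pow 2) hne
  have hFc : Continuous F := hF1.continuous
  have hd : ∀ t, HasDerivAt (fun t => ∫ s in (0 : ℝ)..t, F s) (F t) t := fun t =>
    intervalIntegral.integral_hasDerivAt_right (hFc.intervalIntegrable _ _)
      (hFc.stronglyMeasurableAtFilter _ _) hFc.continuousAt
  have hder : deriv (fun t => ∫ s in (0 : ℝ)..t, F s) = F := funext fun t => (hd t).deriv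
  refine ⟨fun t => ∫ s in (0 : ℝ)..t, F s, ?_, fun t => (hd t).deriv, fun t => ?_⟩
  · rw [show (2 : WithTop ℕ∞) = 1 + 1 by norm_num, contDiff_succ_iff_deriv]
    refine ⟨fun t => (hd t).differentiableAt, by simp, ?_⟩
    rw [hder]; exact hF1
  · have hper : Function.Periodic F T := fun t => by simp only [hF, hrT]
    have h1 := hper.intervalIntegral_add_eq t 0
    simp only [zero_add] at h1
    change ∫ s in (0 : ℝ)..(t + T), F s = (∫ s in (0 : ℝ)..t, F s) + ∫ s in (0 : ℝ)..T, F s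
    rw [← h1, intervalIntegral.integral_add_adjacent_intervals (hFc.intervalIntegrable _ _)
      (hFc.intervalIntegrable _ _)]

lemma hasDerivAt_V1 {g : ℝ → ℝ} (hg : ContDiff ℝ ∞ g) (c : ℝ) {x : ℝ} (hx : g x ≠ 0) :
    HasDerivAt (fun x => (c / g x) ^ 2) (-2 * (g x * deriv g x * (c / g x ^ 2) ^ 2)) x := by
  have hg1 : HasDerivAt g (deriv g x) x :=
    (hg.differentiable (by simp)).differentiableAt.hasDerivAt
  have h1 : HasDerivAt (fun r => c / g r) (-(c * deriv g x) / g x ^ 2) x := by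
    have := (hasDerivAt_const x c).div hg1 hx
    refine this.congr_deriv ?_
    ring
  refine (h1.pow 2).congr_deriv ?_
  norm_num
  field_simp

lemma contDiffOn_V1 {g : ℝ → ℝ} (hg : ContDiff ℝ ∞ g) (c : ℝ) {M : ℝ}
    (hpos : ∀ x ∈ Ioo 0 M, 0 < g x) : ContDiffOn ℝ ∞ (fun x => (c / g x) ^ 2) (Ioo 0 M) :=
  (contDiffOn_const.div hg.contDiffOn fun x hx => (hpos x hx).ne').pow 2

/-- The one-parameter potential at the ends of a well. -/
lemma ends {g : ℝ → ℝ} (hg : ContDiff ℝ ∞ g) {c p q M : ℝ} (hpos : ∀ x ∈ Ioo 0 M, 0 < g x)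
    (hc : 0 < c) (hp : 0 < p) (hpq : p < q) (hq : q < M) (hgp : g p = c) (hgq : g q = c)
    (hin : ∀ x ∈ Ioo p q, c < g x) (hp' : 0 < deriv g p) (hq' : deriv g q < 0) :
    (c / g p) ^ 2 = 1 ∧ (c / g q) ^ 2 = 1 ∧ deriv (fun x => (c / g x) ^ 2) p < 0 ∧
      0 < deriv (fun x => (c / g x) ^ 2) q ∧ (∀ x ∈ Ioo p q, (c / g x) ^ 2 < 1) ∧
      ∀ x ∈ Icc p q, g x ≠ 0 := by
  have hne : ∀ x ∈ Icc p q, g x ≠ 0 := fun x hx =>
    (hpos x ⟨hp.trans_le hx.1, hx.2.trans_lt hq⟩).ne'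
  refine ⟨by rw [hgp, div_self hc.ne', one_pow], by rw [hgq, div_self hc.ne', one_pow], ?_, ?_, ?_, hne⟩
  · rw [(hasDerivAt_V1 hg c (hne p ⟨le_rfl, hpq.le⟩)).deriv, hgp]
    have : 0 < c * deriv g p * (c / c ^ 2) ^ 2 := by positivity
    linarith
  · rw [(hasDerivAt_V1 hg c (hne q ⟨hpq.le, le_rfl⟩)).deriv, hgq]
    have : 0 < c * (-deriv g q) * (c / c ^ 2) ^ 2 := by
      have : 0 < -deriv g q := by linarith
      positivity
    linarith
  · intro x hx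
    have h1 := hin x hx
    have h2 : 0 < g x := hc.trans h1
    have h3 : 0 < c / g x := by positivity
    rw [sq_lt_one_iff₀ h3.le, div_lt_one h2]
    exact h1

/-- closed geodesics in the complex lines through the fixed point -/
theorem orbit_f {L : ℝ} {f h : ℝ → ℝ} (hf : IsProfileC L f h) {n : ℕ} (hn : 2 ≤ n) {c p q : ℝ}
    (hc : 0 < c) (hp : 0 < p) (hpq : p < q) (hq : q < L) (hfp : f p = c) (hfq : f q = c)
    (hin : ∀ x ∈ Ioo p q, c < f x) (hp' : 0 < deriv f p) (hq' : deriv f q < 0)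
    (hΦ : 2 * (∫ x in Ioo p q, c / (f x ^ 2 * √(1 - (c / f x) ^ 2))) = 2 * π) :
    ∃ γ : ℝ → ℙ ℂ (ℂ × Cn n), IsGeodesicC L f h 1 γ ∧
      (0 < 2 * ∫ x in Ioo p q, 1 / √(1 - (c / f x) ^ 2)) ∧
      ∀ t, γ (t + 2 * ∫ x in Ioo p q, 1 / √(1 - (c / f x) ^ 2)) = γ t := by
  have hfpos : ∀ x ∈ Ioo 0 L, 0 < f x := fun x hx => hf.f_pos x hx.1 hx.2
  obtain ⟨hVp, hVq, hVp', hVq', hVin, hfne⟩ := ends hf.smooth_f hfpos hc hp hpq hq hfp hfq hin hp' hq'
  obtain ⟨r, T, hT, hTeq, hr, hrI, hr2, hr1, hrT, hrint⟩ :=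
    Pool.Agent.H206R2.Rot2.TH.oscillator hp hpq hq (contDiffOn_V1 hf.smooth_f c hfpos) hVp hVq hVp' hVq' hVin
  have hhne : ∀ x ∈ Icc p q, h x ≠ 0 := fun x hx =>
    (hf.h_pos x (hp.trans_le hx.1) (hx.2.trans hq.le)).ne'
  obtain ⟨θ₁, hθ₁, hθ₁d, hθ₁T⟩ := angle (c := c) hr hrI hf.smooth_f hfne (T := T) (fun t => by rw [hrT])
  obtain ⟨θ₂, hθ₂, hθ₂d, hθ₂T⟩ := angle (c := 1) hr hrI hf.smooth_h hhne (T := T) (fun t => by rw [hrT])
  have hA1 : ∫ t in (0 : ℝ)..T, c / f (r t) ^ 2 = 2 * π := by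
    rw [hrint (fun x => c / f x ^ 2)
      (continuousOn_const.div (hf.smooth_f.continuous.continuousOn.pow 2) fun x hx =>
        pow_ne_zero 2 (hfne x hx)), ← hΦ]
    simp only [div_div]
  have hdB : ∀ t, deriv (fun t => c * θ₂ t) t = c * (1 / h (r t) ^ 2) := fun t => by
    rw [deriv_const_mul _ (hθ₂.differentiable (by norm_num)).differentiableAt, hθ₂d]
  have hdA : ∀ t, deriv (fun t => θ₁ t - c * θ₂ t) t = c / f (r t) ^ 2 - c * (1 / h (r t) ^ 2) := by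
    intro t
    have h1 := (hθ₁.differentiable (by norm_num)).differentiableAt (x := t)
    have h2 := (hθ₂.differentiable (by norm_num)).differentiableAt (x := t)
    rw [deriv_fun_sub h1 (h2.const_mul c), hdB, hθ₁d]
  rw [← hTeq]
  have hs : ∀ t, c / f (r t) ^ 2 - c * (1 / h (r t) ^ 2) + 1 * (c * (1 / h (r t) ^ 2)) =
      c / f (r t) ^ 2 := fun t => by ring
  obtain ⟨γ, hγ, hper⟩ := geod_a hn (L := L) (f := f) (h := h) (r := r) (A := fun t => θ₁ t - c * θ₂ t)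
    (B := fun t => c * θ₂ t) (K := c) (C := 1) (T := T) (by norm_num) le_rfl hr
    (hθ₁.sub (contDiff_const.mul hθ₂)) (contDiff_const.mul hθ₂)
    (fun t => by
      rw [hdA, hdB, hs, hr2, (hasDerivAt_V1 hf.smooth_f c (hfne (r t) ⟨(hrI t).1, (hrI t).2⟩)).deriv]
      ring)
    (fun t => by
      rw [hdB]
      have := hhne (r t) ⟨(hrI t).1, (hrI t).2⟩
      field_simp)
    (fun t => by
      rw [hdA, hdB, hs]
      have := hfne (r t) ⟨(hrI t).1, (hrI t).2⟩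
      field_simp)
    (fun t => by
      rw [hdA, hdB, hs, hr1]
      have := hfne (r t) ⟨(hrI t).1, (hrI t).2⟩
      field_simp
      ring)
    hrT (fun t => by rw [hθ₁T, hA1]; ring) (Or.inl rfl)
  exact ⟨γ, hγ, hT, hper⟩

/-- closed geodesics in the real projective planes through the fixed point -/
theorem orbit_h (hO : S_O) {L : ℝ} {f h : ℝ → ℝ} (hf : IsProfileC L f h) {n : ℕ} (hn : 2 ≤ n)
    {c p q : ℝ} (hc : 0 < c) (hp : 0 < p) (hpL : p < L) (hLq : L < q) (hq : q < 2 * L) (hhp : h p = c)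
    (hhq : h q = c) (hin : ∀ x ∈ Ioo p q, c < h x) (hp' : 0 < deriv h p) (hq' : deriv h q < 0)
    (hΦ : 2 * (∫ x in Ioo p q, c / (h x ^ 2 * √(1 - (c / h x) ^ 2))) = 2 * π) :
    ∃ γ : ℝ → ℙ ℂ (ℂ × Cn n), IsGeodesicC L f h 1 γ ∧
      (0 < ∫ x in Ioo p q, 1 / √(1 - (c / h x) ^ 2)) ∧
      ∀ t, γ (t + ∫ x in Ioo p q, 1 / √(1 - (c / h x) ^ 2)) = γ t := by
  have hpq : p < q := hpL.trans hLq
  have hsym : ∀ x, h (2 * L - x) = h x := by
    intro x
    have := hf.h_even_L (L - x)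
    rw [show L + (L - x) = 2 * L - x by ring, show L - (L - x) = x by ring] at this
    exact this
  have hpos : ∀ x ∈ Ioo 0 (2 * L), 0 < h x := by
    intro x hx
    rcases le_total x L with h1 | h1
    · exact hf.h_pos x hx.1 h1
    · rw [← hsym]
      exact hf.h_pos _ (by linarith [hx.2]) (by linarith)
  -- the well is symmetric
  have hpq2 : p + q = 2 * L := by
    rcases lt_trichotomy (2 * L - q) p with h1 | h1 | h1
    · exfalso
      have h2 := hin (2 * L - p) ⟨by linarith, by linarith⟩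
      rw [hsym, hhp] at h2
      exact lt_irrefl _ h2
    · linarith
    · exfalso
      have h2 := hin (2 * L - q) ⟨h1, by linarith⟩
      rw [hsym, hhq] at h2
      exact lt_irrefl _ h2
  obtain ⟨hVp, hVq, hVp', hVq', hVin, hhne⟩ := ends hf.smooth_h hpos hc hp hpq hq hhp hhq hin hp' hq'
  obtain ⟨r, T, hT, hTeq, hr, hrI, hr2, hr1, hrT, hrint⟩ :=
    hO (2 * L) p q (fun x => (c / h x) ^ 2) hp hpq hq (contDiffOn_V1 hf.smooth_h c hpos) hVp hVq hVp'
      hVq' hVin (fun x => by rw [hpq2, hsym])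
  obtain ⟨θ, hθ, hθd, hθT⟩ := angle (c := c) hr hrI hf.smooth_h hhne (T := T / 2)
    (fun t => by rw [hrT, hpq2, hsym])
  have hcont : Continuous fun t => c / h (r t) ^ 2 :=
    continuous_const.div ((hf.smooth_h.continuous.comp hr.continuous).pow 2)
      fun t => pow_ne_zero 2 (hhne _ ⟨(hrI t).1, (hrI t).2⟩)
  have hA1 : ∫ t in (0 : ℝ)..T, c / h (r t) ^ 2 = 2 * π := by
    rw [hrint (fun x => c / h x ^ 2)
      (continuousOn_const.div (hf.smooth_h.continuous.continuousOn.pow 2) fun x hx =>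
        pow_ne_zero 2 (hhne x hx)), ← hΦ]
    simp only [div_div]
  have hA2 : ∫ t in (0 : ℝ)..(T / 2), c / h (r t) ^ 2 = π := by
    have h1 : ∫ t in (T / 2)..T, c / h (r t) ^ 2 = ∫ t in (0 : ℝ)..(T / 2), c / h (r t) ^ 2 := by
      have h2 := intervalIntegral.integral_comp_add_right (a := (0 : ℝ)) (b := T / 2)
        (fun t => c / h (r t) ^ 2) (T / 2)
      rw [zero_add, add_halves] at h2
      rw [← h2]
      refine intervalIntegral.integral_congr fun t _ => ?_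
      rw [hrT, hpq2, hsym]
    rw [← intervalIntegral.integral_add_adjacent_intervals (b := T / 2) (hcont.intervalIntegrable _ _)
      (hcont.intervalIntegrable _ _), h1] at hA1
    linarith
  have hThalf : T / 2 = ∫ x in Ioo p q, 1 / √(1 - (c / h x) ^ 2) := by
    rw [hTeq]
    ring
  rw [← hThalf]
  obtain ⟨γ, hγ, hper⟩ := geod_b hn (L := L) (f := f) (h := h) (r := r) (B := θ) (K := c) (T := T / 2)
    hf.pos.ne' hr hθ
    (fun t => by
      rw [hθd, hr2, (hasDerivAt_V1 hf.smooth_h c (hhne (r t) ⟨(hrI t).1, (hrI t).2⟩)).deriv]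
      ring)
    (fun t => by
      rw [hθd]
      have := hhne (r t) ⟨(hrI t).1, (hrI t).2⟩
      field_simp)
    (fun t => by
      rw [hθd, hr1]
      have := hhne (r t) ⟨(hrI t).1, (hrI t).2⟩
      field_simp
      ring)
    (fun t => by rw [hrT, hpq2]) (fun t => by rw [hθT, hA2])
  exact ⟨γ, hγ, by linarith, hper⟩

end Pool.Agent.Helper60.CP.Asm
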