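import Pool.Agent.Helper60.CP.Asm

/-!
# Assembly, second part
-/

set_option autoImplicit false

open Real Set MeasureTheory
open scoped ContDiff LinearAlgebra.Projectivization Topology

namespace Pool.Agent.Helper60.CP.Asm

open Pool.Agent.H206R2.Rot2 (Veff well actW)

lemma Veff_hasDerivAt {f h : ℝ → ℝ} (hf : ContDiff ℝ ∞ f) (hh : ContDiff ℝ ∞ h) (c₁ c₂ : ℝ) {x : ℝ}
    (hfx : f x ≠ 0) (hhx : h x ≠ 0) :
    HasDerivAt (Veff f h c₁ c₂)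
      (-2 * (f x * deriv f x * (c₁ / f x ^ 2) ^ 2 + h x * deriv h x * (c₂ / h x ^ 2) ^ 2)) x := by
  refine ((hasDerivAt_V1 hf c₁ hfx).add (hasDerivAt_V1 hh c₂ hhx)).congr_deriv ?_
  ring

lemma Veff_contDiffOn {L : ℝ} {f h : ℝ → ℝ} (hf : IsProfileC L f h) (c₁ c₂ : ℝ) :
    ContDiffOn ℝ ∞ (Veff f h c₁ c₂) (Ioo 0 L) :=
  (contDiffOn_V1 hf.smooth_f c₁ fun x hx => hf.f_pos x hx.1 hx.2).add
    (contDiffOn_V1 hf.smooth_h c₂ fun x hx => hf.h_pos x hx.1 hx.2.le)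

lemma KK_pos {c : ℝ × ℝ} (h1 : 0 < c.1) : 0 < KK c := Real.sqrt_pos.2 (by positivity)

lemma KK_sq (c : ℝ × ℝ) : KK c ^ 2 = c.1 ^ 2 + c.2 ^ 2 := Real.sq_sqrt (by positivity)

/-- the length of one oscillation -/
lemma T_id {f h : ℝ → ℝ} (hfc : Continuous f) (hhc : Continuous h) {c₁ c₂ p q : ℝ}
    (hfne : ∀ x ∈ Icc p q, f x ≠ 0) (hhne : ∀ x ∈ Icc p q, h x ≠ 0)
    (hin : ∀ x ∈ Ioo p q, Veff f h c₁ c₂ x < 1)
    (hint : IntegrableOn (fun r => 1 / √(1 - Veff f h c₁ c₂ r)) (Ioo p q)) :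
    2 * ∫ x in Ioo p q, 1 / √(1 - Veff f h c₁ c₂ x) =
      2 * (∫ x in Ioo p q, √(1 - Veff f h c₁ c₂ x)) +
      c₁ * (2 * ∫ x in Ioo p q, c₁ / (f x ^ 2 * √(1 - Veff f h c₁ c₂ x))) +
      c₂ * (2 * ∫ x in Ioo p q, c₂ / (h x ^ 2 * √(1 - Veff f h c₁ c₂ x))) := by
  have e : ∀ x ∈ Ioo p q, 1 / √(1 - Veff f h c₁ c₂ x) = √(1 - Veff f h c₁ c₂ x)
      + (c₁ * (c₁ / (f x ^ 2 * √(1 - Veff f h c₁ c₂ x)))
      + c₂ * (c₂ / (h x ^ 2 * √(1 - Veff f h c₁ c₂ x)))) := by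
    intro x hx
    have hx1 : 0 < 1 - Veff f h c₁ c₂ x := by linarith [hin x hx]
    have hsq := Real.sq_sqrt hx1.le
    have hsp := Real.sqrt_pos.2 hx1
    have hfx := hfne x ⟨hx.1.le, hx.2.le⟩
    have hhx := hhne x ⟨hx.1.le, hx.2.le⟩
    have hVx : Veff f h c₁ c₂ x = (c₁ / f x) ^ 2 + (c₂ / h x) ^ 2 := rfl
    set y := √(1 - Veff f h c₁ c₂ x) with hy
    have h3 : y ^ 2 = 1 - ((c₁ / f x) ^ 2 + (c₂ / h x) ^ 2) := by rw [hsq, hVx]
    have h4 : 1 = y ^ 2 + (c₁ ^ 2 / f x ^ 2 + c₂ ^ 2 / h x ^ 2) := by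
      rw [h3, div_pow, div_pow]; ring
    have h5 : 1 / y = (y ^ 2 + (c₁ ^ 2 / f x ^ 2 + c₂ ^ 2 / h x ^ 2)) / y := by rw [← h4]
    rw [h5]
    field_simp
  have hbd : ∀ {g : ℝ → ℝ} (d : ℝ), Continuous g → (∀ x ∈ Icc p q, g x ≠ 0) →
      IntegrableOn (fun x => d / (g x ^ 2 * √(1 - Veff f h c₁ c₂ x))) (Ioo p q) := by
    intro g d hg hg0
    have hcont : ContinuousOn (fun x => d / g x ^ 2) (Icc p q) :=
      continuousOn_const.div (hg.continuousOn.pow 2) fun x hx => pow_ne_zero 2 (hg0 x hx)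
    obtain ⟨M, hM⟩ := isCompact_Icc.exists_bound_of_continuousOn hcont
    have h1 : IntegrableOn (fun x => (d / g x ^ 2) * (1 / √(1 - Veff f h c₁ c₂ x)))
        (Ioo p q) := by
      refine Integrable.bdd_mul (c := M) hint
        ((hcont.mono Ioo_subset_Icc_self).aestronglyMeasurable measurableSet_Ioo) ?_
      exact (ae_restrict_iff' measurableSet_Ioo).2 (Filter.Eventually.of_forall fun x hx =>
        hM x (Ioo_subset_Icc_self hx))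
    refine h1.congr_fun (fun x _ => ?_) measurableSet_Ioo
    simp only [mul_one_div, div_div]
  have i1 := hbd c₁ hfc hfne
  have i2 := hbd c₂ hhc hhne
  have i0 : IntegrableOn (fun x => √(1 - Veff f h c₁ c₂ x)) (Ioo p q) := by
    have h1 := (hint.sub ((i1.const_mul c₁).add (i2.const_mul c₂)))
    refine h1.congr_fun (fun x hx => ?_) measurableSet_Ioo
    simp only [Pi.sub_apply, Pi.add_apply]
    linarith [e x hx]
  have j12 : IntegrableOn (fun x => c₁ * (c₁ / (f x ^ 2 * √(1 - Veff f h c₁ c₂ x)))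
      + c₂ * (c₂ / (h x ^ 2 * √(1 - Veff f h c₁ c₂ x)))) (Ioo p q) :=
    (i1.const_mul c₁).add (i2.const_mul c₂)
  rw [setIntegral_congr_fun measurableSet_Ioo e, integral_add i0 j12,
    integral_add (i1.const_mul c₁) (i2.const_mul c₂), integral_const_mul, integral_const_mul]
  ring

/-- closed geodesics over the interior minima -/
theorem orbit_main {L : ℝ} {f h : ℝ → ℝ} (hf : IsProfileC L f h) {n : ℕ} (hn : 2 ≤ n) {c : ℝ × ℝ}
    (hc1 : 0 < c.1) (hc2 : 0 < c.2) {p q : ℝ} (hp : 0 < p) (hpq : p < q) (hq : q < L)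
    (hVp : Veff f h c.1 c.2 p = 1) (hVq : Veff f h c.1 c.2 q = 1)
    (hin : ∀ x ∈ Ioo p q, Veff f h c.1 c.2 x < 1)
    (hp' : deriv (Veff f h c.1 c.2) p < 0) (hq' : 0 < deriv (Veff f h c.1 c.2) q)
    (hΦ1 : 2 * (∫ r in Ioo p q, c.1 / (f r ^ 2 * √(1 - Veff f h c.1 c.2 r))) = π * (1 + c.1 / KK c))
    (hΦ2 : 2 * (∫ r in Ioo p q, c.2 / (h r ^ 2 * √(1 - Veff f h c.1 c.2 r))) = π * (c.2 / KK c)) :
    ∃ γ : ℝ → ℙ ℂ (ℂ × Cn n), IsGeodesicC L f h 1 γ ∧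
      (0 < 2 * ∫ x in Ioo p q, 1 / √(1 - Veff f h c.1 c.2 x)) ∧
      ∀ t, γ (t + 2 * ∫ x in Ioo p q, 1 / √(1 - Veff f h c.1 c.2 x)) = γ t := by
  obtain ⟨K, hK⟩ : ∃ K, KK c = K := ⟨_, rfl⟩
  have hK0 : 0 < K := hK ▸ KK_pos hc1
  have hK2 : K ^ 2 = c.1 ^ 2 + c.2 ^ 2 := hK ▸ KK_sq c
  rw [hK] at hΦ1 hΦ2
  have hC0 : 0 < c.1 / K := div_pos hc1 hK0
  have hC1 : c.1 / K ≤ 1 := by
    rw [div_le_one hK0]
    nlinarith
  obtain ⟨r, T, hT, hTeq, hr, hrI, hr2, hr1, hrT, hrint⟩ :=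
    Pool.Agent.H206R2.Rot2.TH.oscillator hp hpq hq (Veff_contDiffOn hf c.1 c.2) hVp hVq hp' hq' hin
  have hfne : ∀ x ∈ Icc p q, f x ≠ 0 := fun x hx =>
    (hf.f_pos x (hp.trans_le hx.1) (hx.2.trans_lt hq)).ne'
  have hhne : ∀ x ∈ Icc p q, h x ≠ 0 := fun x hx =>
    (hf.h_pos x (hp.trans_le hx.1) (hx.2.trans hq.le)).ne'
  obtain ⟨θ₁, hθ₁, hθ₁d, hθ₁T⟩ := angle (c := c.1) hr hrI hf.smooth_f hfne (T := T) (fun t => by rw [hrT])
  obtain ⟨θ₂, hθ₂, hθ₂d, hθ₂T⟩ := angle (c := 1) hr hrI hf.smooth_h hhne (T := T) (fun t => by rw [hrT])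
  have hA1 : ∫ t in (0 : ℝ)..T, c.1 / f (r t) ^ 2 = π * (1 + c.1 / K) := by
    rw [hrint (fun x => c.1 / f x ^ 2)
      (continuousOn_const.div (hf.smooth_f.continuous.continuousOn.pow 2) fun x hx =>
        pow_ne_zero 2 (hfne x hx)), ← hΦ1]
    simp only [div_div]
  have hA2 : ∫ t in (0 : ℝ)..T, 1 / h (r t) ^ 2 = π / K := by
    rw [hrint (fun x => 1 / h x ^ 2)
      (continuousOn_const.div (hf.smooth_h.continuous.continuousOn.pow 2) fun x hx =>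
        pow_ne_zero 2 (hhne x hx))]
    have e : (∫ r in Ioo p q, c.2 / (h r ^ 2 * √(1 - Veff f h c.1 c.2 r))) =
        c.2 * ∫ r in Ioo p q, 1 / h r ^ 2 / √(1 - Veff f h c.1 c.2 r) := by
      rw [← integral_const_mul]
      congr 1
      funext x
      rw [div_div, mul_one_div]
    rw [e] at hΦ2
    have h3 : c.2 * (2 * ∫ r in Ioo p q, 1 / h r ^ 2 / √(1 - Veff f h c.1 c.2 r)) = c.2 * (π / K) := by
      rw [← mul_assoc, mul_comm c.2 2, mul_assoc, hΦ2]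
      ring
    exact mul_left_cancel₀ hc2.ne' h3
  have hdB : ∀ (k t : ℝ), deriv (fun t => k * θ₂ t) t = k * (1 / h (r t) ^ 2) := fun k t => by
    rw [deriv_const_mul _ (hθ₂.differentiable (by norm_num)).differentiableAt, hθ₂d]
  have hdA : ∀ t, deriv (fun t => θ₁ t - c.1 * θ₂ t) t = c.1 / f (r t) ^ 2 - c.1 * (1 / h (r t) ^ 2) := by
    intro t
    have h1 := (hθ₁.differentiable (by norm_num)).differentiableAt (x := t)
    have h2 := (hθ₂.differentiable (by norm_num)).differentiableAt (x := t)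
    rw [deriv_fun_sub h1 (h2.const_mul c.1), hdB, hθ₁d]
  rw [← hTeq]
  have hs : ∀ t, c.1 / f (r t) ^ 2 - c.1 * (1 / h (r t) ^ 2) + c.1 / K * (K * (1 / h (r t) ^ 2)) =
      c.1 / f (r t) ^ 2 := fun t => by
    field_simp
    ring
  have hs2 : ∀ t, (1 - (c.1 / K) ^ 2) * (K * (1 / h (r t) ^ 2)) ^ 2 = (c.2 / h (r t) ^ 2) ^ 2 := by
    intro t
    have hh0 := hhne (r t) ⟨(hrI t).1, (hrI t).2⟩
    have e1 : (1 - (c.1 / K) ^ 2) * K ^ 2 = c.2 ^ 2 := by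
      rw [div_pow, sub_mul, div_mul_cancel₀ _ (by positivity), hK2]
      ring
    calc (1 - (c.1 / K) ^ 2) * (K * (1 / h (r t) ^ 2)) ^ 2 =
        ((1 - (c.1 / K) ^ 2) * K ^ 2) * (1 / h (r t) ^ 2) ^ 2 := by ring
      _ = (c.2 / h (r t) ^ 2) ^ 2 := by rw [e1]; ring
  obtain ⟨γ, hγ, hper⟩ := geod_a hn (L := L) (f := f) (h := h) (r := r)
    (A := fun t => θ₁ t - c.1 * θ₂ t)
    (B := fun t => K * θ₂ t) (K := K) (C := c.1 / K) (T := T) (by linarith) hC1 hr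
    (hθ₁.sub (contDiff_const.mul hθ₂)) (contDiff_const.mul hθ₂)
    (fun t => by
      rw [hdA, hdB, hs, hs2, hr2, (Veff_hasDerivAt hf.smooth_f hf.smooth_h c.1 c.2
        (hfne (r t) ⟨(hrI t).1, (hrI t).2⟩) (hhne (r t) ⟨(hrI t).1, (hrI t).2⟩)).deriv]
      ring)
    (fun t => by
      rw [hdB]
      have := hhne (r t) ⟨(hrI t).1, (hrI t).2⟩
      field_simp)
    (fun t => by
      rw [hdA, hdB, hs]
      have := hfne (r t) ⟨(hrI t).1, (hrI t).2⟩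
      field_simp)
    (fun t => by
      rw [hdA, hdB, hs, hs2, hr1]
      have h1 := hfne (r t) ⟨(hrI t).1, (hrI t).2⟩
      have h2 := hhne (r t) ⟨(hrI t).1, (hrI t).2⟩
      unfold Veff
      field_simp
      ring)
    hrT (fun t => by
      rw [hθ₁T, hθ₂T, hA1, hA2]
      field_simp
      ring) (Or.inr fun t => by
      rw [hθ₁T, hθ₂T, hA1, hA2]
      field_simp
      ring)
  exact ⟨γ, hγ, hT, hper⟩

end Pool.Agent.Helper60.CP.Asm
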