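import Pool.Agent.Helper60.CP.Asm2

/-!
# Assembly, third part: the theorem from the parts
-/

set_option autoImplicit false

open Real Set MeasureTheory
open scoped ContDiff LinearAlgebra.Projectivization Topology

namespace Pool.Agent.Helper60.CP.Asm

open Pool.Agent.H206R2.Rot2 (Veff well actW)

/-- the sharp bound, as the negation of all closed geodesics being long -/
def Long (n : ℕ) (L : ℝ) (f h : ℝ → ℝ) (R : ℝ) : Prop :=
  ∀ (γ : ℝ → ℙ ℂ (ℂ × Cn n)) (T : ℝ), 0 < T → IsGeodesicC L f h 1 γ → (∀ t, γ (t + T) = γ t) →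
    π * R < T

lemma half_int {L x t : ℝ} {h : ℝ → ℝ} (hh : Continuous h) (hsym : ∀ r, h (2 * L - r) = h r)
    (hx : x < L) :
    ∫ r in Ioo x (2 * L - x), √(1 - (t / h r) ^ 2) = 2 * ∫ r in Ioo x L, √(1 - (t / h r) ^ 2) := by
  have hmeas : Measurable fun r => √(1 - (t / h r) ^ 2) := by
    have := hh.measurable
    fun_prop
  have hb : ∀ r, |√(1 - (t / h r) ^ 2)| ≤ 1 := by
    intro r
    rw [abs_of_nonneg (Real.sqrt_nonneg _)]
    exact Real.sqrt_le_one.2 (by nlinarith [sq_nonneg (t / h r)])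
  have hint : ∀ x y : ℝ, IntervalIntegrable (fun r => √(1 - (t / h r) ^ 2)) volume x y := by
    intro x y
    rw [intervalIntegrable_iff]
    exact Measure.integrableOn_of_bounded (by simp) hmeas.aestronglyMeasurable
      (Filter.Eventually.of_forall fun r => by simpa using hb r)
  rw [← integral_Ioc_eq_integral_Ioo, ← integral_Ioc_eq_integral_Ioo,
    ← intervalIntegral.integral_of_le (by linarith), ← intervalIntegral.integral_of_le hx.le,
    ← intervalIntegral.integral_add_adjacent_intervals (hint x L) (hint L (2 * L - x))]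
  have h3 : ∫ r in L..(2 * L - x), √(1 - (t / h r) ^ 2) = ∫ r in x..L, √(1 - (t / h r) ^ 2) := by
    have := intervalIntegral.integral_comp_sub_left (a := x) (b := L)
      (fun r => √(1 - (t / h r) ^ 2)) (2 * L)
    simp only [hsym] at this
    rw [this]
    congr 1
    ring
  rw [h3]
  ring

theorem edge_f (hE : S_E) {L R S a : ℝ} {f h : ℝ → ℝ} (hf : IsProfileC L f h) {n : ℕ} (hn : 2 ≤ n)
    (hR : 0 < R) (hRS : R < S) (ha : 0 < a) (haL : a < L) (hfa : f a = S / 2)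
    (hL2 : π * R ≤ 2 * L) (hno : Long n L f h R) :
    ∀ t ∈ Ioo 0 (R / 2), ∃ x y, 0 ≤ x ∧ x < a ∧ a < y ∧ y ≤ L ∧ f x ≤ t ∧ f y ≤ t ∧
    (∀ r ∈ Ioo x y, t < f r) ∧ π * (R - 2 * t) ≤ 2 * ∫ r in Ioo x y, √(1 - (t / f r) ^ 2) := by
  intro t ht
  have hfpos : ∀ x ∈ Ioo 0 L, 0 < f x := fun x hx => hf.f_pos x hx.1 hx.2
  have h1 := hE L a (R / 2) f hf.pos hf.smooth_f hfpos (f_0 hf) (f_L hf) ⟨ha, haL⟩ (by linarith)
    (by rw [hfa]; linarith) (by linarith) (fun c p q hc _ hp hpa haq hq hfp hfq hin hp' hq' _ hΦ => by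
      obtain ⟨γ, hγ, hT, hper⟩ := orbit_f hf hn hc hp (hpa.trans haq) hq hfp hfq hin hp' hq' hΦ
      have := hno γ _ hT hγ hper
      linarith) t ht.1 ht.2
  obtain ⟨x, y, g1, g2, g3, g4, g5, g6, g7, g8⟩ := well1 hf.smooth_f.continuous hfpos (f_0 hf) (f_L hf)
    (s₀ := a) ⟨ha, haL⟩ ht.1 (by rw [hfa]; linarith [ht.2])
  refine ⟨x, y, g1.le, g2, g3, g4.le, g5.le, g6.le, g7, ?_⟩
  rw [actW, g8] at h1
  linarith

theorem edge_h (hE : S_E) (hO : S_O) {L R : ℝ} {f h : ℝ → ℝ} (hf : IsProfileC L f h) {n : ℕ}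
    (hn : 2 ≤ n) (hR : 0 < R) (hRh : R < h L) (hL2 : π * R ≤ 2 * L) (hno : Long n L f h R) :
    ∀ t ∈ Ioo 0 R, ∃ y, 0 ≤ y ∧ y < L ∧ h y ≤ t ∧ (∀ r ∈ Ioc y L, t < h r) ∧
    π * (R - t) ≤ 2 * ∫ r in Ioo y L, √(1 - (t / h r) ^ 2) := by
  intro t ht
  have hLpos := hf.pos
  have hsym : ∀ x, h (2 * L - x) = h x := by
    intro x
    have := hf.h_even_L (L - x)
    rw [show L + (L - x) = 2 * L - x by ring, show L - (L - x) = x by ring] at this
    exact this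
  have hpos : ∀ x ∈ Ioo 0 (2 * L), 0 < h x := by
    intro x hx
    rcases le_total x L with h1 | h1
    · exact hf.h_pos x hx.1 h1
    · rw [← hsym]
      exact hf.h_pos _ (by linarith [hx.2]) (by linarith)
  have hh2L : h (2 * L) = 0 := by
    have := hsym 0
    rw [sub_zero] at this
    rw [this, h_0 hf]
  have h1 := hE (2 * L) L R h (by linarith) hf.smooth_h hpos (h_0 hf) hh2L ⟨hLpos, by linarith⟩ hR
    hRh (by linarith) (fun c p q hc _ hp hpL hLq hq hhp hhq hin hp' hq' _ hΦ => by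
      obtain ⟨γ, hγ, hT, hper⟩ := orbit_h hO hf hn hc hp hpL hLq hq hhp hhq hin hp' hq' hΦ
      have := hno γ _ hT hγ hper
      linarith) t ht.1 ht.2
  obtain ⟨x, y, g1, g2, g3, g4, g5, g6, g7, g8⟩ := well1 hf.smooth_h.continuous hpos (h_0 hf) hh2L
    (s₀ := L) ⟨hLpos, by linarith⟩ ht.1 (ht.2.trans hRh)
  have hxy : y = 2 * L - x := by
    rcases lt_trichotomy (2 * L - y) x with k1 | k1 | k1
    · exfalso
      have h2 := g7 (2 * L - x) ⟨by linarith, by linarith⟩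
      rw [hsym, g5] at h2
      exact lt_irrefl _ h2
    · linarith
    · exfalso
      have h2 := g7 (2 * L - y) ⟨k1, by linarith⟩
      rw [hsym, g6] at h2
      exact lt_irrefl _ h2
  refine ⟨x, g1.le, g2, g5.le, fun r hr => g7 r ⟨hr.1, lt_of_le_of_lt hr.2 g3⟩, ?_⟩
  rw [actW, g8, hxy, half_int hf.smooth_h.continuous hsym g2] at h1
  linarith

lemma actW_le {L : ℝ} {f h : ℝ → ℝ} (hf : Continuous f) (hh : Continuous h) (c₁ c₂ s : ℝ) :
    actW L (Veff f h c₁ c₂) s ≤ 2 * ∫ r in Ioo 0 L, √(1 - Veff f h c₁ c₂ r) := by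
  rw [actW]
  refine mul_le_mul_of_nonneg_left ?_ (by norm_num)
  have hmeas : Measurable fun r => √(1 - Veff f h c₁ c₂ r) := by
    have h1 := hf.measurable
    have h2 := hh.measurable
    unfold Veff
    fun_prop
  have hb : ∀ r, |√(1 - Veff f h c₁ c₂ r)| ≤ 1 := by
    intro r
    rw [abs_of_nonneg (Real.sqrt_nonneg _)]
    exact Real.sqrt_le_one.2 (by unfold Veff; nlinarith [sq_nonneg (c₁ / f r), sq_nonneg (c₂ / h r)])
  refine setIntegral_mono_set ?_ (Filter.Eventually.of_forall fun r => Real.sqrt_nonneg _)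
    (Filter.Eventually.of_forall (Pool.Agent.H206R2.Rot2.Main.well_subset _ s))
  exact Measure.integrableOn_of_bounded (by simp) hmeas.aestronglyMeasurable
      (Filter.Eventually.of_forall fun r => by simpa using hb r)

/-- The theorem, from the parts. -/
theorem short_geodesicC (hV : S_V) (hE : S_E) (hO : S_O) (hM : S_M) (hCr : S_C) (hS : S_S) (hT : S_T)
    {L : ℝ} {f h : ℝ → ℝ} (hf : IsProfileC L f h) {n : ℕ} (hn : 2 ≤ n) :
    ∃ (γ : ℝ → ℙ ℂ (ℂ × Cn n)) (T : ℝ), 0 < T ∧ IsGeodesicC L f h 1 γ ∧ (∀ t, γ (t + T) = γ t) ∧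
      T ^ (2 * n) ≤ 2 * n * π ^ (2 * n) * ∫ r in (0 : ℝ)..L, f r * h r ^ (2 * n - 2) := by
  have hfc : Continuous f := hf.smooth_f.continuous
  have hhc : Continuous h := hf.smooth_h.continuous
  have hLpos := hf.pos
  have hpi := Real.pi_pos
  have hn0 : (0 : ℝ) < n := by
    have : (2 : ℝ) ≤ n := by exact_mod_cast hn
    linarith
  set V : ℝ := ∫ r in (0 : ℝ)..L, f r * h r ^ (2 * n - 2) with hVdef
  have hVpos : 0 < V := by
    refine intervalIntegral.intervalIntegral_pos_of_pos_on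
      ((hfc.mul (hhc.pow _)).intervalIntegrable _ _) (fun x hx => ?_) hLpos
    exact mul_pos (hf.f_pos x hx.1 hx.2) (pow_pos (hf.h_pos x hx.1 hx.2.le) _)
  have hVp2 : 0 < 2 * n * V := by positivity
  obtain ⟨R, hR, hRn⟩ : ∃ R : ℝ, 0 < R ∧ R ^ (2 * n) = 2 * n * V := by
    refine ⟨(2 * n * V) ^ (((2 * n : ℕ) : ℝ)⁻¹), Real.rpow_pos_of_pos hVp2 _, ?_⟩
    rw [Real.rpow_inv_natCast_pow hVp2.le (by omega)]
  suffices hmain : ∃ (γ : ℝ → ℙ ℂ (ℂ × Cn n)) (T : ℝ),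
      0 < T ∧ IsGeodesicC L f h 1 γ ∧ (∀ t, γ (t + T) = γ t) ∧ T ≤ π * R by
    obtain ⟨γ, T, hT, hγ, hper, hle⟩ := hmain
    refine ⟨γ, T, hT, hγ, hper, ?_⟩
    calc T ^ (2 * n) ≤ (π * R) ^ (2 * n) := pow_le_pow_left₀ hT.le hle _
      _ = π ^ (2 * n) * R ^ (2 * n) := by rw [mul_pow]
      _ = 2 * n * π ^ (2 * n) * V := by rw [hRn]; ring
  by_contra hcon
  have hno : Long n L f h R := by
    intro γ T hT hγ hper
    by_contra hle
    exact hcon ⟨γ, T, hT, hγ, hper, not_lt.1 hle⟩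
  -- explicit closed geodesics
  have hL2 : π * R < 2 * L := by
    obtain ⟨γ, hγ, hper⟩ := meridian (n := n) (f := f) (h := h) hn hLpos.ne'
    exact hno γ _ (by linarith) hγ hper
  have hRh : R < h L := by
    obtain ⟨γ, hγ, hper⟩ := bolt hn hf
    have := hf.h_pos L hLpos le_rfl
    exact lt_of_mul_lt_mul_left (hno γ _ (by positivity) hγ hper) hpi.le
  have hcf : ∀ r ∈ Ioo 0 L, deriv f r = 0 → R / 2 < f r := by
    intro r hr h2
    obtain ⟨γ, hγ, hper⟩ := circle_f hn hf hr.1 hr.2 h2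
    have hfr := hf.f_pos r hr.1 hr.2
    have h3 := hno γ _ (by positivity) hγ hper
    have h4 : π * R < π * (2 * f r) := by linarith
    have h5 := lt_of_mul_lt_mul_left h4 hpi.le
    linarith
  have hcw : ∀ r ∈ Ioo 0 L, (h r ^ 2 - 2 * f r ^ 2) * deriv h r + f r * deriv f r * h r = 0 →
      2 * f r ^ 2 ≤ h r ^ 2 → R ^ 2 * (h r ^ 2 - f r ^ 2) < h r ^ 4 := by
    intro r hr h1 h2
    obtain ⟨γ, hγ, hper⟩ := wtype hn hf hr.1 hr.2 h1 h2
    have hfr := hf.f_pos r hr.1 hr.2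
    have hhr := hf.h_pos r hr.1 hr.2.le
    have hD : 0 < h r ^ 2 - f r ^ 2 := by nlinarith
    have hs := Real.sqrt_pos.2 hD
    have hs2 := Real.sq_sqrt hD.le
    have h3 := lt_of_mul_lt_mul_left (hno γ _ (by positivity) hγ hper) hpi.le
    rw [lt_div_iff₀ hs] at h3
    have h4 : (R * √(h r ^ 2 - f r ^ 2)) ^ 2 < (h r ^ 2) ^ 2 :=
      pow_lt_pow_left₀ h3 (by positivity) two_ne_zero
    rw [mul_pow, hs2] at h4
    calc R ^ 2 * (h r ^ 2 - f r ^ 2) < (h r ^ 2) ^ 2 := h4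
      _ = h r ^ 4 := by ring
  obtain ⟨S, a, hRS, ha, haL, hfa, hdec, hSh, hwS⟩ := hT L R f h hf hR hcf hRh hcw
  obtain ⟨s, b, ρ, η, hab, hbL, hη, hρ, hhb, hs, hsI, hsρ, hsf, hsb⟩ :=
    hS L R S a f h hf hR hRS ha haL hfa hdec hSh hwS
  have hs1 : ∀ c ∈ Reg R, Veff f h c.1 c.2 (s c) < 1 := fun c hc => (hsρ c hc).trans_lt hρ
  by_cases hneg : ∃ c ∈ Reg R, Dc L R f h s c < 0
  swap
  · push Not at hneg
    have hRr : ∃ r ∈ Ioo 0 L, R < h r := ⟨b, ⟨ha.trans hab, hbL⟩, hRS.trans_le (hhb b ⟨le_rfl, hbL.le⟩)⟩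
    have h1 := hV L R f h n hn hLpos hR hfc hhc (fun r hr => hf.f_pos r hr.1 hr.2)
      (fun r hr => hf.h_pos r hr.1 hr.2.le) hRr (fun c hc => by
        have h2 := hneg c hc
        have h3 := actW_le (L := L) hfc hhc c.1 c.2 (s c)
        unfold Dc at h2
        linarith)
    rw [hRn] at h1
    exact lt_irrefl _ h1
  obtain ⟨c, hc, hDneg, hmin⟩ := hM L R S a b ρ η f h s hf hR hRS ha hab hbL hη hρ hfa hdec hhb hs hsI
    hsρ hsf hsb hL2.le (edge_f hE hf hn hR hRS ha haL hfa hL2.le hno)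
    (edge_h hE hO hf hn hR hRh hL2.le hno) hneg
  obtain ⟨p, q, hp, hps, hsq, hq, hVp, hVq, hw, hin, hp', hq', hint, hΦ1, hΦ2⟩ :=
    hCr L R f h s c hf hR hs (fun c h1 h2 => ⟨ha.trans_le (hsI c h1 h2).1, (hsI c h1 h2).2.trans_lt hbL⟩)
      hs1 hc hmin
  have hc1 : 0 < c.1 := hc.1
  have hc2 : 0 < c.2 := hc.2.1
  have hpq : p < q := hps.trans hsq
  have hfne : ∀ x ∈ Icc p q, f x ≠ 0 := fun x hx =>
    (hf.f_pos x (hp.trans_le hx.1) (hx.2.trans_lt hq)).ne'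
  have hhne : ∀ x ∈ Icc p q, h x ≠ 0 := fun x hx =>
    (hf.h_pos x (hp.trans_le hx.1) (hx.2.trans hq.le)).ne'
  obtain ⟨γ, hγ, hTpos, hper⟩ := orbit_main hf hn hc1 hc2 hp hpq hq hVp hVq hin hp' hq' hΦ1 hΦ2
  have h1 := hno γ _ hTpos hγ hper
  rw [T_id hfc hhc hfne hhne hin hint, hΦ1, hΦ2] at h1
  unfold Dc at hDneg
  rw [actW, hw] at hDneg
  have hK0 := KK_pos (c := c) hc1
  have hK2 := KK_sq c
  have h3 : c.1 * (π * (1 + c.1 / KK c)) + c.2 * (π * (c.2 / KK c)) = π * (c.1 + KK c) := by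
    field_simp
    linear_combination -hK2
  nlinarith

end Pool.Agent.Helper60.CP.Asm
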