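import Pool.Agent.Helper60.CP.Stm2

/-!
# The profiles of the standard metrics
-/

set_option autoImplicit false

open Real Set MeasureTheory
open scoped ContDiff

namespace Pool.Agent.Helper60.CP

lemma deriv_sc (x : ℝ) :
    deriv (fun r : ℝ => Real.sin r * Real.cos r) x = Real.cos x ^ 2 - Real.sin x ^ 2 := by
  have h := (Real.hasDerivAt_sin x).mul (Real.hasDerivAt_cos x)
  have h2 : HasDerivAt (fun r : ℝ => Real.sin r * Real.cos r)
      (Real.cos x * Real.cos x + Real.sin x * -Real.sin x) x := h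
  rw [h2.deriv]
  ring

theorem profile_FS : IsProfileC (π / 2) (fun r => Real.sin r * Real.cos r) Real.sin where
  pos := by positivity
  smooth_f := Real.contDiff_sin.mul Real.contDiff_cos
  smooth_h := Real.contDiff_sin
  f_odd r := by simp
  f_odd_L r := by
    simp only [Real.sin_add, Real.cos_add, Real.sin_sub, Real.cos_sub, Real.sin_pi_div_two,
      Real.cos_pi_div_two]
    ring
  h_odd r := by simp
  h_even_L r := by
    simp only [Real.sin_add, Real.sin_sub, Real.sin_pi_div_two, Real.cos_pi_div_two]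
    ring
  f_pos r h0 h1 := mul_pos (Real.sin_pos_of_pos_of_lt_pi h0 (by linarith [Real.pi_pos]))
    (Real.cos_pos_of_mem_Ioo ⟨by linarith [Real.pi_pos], h1⟩)
  h_pos r h0 h1 := Real.sin_pos_of_pos_of_lt_pi h0 (by linarith [Real.pi_pos])
  f_deriv := by rw [deriv_sc]; simp
  h_deriv := by simp
  f_deriv_L := by rw [deriv_sc]; simp

theorem profile_round : IsProfileS π Real.sin Real.sin where
  pos := Real.pi_pos
  smooth_f := Real.contDiff_sin
  smooth_h := Real.contDiff_sin
  f_odd r := by simp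
  f_odd_L r := by simp [Real.sin_add, Real.sin_sub]
  h_odd r := by simp
  h_odd_L r := by simp [Real.sin_add, Real.sin_sub]
  f_pos r h0 h1 := Real.sin_pos_of_pos_of_lt_pi h0 h1
  h_pos r h0 h1 := Real.sin_pos_of_pos_of_lt_pi h0 h1
  f_deriv := by simp
  h_deriv := by simp
  f_deriv_L := by simp
  h_deriv_L := by simp

theorem vol_FS (n : ℕ) (hn : 1 ≤ n) :
    2 * n * π ^ (2 * n) * ∫ r in (0 : ℝ)..(π / 2), (Real.sin r * Real.cos r) * Real.sin r ^ (2 * n - 2)
      = π ^ (2 * n) := by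
  obtain ⟨m, rfl⟩ : ∃ m, n = m + 1 := ⟨n - 1, by omega⟩
  have h1 : ∀ r ∈ uIcc (0 : ℝ) (π / 2), HasDerivAt (fun r => Real.sin r ^ (2 * (m + 1)) / (2 * (m + 1)))
      ((Real.sin r * Real.cos r) * Real.sin r ^ (2 * (m + 1) - 2)) r := by
    intro r _
    have h2 := ((Real.hasDerivAt_sin r).pow (2 * (m + 1))).div_const (2 * ((m : ℝ) + 1))
    refine h2.congr_deriv ?_
    have h3 : (2 * ((m : ℝ) + 1)) ≠ 0 := by positivity
    rw [show 2 * (m + 1) - 1 = 2 * m + 1 by omega, show 2 * (m + 1) - 2 = 2 * m by omega]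
    push_cast
    field_simp
    ring
  rw [intervalIntegral.integral_eq_sub_of_hasDerivAt h1 (Continuous.intervalIntegrable (by fun_prop) _ _)]
  simp only [Real.sin_pi_div_two, Real.sin_zero, one_pow]
  rw [zero_pow (by omega)]
  push_cast
  have h3 : ((m : ℝ) + 1) ≠ 0 := by positivity
  field_simp
  ring

theorem vol_FSQ (n : ℕ) (hn : 1 ≤ n) :
    4 * n * (2 * n + 1) * π ^ (4 * n) *
      ∫ r in (0 : ℝ)..(π / 2), (Real.sin r * Real.cos r) ^ 3 * Real.sin r ^ (4 * n - 4)
      = π ^ (4 * n) := by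
  obtain ⟨m, rfl⟩ : ∃ m, n = m + 1 := ⟨n - 1, by omega⟩
  have h1 : ∀ r ∈ uIcc (0 : ℝ) (π / 2), HasDerivAt (fun r => Real.sin r ^ (4 * m + 4) / (4 * m + 4)
        - Real.sin r ^ (4 * m + 6) / (4 * m + 6))
      ((Real.sin r * Real.cos r) ^ 3 * Real.sin r ^ (4 * (m + 1) - 4)) r := by
    intro r _
    have h2 := (((Real.hasDerivAt_sin r).pow (4 * m + 4)).div_const (4 * (m : ℝ) + 4)).sub
      (((Real.hasDerivAt_sin r).pow (4 * m + 6)).div_const (4 * (m : ℝ) + 6))
    refine h2.congr_deriv ?_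
    have h3 : (4 * (m : ℝ) + 4) ≠ 0 := by positivity
    have h4 : (4 * (m : ℝ) + 6) ≠ 0 := by positivity
    rw [show 4 * m + 4 - 1 = 4 * m + 3 by omega, show 4 * m + 6 - 1 = 4 * m + 5 by omega,
      show 4 * (m + 1) - 4 = 4 * m by omega]
    push_cast
    have h5 : Real.cos r ^ 3 = Real.cos r * (1 - Real.sin r ^ 2) := by
      have := Real.sin_sq_add_cos_sq r
      rw [← this]
      ring
    rw [mul_pow, h5]
    field_simp
    ring
  rw [intervalIntegral.integral_eq_sub_of_hasDerivAt h1 (Continuous.intervalIntegrable (by fun_prop) _ _)]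
  simp only [Real.sin_pi_div_two, Real.sin_zero, one_pow]
  rw [zero_pow (by omega), zero_pow (by omega)]
  push_cast
  have h3 : (4 * (m : ℝ) + 4) ≠ 0 := by positivity
  have h4 : (4 * (m : ℝ) + 6) ≠ 0 := by positivity
  field_simp
  ring

theorem vol_FSO :
    2640 * π ^ 16 *
      ∫ r in (0 : ℝ)..(π / 2), (Real.sin r * Real.cos r) ^ 7 * Real.sin r ^ 8 = π ^ 16 := by
  have h1 : ∀ r ∈ uIcc (0 : ℝ) (π / 2), HasDerivAt (fun r => Real.sin r ^ 16 / 16
        - Real.sin r ^ 18 / 6 + 3 * Real.sin r ^ 20 / 20 - Real.sin r ^ 22 / 22)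
      ((Real.sin r * Real.cos r) ^ 7 * Real.sin r ^ 8) r := by
    intro r _
    have h2 := (((((Real.hasDerivAt_sin r).pow 16).div_const 16).sub
      (((Real.hasDerivAt_sin r).pow 18).div_const 6)).add
      ((((Real.hasDerivAt_sin r).pow 20).const_mul 3).div_const 20)).sub
      (((Real.hasDerivAt_sin r).pow 22).div_const 22)
    refine h2.congr_deriv ?_
    have h5 : Real.cos r ^ 7 = Real.cos r * (1 - Real.sin r ^ 2) ^ 3 := by
      have := Real.sin_sq_add_cos_sq r
      rw [← this]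
      ring
    rw [mul_pow, h5]
    norm_num
    ring
  rw [intervalIntegral.integral_eq_sub_of_hasDerivAt h1 (Continuous.intervalIntegrable (by fun_prop) _ _)]
  simp only [Real.sin_pi_div_two, Real.sin_zero, one_pow]
  norm_num
  ring

end Pool.Agent.Helper60.CP
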