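import Pool.Agent.Helper60.CP.Stm

/-!
# Geodesics of `U(n)`-invariant metrics on `ℂP^n`: definition and explicit geodesics
-/

set_option autoImplicit false

open Real Set MeasureTheory
open scoped ContDiff LinearAlgebra.Projectivization

namespace Pool.Agent.Helper60.CP

/-- complex `n`-space -/
abbrev Cn (n : ℕ) : Type := EuclideanSpace ℂ (Fin n)

/-- Homogeneous coordinates `[cos (πr/2L) : sin (πr/2L) z]` of the point of `ℂP^n` with coordinates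
`(r, z)`, `z ∈ S^(2n-1)`, for `0 ≤ r ≤ L`; for all real `r` by continuing the normal geodesic. -/
noncomputable def vec {n : ℕ} (L r : ℝ) (z : Cn n) : ℂ × Cn n :=
  ((Real.cos (π * r / (2 * L)) : ℂ), (Real.sin (π * r / (2 * L)) : ℂ) • z)

/-- The contact form of `S^(2n-1)`: `η_z(w) = Im ⟨z, w⟩`. -/
noncomputable def eta {n : ℕ} (z w : Cn n) : ℝ := (inner ℂ z w).im

/-- The momentum `h² z' + (f² - h²) η(z') i z`, the derivative of the energy with respect to `z'`. -/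
noncomputable def mom {n : ℕ} (f h r : ℝ → ℝ) (z : ℝ → Cn n) (t : ℝ) : Cn n :=
  ((h (r t) ^ 2 : ℝ) : ℂ) • deriv z t +
    (((f (r t) ^ 2 - h (r t) ^ 2) * eta (z t) (deriv z t) : ℝ) : ℂ) • (Complex.I • z t)

/-- `γ` is a geodesic of speed `v` of the metric `dr² + f² η² + h² g_FS` on `ℂP^n`, written in extended
coordinates `(r, z)`: the Euler-Lagrange equations of `(r'² + f² η(z')² + h² (|z'|² - η(z')²)) / 2` for
`r ∈ ℝ`, `z ∈ S^(2n-1)`. -/
def IsGeodesicC {n : ℕ} (L : ℝ) (f h : ℝ → ℝ) (v : ℝ) (γ : ℝ → ℙ ℂ (ℂ × Cn n)) : Prop :=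
  ∃ (r : ℝ → ℝ) (z : ℝ → Cn n), ContDiff ℝ 2 r ∧ ContDiff ℝ 2 z ∧ (∀ t, ‖z t‖ = 1) ∧
    (∀ t, (γ t).submodule = Submodule.span ℂ {vec L (r t) (z t)}) ∧
    (∀ t, deriv (deriv r) t = f (r t) * deriv f (r t) * eta (z t) (deriv z t) ^ 2
      + h (r t) * deriv h (r t) * (‖deriv z t‖ ^ 2 - eta (z t) (deriv z t) ^ 2)) ∧
    (∀ t, ∃ l : ℝ, deriv (mom f h r z) t +
      (((f (r t) ^ 2 - h (r t) ^ 2) * eta (z t) (deriv z t) : ℝ) : ℂ) • (Complex.I • deriv z t)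
        = (l : ℂ) • z t) ∧
    (∀ t, deriv r t ^ 2 + f (r t) ^ 2 * eta (z t) (deriv z t) ^ 2
      + h (r t) ^ 2 * (‖deriv z t‖ ^ 2 - eta (z t) (deriv z t) ^ 2) = v ^ 2)

/-- the first unit vector -/
noncomputable def e0 {n : ℕ} (hn : 2 ≤ n) : Cn n := EuclideanSpace.single (⟨0, by omega⟩ : Fin n) (1 : ℂ)

/-- the second unit vector -/
noncomputable def e1 {n : ℕ} (hn : 2 ≤ n) : Cn n := EuclideanSpace.single (⟨1, by omega⟩ : Fin n) (1 : ℂ)

lemma inner_comb {n : ℕ} (hn : 2 ≤ n) (a b c d : ℂ) :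
    inner ℂ (a • e0 hn + b • e1 hn) (c • e0 hn + d • e1 hn) =
      (starRingEnd ℂ) a * c + (starRingEnd ℂ) b * d := by
  simp only [e0, e1, inner_add_left, inner_add_right, inner_smul_left, inner_smul_right,
    EuclideanSpace.inner_single_left, PiLp.single_apply]
  simp [Fin.ext_iff]
  ring

lemma norm_sq_comb {n : ℕ} (hn : 2 ≤ n) (a b : ℂ) :
    ‖a • e0 hn + b • e1 hn‖ ^ 2 = ‖a‖ ^ 2 + ‖b‖ ^ 2 := by
  have h := inner_self_eq_norm_sq_to_K (𝕜 := ℂ) (a • e0 hn + b • e1 hn)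
  rw [inner_comb hn, ← Complex.normSq_eq_conj_mul_self, ← Complex.normSq_eq_conj_mul_self] at h
  have h2 : ((Complex.normSq a + Complex.normSq b : ℝ) : ℂ) =
      ((‖a • e0 hn + b • e1 hn‖ ^ 2 : ℝ) : ℂ) := by
    push_cast
    rw [h]
    simp
  have h3 := Complex.ofReal_injective h2
  rw [← h3, Complex.normSq_eq_norm_sq, Complex.normSq_eq_norm_sq]

lemma hasDerivAt_comb {n : ℕ} (hn : 2 ≤ n) {w₁ w₂ : ℝ → ℂ} {d₁ d₂ : ℂ} {t : ℝ}
    (h₁ : HasDerivAt w₁ d₁ t) (h₂ : HasDerivAt w₂ d₂ t) :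
    HasDerivAt (fun t => w₁ t • e0 hn + w₂ t • e1 hn) (d₁ • e0 hn + d₂ • e1 hn) t :=
  (h₁.smul_const (e0 hn)).add (h₂.smul_const (e1 hn))

/-- `p e^{iθ}` -/
noncomputable def ph (p : ℝ) (θ : ℝ → ℝ) (t : ℝ) : ℂ := (p : ℂ) * Complex.exp ((θ t : ℂ) * Complex.I)

lemma hasDerivAt_ph (p : ℝ) {θ : ℝ → ℝ} {d t : ℝ} (h : HasDerivAt θ d t) :
    HasDerivAt (ph p θ) (((d : ℂ) * Complex.I) * ph p θ t) t := by
  have h1 := (((h.ofReal_comp).mul_const Complex.I).cexp).const_mul (p : ℂ)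
  refine h1.congr_deriv ?_
  unfold ph
  ring

lemma norm_ph {p : ℝ} (hp : 0 ≤ p) (θ : ℝ → ℝ) (t : ℝ) : ‖ph p θ t‖ = p := by
  unfold ph
  rw [norm_mul, Complex.norm_exp_ofReal_mul_I, mul_one, Complex.norm_real, Real.norm_eq_abs,
    abs_of_nonneg hp]

lemma conj_ph_mul {p : ℝ} (hp : 0 ≤ p) (θ : ℝ → ℝ) (t : ℝ) :
    (starRingEnd ℂ) (ph p θ t) * ph p θ t = ((p ^ 2 : ℝ) : ℂ) := by
  rw [← Complex.normSq_eq_conj_mul_self, Complex.normSq_eq_norm_sq, norm_ph hp]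

lemma contDiff_ph (p : ℝ) {θ : ℝ → ℝ} (h : ContDiff ℝ 2 θ) : ContDiff ℝ 2 (ph p θ) := by
  unfold ph
  refine contDiff_const.mul (ContDiff.cexp ?_)
  exact (Complex.ofRealCLM.contDiff.comp h).mul contDiff_const

/-- the curve `(e^{i(A+B)} p, e^{i(A-B)} q, 0, …)` with `p² = (1+C)/2`, `q² = (1-C)/2` -/
noncomputable def zc {n : ℕ} (hn : 2 ≤ n) (C : ℝ) (A B : ℝ → ℝ) (t : ℝ) : Cn n :=
  ph √((1 + C) / 2) (fun t => A t + B t) t • e0 hn + ph √((1 - C) / 2) (fun t => A t - B t) t • e1 hn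

lemma cd2 {F : Type} [NormedAddCommGroup F] [NormedSpace ℝ F] {r : ℝ → F}
    (hr : ContDiff ℝ 2 r) :
    (∀ t, HasDerivAt r (deriv r t) t) ∧ ∀ t, HasDerivAt (deriv r) (deriv (deriv r) t) t := by
  have hr' : ContDiff ℝ 1 (deriv r) := by
    have h2' : ContDiff ℝ (1 + 1) r := by
      have : (1 + 1 : WithTop ℕ∞) = 2 := by norm_num
      rw [this]; exact hr
    exact (contDiff_succ_iff_deriv.1 h2').2.2
  exact ⟨fun t => (hr.differentiable (by norm_num)).differentiableAt.hasDerivAt,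
    fun t => (hr'.differentiable (by norm_num)).differentiableAt.hasDerivAt⟩

lemma vec_ne {n : ℕ} (L r : ℝ) {z : Cn n} (hz : ‖z‖ = 1) : vec L r z ≠ 0 := by
  intro h
  have h1 := congrArg Prod.fst h
  have h2 := congrArg Prod.snd h
  simp only [vec, Prod.fst_zero, Prod.snd_zero, Complex.ofReal_eq_zero] at h1 h2
  have hz0 : z ≠ 0 := by
    intro h0
    rw [h0, norm_zero] at hz
    exact zero_ne_one hz
  rcases smul_eq_zero.1 h2 with h3 | h3
  · rw [Complex.ofReal_eq_zero] at h3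
    have := Real.sin_sq_add_cos_sq (π * r / (2 * L))
    rw [h1, h3] at this
    norm_num at this
  · exact hz0 h3

/-- The equations for the explicit geodesics. -/
theorem geod_eqs {n : ℕ} (hn : 2 ≤ n) {f h : ℝ → ℝ} {r A B : ℝ → ℝ} {K C : ℝ}
    (hC1 : -1 ≤ C) (hC2 : C ≤ 1) (hA : ContDiff ℝ 2 A) (hB : ContDiff ℝ 2 B)
    (h1 : ∀ t, deriv (deriv r) t = f (r t) * deriv f (r t) * (deriv A t + C * deriv B t) ^ 2
      + h (r t) * deriv h (r t) * ((1 - C ^ 2) * deriv B t ^ 2))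
    (h2 : ∀ t, h (r t) ^ 2 * deriv B t = K)
    (h3 : ∀ t, f (r t) ^ 2 * (deriv A t + C * deriv B t) = C * K)
    (h4 : ∀ t, deriv r t ^ 2 + f (r t) ^ 2 * (deriv A t + C * deriv B t) ^ 2
      + h (r t) ^ 2 * ((1 - C ^ 2) * deriv B t ^ 2) = 1) :
    ContDiff ℝ 2 (zc hn C A B) ∧ (∀ t, ‖zc hn C A B t‖ = 1) ∧
    (∀ t, deriv (deriv r) t = f (r t) * deriv f (r t) * eta (zc hn C A B t) (deriv (zc hn C A B) t) ^ 2
      + h (r t) * deriv h (r t) *
        (‖deriv (zc hn C A B) t‖ ^ 2 - eta (zc hn C A B t) (deriv (zc hn C A B) t) ^ 2)) ∧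
    (∀ t, ∃ l : ℝ, deriv (mom f h r (zc hn C A B)) t +
      (((f (r t) ^ 2 - h (r t) ^ 2) * eta (zc hn C A B t) (deriv (zc hn C A B) t) : ℝ) : ℂ) •
        (Complex.I • deriv (zc hn C A B) t) = (l : ℂ) • zc hn C A B t) ∧
    (∀ t, deriv r t ^ 2 + f (r t) ^ 2 * eta (zc hn C A B t) (deriv (zc hn C A B) t) ^ 2
      + h (r t) ^ 2 *
        (‖deriv (zc hn C A B) t‖ ^ 2 - eta (zc hn C A B t) (deriv (zc hn C A B) t) ^ 2) = 1 ^ 2) := by
  set p : ℝ := √((1 + C) / 2) with hp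
  set q : ℝ := √((1 - C) / 2) with hq
  have hp0 : 0 ≤ p := Real.sqrt_nonneg _
  have hq0 : 0 ≤ q := Real.sqrt_nonneg _
  have hp2 : p ^ 2 = (1 + C) / 2 := Real.sq_sqrt (by linarith)
  have hq2 : q ^ 2 = (1 - C) / 2 := Real.sq_sqrt (by linarith)
  obtain ⟨hA1, hA2⟩ := cd2 hA
  obtain ⟨hB1, hB2⟩ := cd2 hB
  set w₁ : ℝ → ℂ := ph p (fun t => A t + B t) with hw₁
  set w₂ : ℝ → ℂ := ph q (fun t => A t - B t) with hw₂
  have hw1 : ∀ t, HasDerivAt w₁ ((((deriv A t + deriv B t : ℝ) : ℂ) * Complex.I) * w₁ t) t :=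
    fun t => hasDerivAt_ph p ((hA1 t).add (hB1 t))
  have hw2 : ∀ t, HasDerivAt w₂ ((((deriv A t - deriv B t : ℝ) : ℂ) * Complex.I) * w₂ t) t :=
    fun t => hasDerivAt_ph q ((hA1 t).sub (hB1 t))
  have hz : ∀ t, zc hn C A B t = w₁ t • e0 hn + w₂ t • e1 hn := fun _ => rfl
  have hz1 : ∀ t, HasDerivAt (zc hn C A B)
      (((((deriv A t + deriv B t : ℝ) : ℂ) * Complex.I) * w₁ t) • e0 hn +
        ((((deriv A t - deriv B t : ℝ) : ℂ) * Complex.I) * w₂ t) • e1 hn) t :=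
    fun t => hasDerivAt_comb hn (hw1 t) (hw2 t)
  have hnz : ∀ t, ‖zc hn C A B t‖ = 1 := by
    intro t
    have e : ‖zc hn C A B t‖ ^ 2 = 1 := by
      rw [hz, norm_sq_comb, hw₁, hw₂, norm_ph hp0, norm_ph hq0, hp2, hq2]
      ring
    have h0 := norm_nonneg (zc hn C A B t)
    nlinarith
  have heta : ∀ t, eta (zc hn C A B t) (deriv (zc hn C A B) t) = deriv A t + C * deriv B t := by
    intro t
    unfold eta
    rw [(hz1 t).deriv, hz, inner_comb]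
    have e : (starRingEnd ℂ) (w₁ t) * ((((deriv A t + deriv B t : ℝ) : ℂ) * Complex.I) * w₁ t) +
        (starRingEnd ℂ) (w₂ t) * ((((deriv A t - deriv B t : ℝ) : ℂ) * Complex.I) * w₂ t) =
        (((deriv A t + deriv B t) * p ^ 2 + (deriv A t - deriv B t) * q ^ 2 : ℝ) : ℂ) * Complex.I := by
      have e1 := conj_ph_mul hp0 (fun t => A t + B t) t
      have e2 := conj_ph_mul hq0 (fun t => A t - B t) t
      rw [← hw₁] at e1
      rw [← hw₂] at e2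
      push_cast at e1 e2 ⊢
      linear_combination ((((deriv A t : ℝ) : ℂ) + ((deriv B t : ℝ) : ℂ)) * Complex.I) * e1 +
        ((((deriv A t : ℝ) : ℂ) - ((deriv B t : ℝ) : ℂ)) * Complex.I) * e2
    rw [e, Complex.mul_I_im, Complex.ofReal_re, hp2, hq2]
    ring
  have hdz : ∀ t, ‖deriv (zc hn C A B) t‖ ^ 2 - (deriv A t + C * deriv B t) ^ 2 =
      (1 - C ^ 2) * deriv B t ^ 2 := by
    intro t
    rw [(hz1 t).deriv, norm_sq_comb]
    have g1 : ‖(((deriv A t + deriv B t : ℝ) : ℂ) * Complex.I) * w₁ t‖ ^ 2 =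
        (deriv A t + deriv B t) ^ 2 * p ^ 2 := by
      rw [norm_mul, norm_mul, Complex.norm_I, mul_one, Complex.norm_real, hw₁, norm_ph hp0, mul_pow,
        Real.norm_eq_abs, sq_abs]
    have g2 : ‖(((deriv A t - deriv B t : ℝ) : ℂ) * Complex.I) * w₂ t‖ ^ 2 =
        (deriv A t - deriv B t) ^ 2 * q ^ 2 := by
      rw [norm_mul, norm_mul, Complex.norm_I, mul_one, Complex.norm_real, hw₂, norm_ph hq0, mul_pow,
        Real.norm_eq_abs, sq_abs]
    rw [g1, g2, hp2, hq2]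
    ring
  -- the coefficient `β a`
  have hβ : ∀ t, (f (r t) ^ 2 - h (r t) ^ 2) * (deriv A t + C * deriv B t) =
      -(h (r t) ^ 2 * deriv A t) := by
    intro t
    linear_combination h3 t - C * h2 t
  have hmom : mom f h r (zc hn C A B) = fun t =>
      (((K : ℂ) * Complex.I) * w₁ t) • e0 hn + ((-(K : ℂ) * Complex.I) * w₂ t) • e1 hn := by
    funext t
    unfold mom
    rw [heta, hβ, (hz1 t).deriv, hz, ← h2 t]
    simp only [smul_add, smul_smul]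
    rw [add_add_add_comm, ← add_smul, ← add_smul]
    congr 2
    · push_cast
      ring
    · push_cast
      ring
  refine ⟨?_, hnz, ?_, ?_, ?_⟩
  · unfold zc
    exact ((contDiff_ph _ (hA.add hB)).smul contDiff_const).add
      ((contDiff_ph _ (hA.sub hB)).smul contDiff_const)
  · intro t
    rw [heta, hdz, h1]
  · intro t
    refine ⟨h (r t) ^ 2 * (deriv A t ^ 2 - deriv B t ^ 2), ?_⟩
    have hm : HasDerivAt (mom f h r (zc hn C A B))
        ((((K : ℂ) * Complex.I) * ((((deriv A t + deriv B t : ℝ) : ℂ) * Complex.I) * w₁ t)) • e0 hn +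
        ((-(K : ℂ) * Complex.I) * ((((deriv A t - deriv B t : ℝ) : ℂ) * Complex.I) * w₂ t)) • e1 hn) t := by
      rw [hmom]
      exact hasDerivAt_comb hn ((hw1 t).const_mul _) ((hw2 t).const_mul _)
    rw [hm.deriv, heta, hβ, (hz1 t).deriv, hz, ← h2 t]
    simp only [smul_add, smul_smul]
    rw [add_add_add_comm, ← add_smul, ← add_smul]
    have hI : Complex.I * Complex.I = -1 := Complex.I_mul_I
    congr 2
    · push_cast
      linear_combination (((h (r t) : ℂ) ^ 2 * ((deriv B t : ℝ) : ℂ) - (h (r t) : ℂ) ^ 2 * ((deriv A t : ℝ) : ℂ)) *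
        (((deriv A t : ℝ) : ℂ) + ((deriv B t : ℝ) : ℂ)) * w₁ t) * hI
    · push_cast
      linear_combination ((-(h (r t) : ℂ) ^ 2 * ((deriv B t : ℝ) : ℂ) - (h (r t) : ℂ) ^ 2 * ((deriv A t : ℝ) : ℂ)) *
        (((deriv A t : ℝ) : ℂ) - ((deriv B t : ℝ) : ℂ)) * w₂ t) * hI
  · intro t
    rw [heta, hdz, h4]
    norm_num

/-- The general explicit geodesics. -/
theorem geod_gen {n : ℕ} (hn : 2 ≤ n) {L : ℝ} {f h : ℝ → ℝ} {r A B : ℝ → ℝ} {K C : ℝ}
    (hC1 : -1 ≤ C) (hC2 : C ≤ 1) (hr : ContDiff ℝ 2 r) (hA : ContDiff ℝ 2 A) (hB : ContDiff ℝ 2 B)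
    (h1 : ∀ t, deriv (deriv r) t = f (r t) * deriv f (r t) * (deriv A t + C * deriv B t) ^ 2
      + h (r t) * deriv h (r t) * ((1 - C ^ 2) * deriv B t ^ 2))
    (h2 : ∀ t, h (r t) ^ 2 * deriv B t = K)
    (h3 : ∀ t, f (r t) ^ 2 * (deriv A t + C * deriv B t) = C * K)
    (h4 : ∀ t, deriv r t ^ 2 + f (r t) ^ 2 * (deriv A t + C * deriv B t) ^ 2
      + h (r t) ^ 2 * ((1 - C ^ 2) * deriv B t ^ 2) = 1) :
    ∃ γ : ℝ → ℙ ℂ (ℂ × Cn n), IsGeodesicC L f h 1 γ ∧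
      ∀ t, (γ t).submodule = Submodule.span ℂ {vec L (r t) (zc hn C A B t)} := by
  obtain ⟨g1, g2, g3, g4, g5⟩ := geod_eqs hn (r := r) hC1 hC2 hA hB h1 h2 h3 h4
  exact ⟨fun t => Projectivization.mk ℂ (vec L (r t) (zc hn C A B t)) (vec_ne L (r t) (g2 t)),
    ⟨r, zc hn C A B, hr, g1, g2, fun t => Projectivization.submodule_mk _ _, g3, g4, g5⟩,
    fun t => Projectivization.submodule_mk _ _⟩

end Pool.Agent.Helper60.CP
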