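import Pool.Agent.H206R2.Rot2.Defs

/-!
# Short periodic geodesics of `U(n)`-invariant metrics on `ℂP^n`: profiles and the parts of the proof
-/

set_option autoImplicit false

open Real Set MeasureTheory
open scoped ContDiff

namespace Pool.Agent.Helper60.CP

open Pool.Agent.H206R2.Rot2 (Veff well actW)

/-- The pairs of profile functions of the smooth `U(n)`-invariant metrics `dr² + f(r)² η² + h(r)² g_FS`,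
`0 ≤ r ≤ L`, on `ℂP^n`: `r` is the distance from the fixed point, the orbit `r = L` is a `ℂP^(n-1)`, the
others are spheres `S^(2n-1)` with contact form `η`. -/
structure IsProfileC (L : ℝ) (f h : ℝ → ℝ) : Prop where
  pos : 0 < L
  smooth_f : ContDiff ℝ ∞ f
  smooth_h : ContDiff ℝ ∞ h
  f_odd : ∀ r, f (-r) = -f r
  f_odd_L : ∀ r, f (L + r) = -f (L - r)
  h_odd : ∀ r, h (-r) = -h r
  h_even_L : ∀ r, h (L + r) = h (L - r)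
  f_pos : ∀ r, 0 < r → r < L → 0 < f r
  h_pos : ∀ r, 0 < r → r ≤ L → 0 < h r
  f_deriv : deriv f 0 = 1
  h_deriv : deriv h 0 = 1
  f_deriv_L : deriv f L = -1

/-- `K = √(c₁² + c₂²)` -/
noncomputable def KK (c : ℝ × ℝ) : ℝ := √(c.1 ^ 2 + c.2 ^ 2)

/-- The region `c₁, c₂ > 0`, `c₁ + K < R`. -/
def Reg (R : ℝ) : Set (ℝ × ℝ) := {c | 0 < c.1 ∧ 0 < c.2 ∧ c.1 + KK c < R}

/-- The action defect. -/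
noncomputable def Dc (L R : ℝ) (f h : ℝ → ℝ) (s : ℝ × ℝ → ℝ) (c : ℝ × ℝ) : ℝ :=
  actW L (Veff f h c.1 c.2) (s c) - π * (R - c.1 - KK c)

/-- PART V: volume bound. -/
def S_V : Prop := ∀ (L R : ℝ) (f h : ℝ → ℝ) (n : ℕ), 2 ≤ n → 0 < L → 0 < R →
  Continuous f → Continuous h → (∀ r ∈ Ioo 0 L, 0 < f r) → (∀ r ∈ Ioo 0 L, 0 < h r) →
  (∃ r ∈ Ioo 0 L, R < h r) →
  (∀ c ∈ Reg R, π * (R - c.1 - KK c) ≤ 2 * ∫ r in Ioo 0 L, √(1 - Veff f h c.1 c.2 r)) →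
  R ^ (2 * n) < 2 * n * ∫ r in (0 : ℝ)..L, f r * h r ^ (2 * n - 2)

/-- PART E: the one-parameter case. -/
def S_E : Prop := ∀ (M s₀ R₀ : ℝ) (g : ℝ → ℝ), 0 < M → ContDiff ℝ ∞ g →
  (∀ x ∈ Ioo 0 M, 0 < g x) → g 0 = 0 → g M = 0 → s₀ ∈ Ioo 0 M → 0 < R₀ → R₀ < g s₀ → π * R₀ ≤ M →
  (∀ c p q : ℝ, 0 < c → c < R₀ → 0 < p → p < s₀ → s₀ < q → q < M → g p = c → g q = c →
    (∀ x ∈ Ioo p q, c < g x) → 0 < deriv g p → deriv g q < 0 →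
    IntegrableOn (fun x => 1 / √(1 - (c / g x) ^ 2)) (Ioo p q) →
    2 * (∫ x in Ioo p q, c / (g x ^ 2 * √(1 - (c / g x) ^ 2))) = 2 * π →
    2 * π * R₀ ≤ 2 * ∫ x in Ioo p q, 1 / √(1 - (c / g x) ^ 2)) →
  ∀ c, 0 < c → c < R₀ → 2 * π * (R₀ - c) ≤ actW M (fun x => (c / g x) ^ 2) s₀

/-- PART O: the symmetric oscillation. -/
def S_O : Prop := ∀ (M p q : ℝ) (V : ℝ → ℝ), 0 < p → p < q → q < M → ContDiffOn ℝ ∞ V (Ioo 0 M) →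
  V p = 1 → V q = 1 → deriv V p < 0 → 0 < deriv V q → (∀ x ∈ Ioo p q, V x < 1) →
  (∀ x, V (p + q - x) = V x) →
  ∃ (r : ℝ → ℝ) (T : ℝ), 0 < T ∧ T = 2 * ∫ x in Ioo p q, 1 / √(1 - V x) ∧ ContDiff ℝ 2 r ∧
    (∀ t, p ≤ r t ∧ r t ≤ q) ∧ (∀ t, deriv (deriv r) t = -deriv V (r t) / 2) ∧
    (∀ t, deriv r t ^ 2 = 1 - V (r t)) ∧ (∀ t, r (t + T / 2) = p + q - r t) ∧
    (∀ g : ℝ → ℝ, ContinuousOn g (Icc p q) →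
      ∫ t in (0 : ℝ)..T, g (r t) = 2 * ∫ x in Ioo p q, g x / √(1 - V x))

/-- PART M: existence of the minimum of the action defect. -/
def S_M : Prop := ∀ (L R S a b ρ η : ℝ) (f h : ℝ → ℝ) (s : ℝ × ℝ → ℝ), IsProfileC L f h →
  0 < R → R < S → 0 < a → a < b → b < L → 0 < η → ρ < 1 →
  f a = S / 2 → (∀ r ∈ Icc a L, deriv f r < 0) → (∀ r ∈ Icc b L, S ≤ h r) →
  ContinuousOn s {c | 0 < c.1 ∧ 0 < c.2} →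
  (∀ c : ℝ × ℝ, 0 < c.1 → 0 < c.2 → a ≤ s c ∧ s c ≤ b) →
  (∀ c ∈ Reg R, Veff f h c.1 c.2 (s c) ≤ ρ) →
  (∀ c : ℝ × ℝ, 0 < c.1 → 0 < c.2 → S * √(c.1 * KK c) / (c.1 + KK c) ≤ f (s c)) →
  (∀ c : ℝ × ℝ, 0 < c.1 → 0 < c.2 → c.1 ≤ η * c.2 → s c = b) →
  π * R ≤ 2 * L →
  (∀ t ∈ Ioo 0 (R / 2), ∃ x y, 0 ≤ x ∧ x < a ∧ a < y ∧ y ≤ L ∧ f x ≤ t ∧ f y ≤ t ∧
    (∀ r ∈ Ioo x y, t < f r) ∧ π * (R - 2 * t) ≤ 2 * ∫ r in Ioo x y, √(1 - (t / f r) ^ 2)) →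
  (∀ t ∈ Ioo 0 R, ∃ y, 0 ≤ y ∧ y < L ∧ h y ≤ t ∧ (∀ r ∈ Ioc y L, t < h r) ∧
    π * (R - t) ≤ 2 * ∫ r in Ioo y L, √(1 - (t / h r) ^ 2)) →
  (∃ c ∈ Reg R, Dc L R f h s c < 0) →
  ∃ c ∈ Reg R, Dc L R f h s c < 0 ∧ ∀ c' ∈ Reg R, Dc L R f h s c ≤ Dc L R f h s c'

/-- PART C: the equations at a minimum. -/
def S_C : Prop := ∀ (L R : ℝ) (f h : ℝ → ℝ) (s : ℝ × ℝ → ℝ) (c : ℝ × ℝ), IsProfileC L f h → 0 < R →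
  ContinuousOn s {c | 0 < c.1 ∧ 0 < c.2} →
  (∀ c : ℝ × ℝ, 0 < c.1 → 0 < c.2 → 0 < s c ∧ s c < L) →
  (∀ c ∈ Reg R, Veff f h c.1 c.2 (s c) < 1) → c ∈ Reg R →
  (∀ c' ∈ Reg R, Dc L R f h s c ≤ Dc L R f h s c') →
  ∃ p q, 0 < p ∧ p < s c ∧ s c < q ∧ q < L ∧ Veff f h c.1 c.2 p = 1 ∧ Veff f h c.1 c.2 q = 1 ∧
    well L (Veff f h c.1 c.2) (s c) = Ioo p q ∧ (∀ x ∈ Ioo p q, Veff f h c.1 c.2 x < 1) ∧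
    deriv (Veff f h c.1 c.2) p < 0 ∧ 0 < deriv (Veff f h c.1 c.2) q ∧
    IntegrableOn (fun r => 1 / √(1 - Veff f h c.1 c.2 r)) (Ioo p q) ∧
    2 * (∫ r in Ioo p q, c.1 / (f r ^ 2 * √(1 - Veff f h c.1 c.2 r))) = π * (1 + c.1 / KK c) ∧
    2 * (∫ r in Ioo p q, c.2 / (h r ^ 2 * √(1 - Veff f h c.1 c.2 r))) = π * (c.2 / KK c)

/-- PART S: a continuous selection of a point deep in a well. -/
def S_S : Prop := ∀ (L R S a : ℝ) (f h : ℝ → ℝ), IsProfileC L f h → 0 < R → R < S → 0 < a → a < L →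
  f a = S / 2 → (∀ r ∈ Icc a L, deriv f r < 0) → S < h L →
  (∀ r ∈ Icc a L, S ^ 2 * (h r ^ 2 - f r ^ 2) ≤ h r ^ 4) →
  ∃ (s : ℝ × ℝ → ℝ) (b ρ η : ℝ), a < b ∧ b < L ∧ 0 < η ∧ ρ < 1 ∧ (∀ r ∈ Icc b L, S ≤ h r) ∧
    ContinuousOn s {c | 0 < c.1 ∧ 0 < c.2} ∧
    (∀ c : ℝ × ℝ, 0 < c.1 → 0 < c.2 → a ≤ s c ∧ s c ≤ b) ∧
    (∀ c ∈ Reg R, Veff f h c.1 c.2 (s c) ≤ ρ) ∧
    (∀ c : ℝ × ℝ, 0 < c.1 → 0 < c.2 → S * √(c.1 * KK c) / (c.1 + KK c) ≤ f (s c)) ∧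
    (∀ c : ℝ × ℝ, 0 < c.1 → 0 < c.2 → c.1 ≤ η * c.2 → s c = b)

/-- PART T: the structure of the profiles near the hyperplane. -/
def S_T : Prop := ∀ (L R : ℝ) (f h : ℝ → ℝ), IsProfileC L f h → 0 < R →
  (∀ r ∈ Ioo 0 L, deriv f r = 0 → R / 2 < f r) → R < h L →
  (∀ r ∈ Ioo 0 L, (h r ^ 2 - 2 * f r ^ 2) * deriv h r + f r * deriv f r * h r = 0 →
    2 * f r ^ 2 ≤ h r ^ 2 → R ^ 2 * (h r ^ 2 - f r ^ 2) < h r ^ 4) →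
  ∃ S a, R < S ∧ 0 < a ∧ a < L ∧ f a = S / 2 ∧ (∀ r ∈ Icc a L, deriv f r < 0) ∧ S < h L ∧
    ∀ r ∈ Icc a L, S ^ 2 * (h r ^ 2 - f r ^ 2) ≤ h r ^ 4

end Pool.Agent.Helper60.CP
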