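import Pool.Agent.Helper60.CP.Asm3
import Pool.Agent.Helper60.CP.M
import Pool.Agent.Helper2.CPV.V
import Pool.Agent.Helper93.CPE.E
import Pool.Agent.Helper74.CP.O
import Pool.Agent.Helper74.CP.C
import Pool.Agent.Helper44.CP.SS
import Pool.Agent.Helper44.CP.TT

/-!
# Short periodic geodesics of `U(n)`-invariant metrics on `ℂP^n`
-/

set_option autoImplicit false

open Real Set MeasureTheory
open scoped ContDiff LinearAlgebra.Projectivization Topology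

namespace Pool.Agent.Helper60.CP

theorem short {L : ℝ} {f h : ℝ → ℝ} (hf : IsProfileC L f h) {n : ℕ} (hn : 2 ≤ n) :
    ∃ (γ : ℝ → ℙ ℂ (ℂ × Cn n)) (T : ℝ), 0 < T ∧ IsGeodesicC L f h 1 γ ∧ (∀ t, γ (t + T) = γ t) ∧
      T ^ (2 * n) ≤ 2 * n * π ^ (2 * n) * ∫ r in (0 : ℝ)..L, f r * h r ^ (2 * n - 2) :=
  Asm.short_geodesicC Pool.Agent.Helper60.CP.V.t_V Pool.Agent.Helper93.CPE.t_E
    Pool.Agent.Helper74.CP.O.t_O Pool.Agent.Helper60.CP.M.t_M Pool.Agent.Helper74.CP.C.t_C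
    Pool.Agent.Helper44.CP.t_S Pool.Agent.Helper44.CP.t_T hf hn

end Pool.Agent.Helper60.CP
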