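import Pool.Agent.Helper60.CP.QGeo

/-!
# Geodesics of `Spin(9)`-invariant metrics on `𝕆P^2` and `S^16`
-/

set_option autoImplicit false

open Real Set MeasureTheory
open scoped ContDiff LinearAlgebra.Projectivization Quaternion

namespace Pool.Agent.Helper60.CP

/-- the octonions, as pairs of quaternions -/
abbrev Oct : Type := ℍ[ℝ] × ℍ[ℝ]

/-- the product of octonions: `(a, b)(c, d) = (ac - d* b, da + bc*)` -/
noncomputable def omul (a b : Oct) : Oct :=
  (a.1 * b.1 - star b.2 * a.2, b.2 * a.1 + a.2 * star b.1)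

/-- the conjugation of octonions: `(a, b)* = (a*, -b)` -/
noncomputable def oconj (a : Oct) : Oct := (star a.1, -a.2)

/-- the square of the norm of an octonion -/
noncomputable def osq (a : Oct) : ℝ := ‖a.1‖ ^ 2 + ‖a.2‖ ^ 2

/-- the octonionic plane `𝕆² = ℍ⁴` -/
abbrev Oct2 : Type := Hn 4

/-- the first octonionic coordinate -/
noncomputable def oc1 (z : Oct2) : Oct := (z 0, z 1)

/-- the second octonionic coordinate -/
noncomputable def oc2 (z : Oct2) : Oct := (z 2, z 3)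

/-- the point of the octonionic plane with given coordinates -/
noncomputable def opair (a b : Oct) : Oct2 := WithLp.toLp 2 ![a.1, a.2, b.1, b.2]

/-- `|z|²` times the orthogonal projection of `w` to the octonionic line `{(x, mx)}` or `{(0, x)}`
through `z = (z₁, z₂)`: the point `(|z₁|² w₁ + (z₁ z₂*) w₂, (z₂ z₁*) w₁ + |z₂|² w₂)`. -/
noncomputable def lineO (z w : Oct2) : Oct2 :=
  opair (osq (oc1 z) • oc1 w + omul (omul (oc1 z) (oconj (oc2 z))) (oc2 w))
    (omul (omul (oc2 z) (oconj (oc1 z))) (oc1 w) + osq (oc2 z) • oc2 w)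

/-- the space of hermitian octonionic `3 × 3` matrices: the diagonal and three of the other entries -/
abbrev Herm : Type := ℝ × ℝ × ℝ × Oct × Oct × Oct

/-- the matrix `v v*`, `v = (x, z₁, z₂)` -/
noncomputable def projO (x : ℝ) (z : Oct2) : Herm :=
  (x ^ 2, osq (oc1 z), osq (oc2 z), x • oc1 z, x • oc2 z, omul (oc2 z) (oconj (oc1 z)))

/-- `𝕆P^2`: the projection matrices `v v*`, `v = (x, z₁, z₂)`, `x` real, `|v| = 1`. -/
def OP2 : Set Herm := {X | ∃ (x : ℝ) (z : Oct2), x ^ 2 + ‖z‖ ^ 2 = 1 ∧ X = projO x z}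

/-- The momentum: `h²` times the horizontal part of `z'` plus `f²` times its vertical part, the
projection to the octonionic line through `z`. -/
noncomputable def momO (f h r : ℝ → ℝ) (z : ℝ → Oct2) (t : ℝ) : Oct2 :=
  h (r t) ^ 2 • deriv z t + (f (r t) ^ 2 - h (r t) ^ 2) • lineO (z t) (deriv z t)

/-- The Euler-Lagrange equations of `(r'² + f² |vert z'|² + h² (|z'|² - |vert z'|²)) / 2`, `r ∈ ℝ`,
`z ∈ S^15`, where `vert` is the tangential part of the projection to the octonionic line through `z`,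
and the equation of constant speed `v`. -/
def GeodEqO (f h : ℝ → ℝ) (v : ℝ) (r : ℝ → ℝ) (z : ℝ → Oct2) : Prop :=
  ContDiff ℝ 2 r ∧ ContDiff ℝ 2 z ∧ (∀ t, ‖z t‖ = 1) ∧
    (∀ t, deriv (deriv r) t = f (r t) * deriv f (r t) * ‖lineO (z t) (deriv z t)‖ ^ 2
      + h (r t) * deriv h (r t) * (‖deriv z t‖ ^ 2 - ‖lineO (z t) (deriv z t)‖ ^ 2)) ∧
    (∀ t, ∃ l : ℝ, deriv (momO f h r z) t =
      (f (r t) ^ 2 - h (r t) ^ 2) • lineO (deriv z t) (z t) + l • z t) ∧
    (∀ t, deriv r t ^ 2 + f (r t) ^ 2 * ‖lineO (z t) (deriv z t)‖ ^ 2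
      + h (r t) ^ 2 * (‖deriv z t‖ ^ 2 - ‖lineO (z t) (deriv z t)‖ ^ 2) = v ^ 2)

/-- `γ` is a geodesic of speed `v` of the metric `dr² + f² |vert|² + h² (|dz|² - |vert|²)` on `𝕆P^2`. -/
def IsGeodesicO (L : ℝ) (f h : ℝ → ℝ) (v : ℝ) (γ : ℝ → OP2) : Prop :=
  ∃ (r : ℝ → ℝ) (z : ℝ → Oct2), GeodEqO f h v r z ∧
    ∀ t, (γ t : Herm) = projO (Real.cos (π * r t / (2 * L))) (Real.sin (π * r t / (2 * L)) • z t)

/-- `γ` is a geodesic of speed `v` of the metric `dr² + f² |vert|² + h² (|dz|² - |vert|²)` on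
`S^16 ⊂ 𝕆² × ℝ`. -/
def IsGeodesicSO (L : ℝ) (f h : ℝ → ℝ) (v : ℝ) (γ : ℝ → Oct2 × ℝ) : Prop :=
  ∃ (r : ℝ → ℝ) (z : ℝ → Oct2), GeodEqO f h v r z ∧
    ∀ t, γ t = (Real.sin (π * r t / L) • z t, Real.cos (π * r t / L))

/-- the embedding of `ℂ` in the octonions -/
noncomputable def embO (c : ℂ) : Oct := ((c : ℍ[ℝ]), 0)

lemma osq_embO (c : ℂ) : osq (embO c) = ‖c‖ ^ 2 := by
  unfold osq embO
  rw [norm_coeC, norm_zero]
  ring

lemma omul_embO (a b : ℂ) : omul (embO a) (embO b) = embO (a * b) := by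
  unfold omul embO
  ext1
  · simp only [star_zero, mul_zero, sub_zero, Quaternion.coeComplex_mul]
  · simp only [zero_mul, add_zero]

lemma oconj_embO (a : ℂ) : oconj (embO a) = embO ((starRingEnd ℂ) a) := by
  unfold oconj embO
  rw [star_coeC, neg_zero]

lemma add_embO (a b : ℂ) : embO a + embO b = embO (a + b) := by
  unfold embO
  rw [Prod.mk_add_mk, Quaternion.coeComplex_add, add_zero]

lemma smul_embO (a : ℝ) (b : ℂ) : a • embO b = embO ((a : ℂ) * b) := by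
  unfold embO
  rw [Prod.smul_mk, smul_zero, ← Quaternion.coe_ofComplex, ← map_smul, Complex.real_smul]

/-- the embedding of `ℂ²` in the octonionic plane -/
noncomputable def iotaO : Cn 2 →ₗ[ℝ] Oct2 where
  toFun v := opair (embO (v 0)) (embO (v 1))
  map_add' v w := by
    ext j : 1
    fin_cases j
    · exact Quaternion.coeComplex_add (v 0) (w 0)
    · exact (add_zero (0 : ℍ[ℝ])).symm
    · exact Quaternion.coeComplex_add (v 1) (w 1)
    · exact (add_zero (0 : ℍ[ℝ])).symm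
  map_smul' c v := by
    ext j : 1
    fin_cases j
    · exact map_smul Quaternion.ofComplex c (v 0)
    · exact (smul_zero (A := ℍ[ℝ]) c).symm
    · exact map_smul Quaternion.ofComplex c (v 1)
    · exact (smul_zero (A := ℍ[ℝ]) c).symm

lemma oc1_iotaO (v : Cn 2) : oc1 (iotaO v) = embO (v 0) := rfl

lemma oc2_iotaO (v : Cn 2) : oc2 (iotaO v) = embO (v 1) := rfl

lemma norm_iotaO (v : Cn 2) : ‖iotaO v‖ = ‖v‖ := by
  rw [PiLp.norm_eq_of_L2, EuclideanSpace.norm_eq, Fin.sum_univ_four, Fin.sum_univ_two]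
  congr 1
  have e0 : (iotaO v) 0 = ((v 0 : ℂ) : ℍ[ℝ]) := rfl
  have e1 : (iotaO v) 1 = 0 := rfl
  have e2 : (iotaO v) 2 = ((v 1 : ℂ) : ℍ[ℝ]) := rfl
  have e3 : (iotaO v) 3 = 0 := rfl
  rw [e0, e1, e2, e3, norm_coeC, norm_coeC, norm_zero]
  ring

lemma lineO_iotaO (z w : Cn 2) : lineO (iotaO z) (iotaO w) = iotaO ((inner ℂ z w : ℂ) • z) := by
  have hin : (inner ℂ z w : ℂ) = (starRingEnd ℂ) (z 0) * w 0 + (starRingEnd ℂ) (z 1) * w 1 := by
    rw [PiLp.inner_apply, Fin.sum_univ_two]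
    simp [mul_comm]
  have hn : ∀ c : ℂ, ((‖c‖ ^ 2 : ℝ) : ℂ) = c * (starRingEnd ℂ) c := fun c => by
    rw [Complex.mul_conj, Complex.normSq_eq_norm_sq]
  have e : iotaO ((inner ℂ z w : ℂ) • z) =
      opair (embO ((inner ℂ z w : ℂ) * z 0)) (embO ((inner ℂ z w : ℂ) * z 1)) := rfl
  rw [e]
  unfold lineO
  simp only [oc1_iotaO, oc2_iotaO, osq_embO, oconj_embO, omul_embO, smul_embO, add_embO, hn]
  rw [hin]
  congr 2 <;> ring

/-- the continuous linear version of `iotaO` -/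
noncomputable def iotaOL : Cn 2 →L[ℝ] Oct2 :=
  iotaO.mkContinuous 1 fun v => by rw [norm_iotaO, one_mul]

lemma deriv_iotaO {z : ℝ → Cn 2} {t : ℝ} (hz : DifferentiableAt ℝ z t) :
    deriv (fun t => iotaO (z t)) t = iotaO (deriv z t) := by
  have h1 : HasDerivAt (fun t => iotaOL (z t)) (iotaOL (deriv z t)) t :=
    iotaOL.hasFDerivAt.comp_hasDerivAt t hz.hasDerivAt
  exact h1.deriv

lemma inner_perp {n : ℕ} {z : ℝ → Cn n} (hz : ∀ t, HasDerivAt z (deriv z t) t) (hn : ∀ t, ‖z t‖ = 1)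
    (t : ℝ) : (inner ℂ (z t) (deriv z t) : ℂ) = ((eta (z t) (deriv z t) : ℝ) : ℂ) * Complex.I := by
  have hd : HasDerivAt (fun t => (inner ℂ (z t) (z t) : ℂ))
      (inner ℂ (z t) (deriv z t) + inner ℂ (deriv z t) (z t)) t := (hz t).inner ℂ (hz t)
  have hd0 : HasDerivAt (fun t => (inner ℂ (z t) (z t) : ℂ)) 0 t := by
    have : (fun t => (inner ℂ (z t) (z t) : ℂ)) = fun _ => (1 : ℂ) := by
      funext s
      rw [inner_self_eq_norm_sq_to_K, hn s]
      simp
    rw [this]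
    exact hasDerivAt_const t (1 : ℂ)
  have e := hd.unique hd0
  rw [← inner_conj_symm (deriv z t) (z t)] at e
  have e2 := congrArg Complex.re e
  simp only [Complex.add_re, Complex.conj_re, Complex.zero_re] at e2
  apply Complex.ext
  · simp
    linarith
  · simp [eta]

/-- the equations of the lift of a geodesic from `ℂ²` to `𝕆²` -/
theorem lift_eqsO {f h : ℝ → ℝ} (hf : ContDiff ℝ ∞ f) (hh : ContDiff ℝ ∞ h) {v : ℝ}
    {r : ℝ → ℝ} {z : ℝ → Cn 2} (hr : ContDiff ℝ 2 r) (hz : ContDiff ℝ 2 z) (hn : ∀ t, ‖z t‖ = 1)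
    (h1 : ∀ t, deriv (deriv r) t = f (r t) * deriv f (r t) * eta (z t) (deriv z t) ^ 2
      + h (r t) * deriv h (r t) * (‖deriv z t‖ ^ 2 - eta (z t) (deriv z t) ^ 2))
    (h2 : ∀ t, ∃ l : ℝ, deriv (mom f h r z) t +
      (((f (r t) ^ 2 - h (r t) ^ 2) * eta (z t) (deriv z t) : ℝ) : ℂ) • (Complex.I • deriv z t)
        = (l : ℂ) • z t)
    (h3 : ∀ t, deriv r t ^ 2 + f (r t) ^ 2 * eta (z t) (deriv z t) ^ 2
      + h (r t) ^ 2 * (‖deriv z t‖ ^ 2 - eta (z t) (deriv z t) ^ 2) = v ^ 2) :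
    GeodEqO f h v r (fun t => iotaO (z t)) := by
  obtain ⟨hz1, hz2⟩ := cd2 hz
  have hd : ∀ t, deriv (fun t => iotaO (z t)) t = iotaO (deriv z t) := fun t =>
    deriv_iotaO (hz1 t).differentiableAt
  have hperp := inner_perp hz1 hn
  have hcs : ∀ (c : ℝ) (v : Cn 2), iotaO (((c : ℝ) : ℂ) • v) = c • iotaO v := fun c v => by
    rw [Complex.coe_smul, map_smul]
  have hline : ∀ t, lineO (iotaO (z t)) (deriv (fun t => iotaO (z t)) t) =
      eta (z t) (deriv z t) • iotaO (Complex.I • z t) := by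
    intro t
    rw [hd, lineO_iotaO, hperp, mul_smul, hcs]
  have hline2 : ∀ t, lineO (deriv (fun t => iotaO (z t)) t) (iotaO (z t)) =
      -(eta (z t) (deriv z t) • iotaO (Complex.I • deriv z t)) := by
    intro t
    have e : (inner ℂ (deriv z t) (z t) : ℂ) = -(((eta (z t) (deriv z t) : ℝ) : ℂ) * Complex.I) := by
      rw [← inner_conj_symm, hperp, map_mul, Complex.conj_ofReal, Complex.conj_I]
      ring
    rw [hd, lineO_iotaO, e, neg_smul, map_neg, mul_smul, hcs]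
  have hnn : ∀ t, ‖lineO (iotaO (z t)) (deriv (fun t => iotaO (z t)) t)‖ ^ 2 =
      eta (z t) (deriv z t) ^ 2 := fun t => by
    rw [hline, norm_smul, norm_iotaO, norm_smul, Complex.norm_I, hn, mul_one, mul_one,
      Real.norm_eq_abs, sq_abs]
  have hnd : ∀ t, ‖deriv (fun t => iotaO (z t)) t‖ = ‖deriv z t‖ := fun t => by rw [hd, norm_iotaO]
  have hmom : momO f h r (fun t => iotaO (z t)) = fun t => iotaO (mom f h r z t) := by
    funext t
    unfold momO mom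
    rw [hline, hd, map_add, hcs, hcs, smul_smul]
  have hdm : ∀ t, DifferentiableAt ℝ (mom f h r z) t := by
    intro t
    have hf1 : HasDerivAt (fun t => f (r t)) (deriv f (r t) * deriv r t) t :=
      ((hf.differentiable (by simp)).differentiableAt.hasDerivAt).comp t ((cd2 hr).1 t)
    have hh1 : HasDerivAt (fun t => h (r t)) (deriv h (r t) * deriv r t) t :=
      ((hh.differentiable (by simp)).differentiableAt.hasDerivAt).comp t ((cd2 hr).1 t)
    have he : DifferentiableAt ℝ (fun t => eta (z t) (deriv z t)) t := by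
      unfold eta
      have h5 : DifferentiableAt ℝ (fun t => (inner ℂ (z t) (deriv z t) : ℂ)) t :=
        ((hz1 t).inner ℂ (hz2 t)).differentiableAt
      exact (Complex.imCLM.differentiableAt).comp t h5
    have k1 : DifferentiableAt ℝ (fun t => ((h (r t) ^ 2 : ℝ) : ℂ)) t :=
      (Complex.ofRealCLM.differentiableAt (x := h (r t) ^ 2)).comp t (hh1.differentiableAt.pow 2)
    have k2 : DifferentiableAt ℝ
        (fun t => (((f (r t) ^ 2 - h (r t) ^ 2) * eta (z t) (deriv z t) : ℝ) : ℂ)) t :=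
      (Complex.ofRealCLM.differentiableAt
        (x := (f (r t) ^ 2 - h (r t) ^ 2) * eta (z t) (deriv z t))).comp t
        (((hf1.differentiableAt.pow 2).sub (hh1.differentiableAt.pow 2)).mul he)
    have k3 : DifferentiableAt ℝ (fun t => (Complex.I • z t : Cn 2)) t :=
      (hz1 t).differentiableAt.const_smul Complex.I
    have k4 : DifferentiableAt ℝ (fun t => ((h (r t) ^ 2 : ℝ) : ℂ) • deriv z t) t :=
      k1.smul (hz2 t).differentiableAt
    have k5 : DifferentiableAt ℝ (fun t =>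
        (((f (r t) ^ 2 - h (r t) ^ 2) * eta (z t) (deriv z t) : ℝ) : ℂ) • (Complex.I • z t : Cn 2)) t :=
      k2.smul k3
    have k6 := k4.add k5
    unfold mom
    exact k6
  refine ⟨hr, iotaOL.contDiff.comp hz, fun t => by rw [norm_iotaO, hn], ?_, ?_, ?_⟩
  · intro t
    rw [hnn, hnd, h1]
  · intro t
    obtain ⟨l, hl⟩ := h2 t
    refine ⟨l, ?_⟩
    rw [hmom, deriv_iotaO (hdm t), hline2]
    have e : deriv (mom f h r z) t = (l : ℂ) • z t -
        (((f (r t) ^ 2 - h (r t) ^ 2) * eta (z t) (deriv z t) : ℝ) : ℂ) • (Complex.I • deriv z t) := by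
      rw [← hl, add_sub_cancel_right]
    rw [e, map_sub, hcs, hcs, smul_neg, smul_smul]
    abel
  · intro t
    rw [hnn, hnd, h3]

lemma projO_iotaO (x : ℝ) (w : Cn 2) : projO x (iotaO w) =
    (x ^ 2, ‖w 0‖ ^ 2, ‖w 1‖ ^ 2, embO ((starRingEnd ℂ) (x : ℂ) * w 0),
      embO ((starRingEnd ℂ) (x : ℂ) * w 1), embO (w 1 * (starRingEnd ℂ) (w 0))) := by
  unfold projO
  simp only [oc1_iotaO, oc2_iotaO, osq_embO, oconj_embO, omul_embO, smul_embO, Complex.conj_ofReal]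

lemma projO_eq {x y : ℝ} {w u : Cn 2} {c : ℂ} (hc : ‖c‖ = 1) (h1 : c * (x : ℂ) = y)
    (h2 : c • w = u) : projO y (iotaO u) = projO x (iotaO w) := by
  have hcc : (starRingEnd ℂ) c * c = 1 := by
    rw [mul_comm, Complex.mul_conj, Complex.normSq_eq_norm_sq, hc]
    norm_num
  have hj : ∀ j, u j = c * w j := fun j => by rw [← h2]; rfl
  have hxy : y ^ 2 = x ^ 2 := by
    have := congrArg (fun a => ‖a‖ ^ 2) h1
    simp only [norm_mul, hc, one_mul, Complex.norm_real, Real.norm_eq_abs, sq_abs] at this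
    exact this.symm
  rw [projO_iotaO, projO_iotaO, hj, hj, hxy, ← h1]
  simp only [norm_mul, hc, one_mul, map_mul]
  have e0 : (starRingEnd ℂ) c * (starRingEnd ℂ) (x : ℂ) * (c * w 0) = (starRingEnd ℂ) (x : ℂ) * w 0 := by
    linear_combination ((starRingEnd ℂ) (x : ℂ) * w 0) * hcc
  have e1 : (starRingEnd ℂ) c * (starRingEnd ℂ) (x : ℂ) * (c * w 1) = (starRingEnd ℂ) (x : ℂ) * w 1 := by
    linear_combination ((starRingEnd ℂ) (x : ℂ) * w 1) * hcc
  have e2 : c * w 1 * ((starRingEnd ℂ) c * (starRingEnd ℂ) (w 0)) = w 1 * (starRingEnd ℂ) (w 0) := by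
    linear_combination (w 1 * (starRingEnd ℂ) (w 0)) * hcc
  rw [e0, e1, e2]

/-- `ℂP^2` is totally geodesic in `𝕆P^2`. -/
theorem lift_geodesicO {L : ℝ} {f h : ℝ → ℝ} (hf : ContDiff ℝ ∞ f) (hh : ContDiff ℝ ∞ h) {v : ℝ}
    {γ : ℝ → ℙ ℂ (ℂ × Cn 2)} {T : ℝ} (hγ : IsGeodesicC L f h v γ) (hper : ∀ t, γ (t + T) = γ t) :
    ∃ γ' : ℝ → OP2, IsGeodesicO L f h v γ' ∧ ∀ t, γ' (t + T) = γ' t := by
  obtain ⟨r, z, hr, hz, hn, hs, h1, h2, h3⟩ := hγ
  have g := lift_eqsO hf hh hr hz hn h1 h2 h3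
  have hmem : ∀ t, projO (Real.cos (π * r t / (2 * L))) (Real.sin (π * r t / (2 * L)) • iotaO (z t)) ∈
      OP2 := fun t => ⟨_, _, by
        rw [norm_smul, norm_iotaO, hn, mul_one, Real.norm_eq_abs, sq_abs, Real.cos_sq_add_sin_sq], rfl⟩
  refine ⟨fun t => ⟨_, hmem t⟩, ⟨r, fun t => iotaO (z t), g, fun t => rfl⟩, ?_⟩
  intro t
  have e1 := hs t
  have e2 := hs (t + T)
  rw [hper t, e1] at e2
  have e3 : vec L (r (t + T)) (z (t + T)) ∈ Submodule.span ℂ {vec L (r t) (z t)} := by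
    rw [e2]
    exact Submodule.mem_span_singleton_self _
  obtain ⟨c, hc⟩ := Submodule.mem_span_singleton.1 e3
  have k1 : c * ((Real.cos (π * r t / (2 * L)) : ℝ) : ℂ) =
      ((Real.cos (π * r (t + T) / (2 * L)) : ℝ) : ℂ) := congrArg Prod.fst hc
  have k2 : c • (((Real.sin (π * r t / (2 * L)) : ℝ) : ℂ) • z t) =
      ((Real.sin (π * r (t + T) / (2 * L)) : ℝ) : ℂ) • z (t + T) := congrArg Prod.snd hc
  have hc1 : ‖c‖ = 1 := by
    have n1 := congrArg (fun a => ‖a‖ ^ 2) k1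
    have n2 := congrArg (fun a => ‖a‖ ^ 2) k2
    simp only [norm_mul, norm_smul, Complex.norm_real, Real.norm_eq_abs, hn, mul_one, mul_pow,
      sq_abs] at n1 n2
    have n3 := Real.cos_sq_add_sin_sq (π * r t / (2 * L))
    have n4 := Real.cos_sq_add_sin_sq (π * r (t + T) / (2 * L))
    have n5 : ‖c‖ ^ 2 = 1 := by
      linear_combination n4 - ‖c‖ ^ 2 * n3 + n1 + n2
    exact (pow_eq_one_iff_of_nonneg (norm_nonneg c) two_ne_zero).1 n5
  have hw : ∀ t, Real.sin (π * r t / (2 * L)) • iotaO (z t) =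
      iotaO (((Real.sin (π * r t / (2 * L)) : ℝ) : ℂ) • z t) := fun t => by
    rw [Complex.coe_smul, map_smul]
  apply Subtype.ext
  simp only [hw]
  exact projO_eq hc1 k1 k2

/-- `S^4` is totally geodesic in `S^16`. -/
theorem lift_geodesicSO {L : ℝ} {f h : ℝ → ℝ} (hf : ContDiff ℝ ∞ f) (hh : ContDiff ℝ ∞ h)
    {v : ℝ} {γ : ℝ → Cn 2 × ℝ} {T : ℝ} (hγ : IsGeodesicS L f h v γ) (hper : ∀ t, γ (t + T) = γ t) :
    ∃ γ' : ℝ → Oct2 × ℝ, IsGeodesicSO L f h v γ' ∧ ∀ t, γ' (t + T) = γ' t := by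
  obtain ⟨r, z, hr, hz, hn, hs, h1, h2, h3⟩ := hγ
  have g := lift_eqsO hf hh hr hz hn h1 h2 h3
  refine ⟨fun t => (iotaO (γ t).1, (γ t).2),
    ⟨r, fun t => iotaO (z t), g, fun t => ?_⟩, fun t => by simp only [hper]⟩
  simp only [hs]
  rw [Complex.coe_smul, map_smul]

end Pool.Agent.Helper60.CP
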