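import Pool.Agent.Helper60.CP.QAct
import Pool.Agent.Helper60.CP.OGeo
import Pool.Agent.Helper4.CPO.V
import Pool.Agent.Helper9ST.R4

/-!
# Short periodic geodesics of `Spin(9)`-invariant metrics on `𝕆P^2` and `S^16`
-/

set_option autoImplicit false

open Real Set MeasureTheory
open scoped ContDiff LinearAlgebra.Projectivization Topology Quaternion

namespace Pool.Agent.Helper60.CP

theorem shortO {L : ℝ} {f h : ℝ → ℝ} (hf : IsProfileC L f h) :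
    ∃ (γ : ℝ → OP2) (T : ℝ), 0 < T ∧ IsGeodesicO L f h 1 γ ∧ (∀ t, γ (t + T) = γ t) ∧
      T ^ 16 ≤ 2640 * π ^ 16 * ∫ r in (0 : ℝ)..L, f r ^ 7 * h r ^ 8 := by
  have hfc : Continuous f := hf.smooth_f.continuous
  have hhc : Continuous h := hf.smooth_h.continuous
  have hLpos := hf.pos
  have hpi := Real.pi_pos
  set V : ℝ := ∫ r in (0 : ℝ)..L, f r ^ 7 * h r ^ 8 with hVdef
  have hVpos : 0 < V := by
    refine intervalIntegral.intervalIntegral_pos_of_pos_on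
      (((hfc.pow 7).mul (hhc.pow _)).intervalIntegrable _ _) (fun x hx => ?_) hLpos
    exact mul_pos (pow_pos (hf.f_pos x hx.1 hx.2) _) (pow_pos (hf.h_pos x hx.1 hx.2.le) _)
  have hVp2 : 0 < 2640 * V := by positivity
  obtain ⟨R, hR, hRn⟩ : ∃ R : ℝ, 0 < R ∧ R ^ 16 = 2640 * V := by
    refine ⟨(2640 * V) ^ (((16 : ℕ) : ℝ)⁻¹), Real.rpow_pos_of_pos hVp2 _, ?_⟩
    rw [Real.rpow_inv_natCast_pow hVp2.le (by norm_num)]
  suffices hmain : ∃ (γ : ℝ → ℙ ℂ (ℂ × Cn 2)) (T : ℝ),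
      0 < T ∧ IsGeodesicC L f h 1 γ ∧ (∀ t, γ (t + T) = γ t) ∧ T ≤ π * R by
    obtain ⟨γ, T, hT, hγ, hper, hle⟩ := hmain
    obtain ⟨γ', hγ', hper'⟩ := lift_geodesicO hf.smooth_f hf.smooth_h hγ hper
    refine ⟨γ', T, hT, hγ', hper', ?_⟩
    calc T ^ 16 ≤ (π * R) ^ 16 := pow_le_pow_left₀ hT.le hle _
      _ = π ^ 16 * R ^ 16 := by rw [mul_pow]
      _ = 2640 * π ^ 16 * V := by rw [hRn]; ring
  by_contra hcon
  have hno : Asm.Long 2 L f h R := by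
    intro γ T hT hγ hper
    by_contra hle
    exact hcon ⟨γ, T, hT, hγ, hper, not_lt.1 hle⟩
  obtain ⟨h1, h2⟩ := action_bound hf le_rfl hR hno
  have h3 := Pool.Agent.Helper4.CPO.t_5V L R f h hLpos hR hfc hhc
    (fun r hr => hf.f_pos r hr.1 hr.2) (fun r hr => hf.h_pos r hr.1 hr.2.le) h1 h2
  rw [hRn] at h3
  exact lt_irrefl _ h3

theorem shortSO {L : ℝ} {f h : ℝ → ℝ} (hf : IsProfileS L f h) :
    ∃ (γ : ℝ → Oct2 × ℝ) (T : ℝ), 0 < T ∧ IsGeodesicSO L f h 1 γ ∧ (∀ t, γ (t + T) = γ t) ∧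
      T ^ 16 * (∫ t in (0 : ℝ)..π, Real.sin t ^ 15) ≤
        (2 * π) ^ 16 * ∫ r in (0 : ℝ)..L, f r ^ 7 * h r ^ 8 := by
  have hfc : Continuous f := hf.smooth_f.continuous
  have hhc : Continuous h := hf.smooth_h.continuous
  have hLpos := hf.pos
  have hpi := Real.pi_pos
  set V : ℝ := ∫ r in (0 : ℝ)..L, f r ^ 7 * h r ^ 8 with hVdef
  set W : ℝ := ∫ t in (0 : ℝ)..π, Real.sin t ^ 15 with hWdef
  have hVpos : 0 < V := by
    refine intervalIntegral.intervalIntegral_pos_of_pos_on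
      (((hfc.pow 7).mul (hhc.pow _)).intervalIntegrable _ _) (fun x hx => ?_) hLpos
    exact mul_pos (pow_pos (hf.f_pos x hx.1 hx.2) _) (pow_pos (hf.h_pos x hx.1 hx.2) _)
  have hWpos : 0 < W := by
    refine intervalIntegral.intervalIntegral_pos_of_pos_on
      ((Real.continuous_sin.pow _).intervalIntegrable _ _) (fun x hx => ?_) hpi
    exact pow_pos (Real.sin_pos_of_pos_of_lt_pi hx.1 hx.2) _
  obtain ⟨R, hR, hRn⟩ : ∃ R : ℝ, 0 < R ∧ R ^ 16 * W = V := by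
    refine ⟨(V / W) ^ (((16 : ℕ) : ℝ)⁻¹), Real.rpow_pos_of_pos (div_pos hVpos hWpos) _, ?_⟩
    rw [Real.rpow_inv_natCast_pow (div_pos hVpos hWpos).le (by norm_num)]
    field_simp
  suffices hmain : ∃ (γ : ℝ → Cn 2 × ℝ) (T : ℝ),
      0 < T ∧ IsGeodesicS L f h 1 γ ∧ (∀ t, γ (t + T) = γ t) ∧ T ≤ 2 * π * R by
    obtain ⟨γ, T, hT, hγ, hper, hle⟩ := hmain
    obtain ⟨γ', hγ', hper'⟩ := lift_geodesicSO hf.smooth_f hf.smooth_h hγ hper
    refine ⟨γ', T, hT, hγ', hper', ?_⟩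
    calc T ^ 16 * W ≤ (2 * π * R) ^ 16 * W :=
          mul_le_mul_of_nonneg_right (pow_le_pow_left₀ hT.le hle _) hWpos.le
      _ = (2 * π) ^ 16 * (R ^ 16 * W) := by rw [mul_pow]; ring
      _ = (2 * π) ^ 16 * V := by rw [hRn]
  by_contra hcon
  have hno : ∀ (γ : ℝ → Cn 2 × ℝ) (T : ℝ), 0 < T → IsGeodesicS L f h 1 γ →
      (∀ t, γ (t + T) = γ t) → 2 * π * R < T := by
    intro γ T hT hγ hper
    by_contra hle
    exact hcon ⟨γ, T, hT, hγ, hper, not_lt.1 hle⟩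
  obtain ⟨h1, h2⟩ := Sph.action_boundS hf le_rfl hR hno
  have h3 := Pool.Agent.Helper4.CPO.t_6V L R f h hLpos hR hfc hhc
    (fun r hr => hf.f_pos r hr.1 hr.2) (fun r hr => hf.h_pos r hr.1 hr.2) h1 h2
  rw [hRn] at h3
  exact lt_irrefl _ h3

/-- the periodic geodesics of the round metric of `S^16` -/
theorem round_so {γ : ℝ → Oct2 × ℝ} {v T : ℝ} (hv : 0 < v) (hT : 0 < T)
    (hγ : IsGeodesicSO π Real.sin Real.sin v γ) (hper : ∀ t, γ (t + T) = γ t) : 2 * π ≤ v * T := by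
  obtain ⟨r, z, ⟨hr, hz, hn, h1, h2, h3⟩, hγ⟩ := hγ
  refine Pool.Agent.Helper9ST.t_4R 4 γ v T hv hT
    ⟨r, z, hr, hz, hn, hγ, fun t => ?_, fun t => ?_, fun t => ?_⟩ hper
  · rw [h1]
    ring
  · obtain ⟨l, hl⟩ := h2 t
    refine ⟨l, ?_⟩
    have e : momQ Real.sin Real.sin r z = momO Real.sin Real.sin r z := by
      funext t
      unfold momQ momO
      rw [sub_self, zero_smul, zero_smul]
    rw [e, hl, sub_self, zero_smul, zero_smul]
    abel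
  · rw [← h3 t]
    ring

end Pool.Agent.Helper60.CP
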