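import Pool.Agent.Helper60.CP.Geo

/-!
# Explicit closed geodesics
-/

set_option autoImplicit false

open Real Set MeasureTheory
open scoped ContDiff LinearAlgebra.Projectivization

namespace Pool.Agent.Helper60.CP

lemma closed_of {n : ℕ} {L T : ℝ} {r : ℝ → ℝ} {z : ℝ → Cn n} {γ : ℝ → ℙ ℂ (ℂ × Cn n)}
    (hγ : ∀ t, (γ t).submodule = Submodule.span ℂ {vec L (r t) (z t)}) (σ : ℂ) (hσ : σ ≠ 0)
    (h : ∀ t, vec L (r (t + T)) (z (t + T)) = σ • vec L (r t) (z t)) (t : ℝ) : γ (t + T) = γ t := by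
  apply Projectivization.submodule_injective
  rw [hγ, hγ, h, Submodule.span_singleton_smul_eq (IsUnit.mk0 σ hσ)]

lemma ph_add (p : ℝ) (θ : ℝ → ℝ) {s t x : ℝ} (h : θ s = θ t + x) :
    ph p θ s = Complex.exp ((x : ℂ) * Complex.I) * ph p θ t := by
  unfold ph
  rw [h, Complex.ofReal_add, add_mul, Complex.exp_add]
  ring

lemma exp_two_pi : Complex.exp (((2 * π : ℝ) : ℂ) * Complex.I) = 1 := by
  push_cast
  exact Complex.exp_two_pi_mul_I

lemma exp_pi : Complex.exp ((π : ℂ) * Complex.I) = -1 := Complex.exp_pi_mul_I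

lemma exp_neg_pi : Complex.exp (((-π : ℝ) : ℂ) * Complex.I) = -1 := by
  push_cast
  rw [neg_mul, Complex.exp_neg, Complex.exp_pi_mul_I]
  norm_num

section
variable {n : ℕ} (hn : 2 ≤ n) {L : ℝ} {f h : ℝ → ℝ} {r A B : ℝ → ℝ} {K C T : ℝ}

include hn

/-- closed geodesics, first kind: `r` is `T`-periodic -/
theorem geod_a (hC1 : -1 ≤ C) (hC2 : C ≤ 1) (hr : ContDiff ℝ 2 r) (hA : ContDiff ℝ 2 A)
    (hB : ContDiff ℝ 2 B)
    (h1 : ∀ t, deriv (deriv r) t = f (r t) * deriv f (r t) * (deriv A t + C * deriv B t) ^ 2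
      + h (r t) * deriv h (r t) * ((1 - C ^ 2) * deriv B t ^ 2))
    (h2 : ∀ t, h (r t) ^ 2 * deriv B t = K)
    (h3 : ∀ t, f (r t) ^ 2 * (deriv A t + C * deriv B t) = C * K)
    (h4 : ∀ t, deriv r t ^ 2 + f (r t) ^ 2 * (deriv A t + C * deriv B t) ^ 2
      + h (r t) ^ 2 * ((1 - C ^ 2) * deriv B t ^ 2) = 1)
    (hrT : ∀ t, r (t + T) = r t) (hAB : ∀ t, A (t + T) + B (t + T) = A t + B t + 2 * π)
    (hC : C = 1 ∨ ∀ t, A (t + T) - B (t + T) = A t - B t) :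
    ∃ γ : ℝ → ℙ ℂ (ℂ × Cn n), IsGeodesicC L f h 1 γ ∧ ∀ t, γ (t + T) = γ t := by
  obtain ⟨γ, hγ, hs⟩ := geod_gen hn hC1 hC2 hr hA hB h1 h2 h3 h4
  refine ⟨γ, hγ, closed_of hs 1 one_ne_zero fun t => ?_⟩
  have hz : zc hn C A B (t + T) = zc hn C A B t := by
    unfold zc
    have e1 : ph √((1 + C) / 2) (fun t => A t + B t) (t + T) = ph √((1 + C) / 2) (fun t => A t + B t) t := by
      rw [ph_add √((1 + C) / 2) (fun t => A t + B t) (hAB t), exp_two_pi, one_mul]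
    rw [e1]
    rcases hC with hC | hC
    · rw [hC]
      simp [ph]
    · have e2 : ph √((1 - C) / 2) (fun t => A t - B t) (t + T) =
          ph √((1 - C) / 2) (fun t => A t - B t) t := by
        unfold ph
        simp only [hC]
      rw [e2]
  rw [hz, hrT, one_smul]

/-- closed geodesics, second kind: symmetric about the hyperplane -/
theorem geod_b (hL : L ≠ 0) (hr : ContDiff ℝ 2 r) (hB : ContDiff ℝ 2 B)
    (h1 : ∀ t, deriv (deriv r) t = h (r t) * deriv h (r t) * deriv B t ^ 2)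
    (h2 : ∀ t, h (r t) ^ 2 * deriv B t = K)
    (h4 : ∀ t, deriv r t ^ 2 + h (r t) ^ 2 * deriv B t ^ 2 = 1)
    (hrT : ∀ t, r (t + T) = 2 * L - r t) (hBT : ∀ t, B (t + T) = B t + π) :
    ∃ γ : ℝ → ℙ ℂ (ℂ × Cn n), IsGeodesicC L f h 1 γ ∧ ∀ t, γ (t + T) = γ t := by
  obtain ⟨γ, hγ, hs⟩ := geod_gen (f := f) (L := L) hn (C := 0) (A := fun _ => 0) (K := K) (by norm_num)
    (by norm_num) hr contDiff_const hB (fun t => by rw [h1]; simp) h2 (fun t => by simp)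
    (fun t => by have := h4 t; simpa using this)
  refine ⟨γ, hγ, closed_of hs (-1) (by norm_num) fun t => ?_⟩
  have hz : zc hn 0 (fun _ => 0) B (t + T) = (-1 : ℂ) • zc hn 0 (fun _ => 0) B t := by
    unfold zc
    rw [ph_add √((1 + 0) / 2) (fun t => 0 + B t) (s := t + T) (t := t) (x := π) (by
        simp only [hBT]; ring),
      ph_add √((1 - 0) / 2) (fun t => 0 - B t) (s := t + T) (t := t) (x := -π) (by
        simp only [hBT]; ring), exp_pi, exp_neg_pi]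
    module
  have hx : π * r (t + T) / (2 * L) = π - π * r t / (2 * L) := by
    rw [hrT]
    field_simp
  unfold vec
  rw [hz, hx, Real.cos_pi_sub, Real.sin_pi_sub, Prod.smul_mk]
  refine Prod.ext ?_ ?_
  · simp
  · simp only
    module

/-- the meridians -/
theorem meridian (hL : L ≠ 0) :
    ∃ γ : ℝ → ℙ ℂ (ℂ × Cn n), IsGeodesicC L f h 1 γ ∧ ∀ t, γ (t + 2 * L) = γ t := by
  obtain ⟨γ, hγ, hs⟩ := geod_gen (f := f) (h := h) (L := L) hn (C := 0) (A := fun _ => 0)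
    (B := fun _ => 0) (r := fun t => t) (K := 0) (by norm_num)
    (by norm_num) contDiff_id contDiff_const contDiff_const (fun t => by simp)
    (fun t => by simp) (fun t => by simp) (fun t => by simp)
  refine ⟨γ, hγ, closed_of hs (-1) (by norm_num) fun t => ?_⟩
  have hx : π * (t + 2 * L) / (2 * L) = π * t / (2 * L) + π := by
    field_simp
  unfold vec
  rw [hx, Real.cos_add_pi, Real.sin_add_pi, Prod.smul_mk]
  refine Prod.ext ?_ ?_
  · simp
  · simp only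
    have : zc hn 0 (fun _ => 0) (fun _ => 0) (t + 2 * L) = zc hn 0 (fun _ => 0) (fun _ => 0) t := rfl
    rw [this, Complex.ofReal_neg]
    module

end

lemma f_L {L : ℝ} {f h : ℝ → ℝ} (hf : IsProfileC L f h) : f L = 0 := by
  have := hf.f_odd_L 0
  simp only [add_zero, sub_zero] at this
  linarith

lemma f_0 {L : ℝ} {f h : ℝ → ℝ} (hf : IsProfileC L f h) : f 0 = 0 := by
  have := hf.f_odd 0
  simp only [neg_zero] at this
  linarith

lemma h_0 {L : ℝ} {f h : ℝ → ℝ} (hf : IsProfileC L f h) : h 0 = 0 := by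
  have := hf.h_odd 0
  simp only [neg_zero] at this
  linarith

lemma dh_L {L : ℝ} {f h : ℝ → ℝ} (hf : IsProfileC L f h) : deriv h L = 0 := by
  have h1 : deriv (fun r => h (L + r)) 0 = deriv (fun r => h (L - r)) 0 := by
    congr 1
    funext r
    exact hf.h_even_L r
  rw [deriv_comp_const_add, deriv_comp_const_sub] at h1
  simp only [add_zero, sub_zero] at h1
  linarith

lemma d_lin (c : ℝ) : deriv (fun t : ℝ => c * t) = fun _ => c :=
  funext fun t => by simpa using ((hasDerivAt_id t).const_mul c).deriv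

/-- the circles over critical points of `f` -/
theorem circle_f {n : ℕ} (hn : 2 ≤ n) {L : ℝ} {f h : ℝ → ℝ} (hf : IsProfileC L f h) {r₀ : ℝ}
    (h0 : 0 < r₀) (hL : r₀ < L) (hd : deriv f r₀ = 0) :
    ∃ γ : ℝ → ℙ ℂ (ℂ × Cn n), IsGeodesicC L f h 1 γ ∧ ∀ t, γ (t + 2 * π * f r₀) = γ t := by
  have hp : 0 < f r₀ := hf.f_pos _ h0 hL
  have hq : 0 < h r₀ := hf.h_pos _ h0 hL.le
  refine geod_a hn (r := fun _ => r₀) (A := fun t => (1 / f r₀ - f r₀ / h r₀ ^ 2) * t)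
    (B := fun t => (f r₀ / h r₀ ^ 2) * t) (K := f r₀) (C := 1) (by norm_num) le_rfl
    contDiff_const (contDiff_const.mul contDiff_id) (contDiff_const.mul contDiff_id) ?_ ?_ ?_ ?_
    (fun _ => rfl) ?_ (Or.inl rfl)
  · intro t; simp [hd]
  · intro t; rw [d_lin]; field_simp
  · intro t; rw [d_lin, d_lin]; field_simp; ring
  · intro t
    rw [d_lin, d_lin]
    simp only [deriv_const']
    field_simp
    ring
  · intro t
    field_simp
    ring

/-- the lines in the hyperplane -/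
theorem bolt {n : ℕ} (hn : 2 ≤ n) {L : ℝ} {f h : ℝ → ℝ} (hf : IsProfileC L f h) :
    ∃ γ : ℝ → ℙ ℂ (ℂ × Cn n), IsGeodesicC L f h 1 γ ∧ ∀ t, γ (t + π * h L) = γ t := by
  have hq : 0 < h L := hf.h_pos _ hf.pos le_rfl
  refine geod_b hn (r := fun _ => L) (B := fun t => (1 / h L) * t) (K := h L) hf.pos.ne'
    contDiff_const (contDiff_const.mul contDiff_id) ?_ ?_ ?_ ?_ ?_
  · intro t; simp [dh_L hf]
  · intro t; rw [d_lin]; field_simp
  · intro t
    rw [d_lin]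
    simp only [deriv_const']
    field_simp
    norm_num
  · intro t; ring
  · intro t
    field_simp

/-- the homogeneous closed geodesics in the orbits `S^(2n-1)` -/
theorem wtype {n : ℕ} (hn : 2 ≤ n) {L : ℝ} {f h : ℝ → ℝ} (hf : IsProfileC L f h) {r₀ : ℝ}
    (h0 : 0 < r₀) (hL : r₀ < L)
    (hE : (h r₀ ^ 2 - 2 * f r₀ ^ 2) * deriv h r₀ + f r₀ * deriv f r₀ * h r₀ = 0)
    (h2 : 2 * f r₀ ^ 2 ≤ h r₀ ^ 2) :
    ∃ γ : ℝ → ℙ ℂ (ℂ × Cn n), IsGeodesicC L f h 1 γ ∧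
      ∀ t, γ (t + π * (h r₀ ^ 2 / √(h r₀ ^ 2 - f r₀ ^ 2))) = γ t := by
  have hp : 0 < f r₀ := hf.f_pos _ h0 hL
  have hq : 0 < h r₀ := hf.h_pos _ h0 hL.le
  have hD : 0 < h r₀ ^ 2 - f r₀ ^ 2 := by nlinarith
  obtain ⟨K, hK⟩ : ∃ K, √(h r₀ ^ 2 - f r₀ ^ 2) = K := ⟨_, rfl⟩
  have hK0 : 0 < K := by rw [← hK]; exact Real.sqrt_pos.2 hD
  have hK2 : K ^ 2 = h r₀ ^ 2 - f r₀ ^ 2 := by rw [← hK]; exact Real.sq_sqrt hD.le
  rw [hK]
  have hC0 : 0 < f r₀ ^ 2 / K ^ 2 := by positivity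
  have hC1 : f r₀ ^ 2 / K ^ 2 ≤ 1 := by
    rw [div_le_one (by positivity), hK2]
    linarith
  obtain ⟨C, hC⟩ : ∃ C, f r₀ ^ 2 / K ^ 2 = C := ⟨_, rfl⟩
  have hCK : C * K ^ 2 = f r₀ ^ 2 := by rw [← hC]; field_simp
  have hh : h r₀ ^ 2 = K ^ 2 + C * K ^ 2 := by rw [hCK, hK2]; ring
  rw [hC] at hC0 hC1
  -- `1 + C = h² / K²`
  have hB : h r₀ ^ 2 * (K / h r₀ ^ 2) = K := by field_simp
  refine geod_a hn (r := fun _ => r₀) (A := fun t => (K / h r₀ ^ 2) * t)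
    (B := fun t => (K / h r₀ ^ 2) * t) (K := K) (C := C) (by linarith) hC1
    contDiff_const (contDiff_const.mul contDiff_id) (contDiff_const.mul contDiff_id) ?_ ?_ ?_ ?_
    (fun _ => rfl) ?_ (Or.inr fun t => by ring)
  · intro t
    rw [d_lin]
    simp only [deriv_const']
    -- reduce to the equation `hE`
    have e1 : (h r₀ ^ 2 - 2 * f r₀ ^ 2) = (1 - C) * K ^ 2 := by
      rw [hh, ← hCK]; ring
    rw [e1] at hE
    have e2 : (K / h r₀ ^ 2 + C * (K / h r₀ ^ 2)) = (1 + C) * (K / h r₀ ^ 2) := by ring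
    rw [e2, mul_pow]
    have e3 : h r₀ * (f r₀ * deriv f r₀ * (1 + C) + h r₀ * deriv h r₀ * (1 - C)) = 0 := by
      have : h r₀ * (f r₀ * deriv f r₀ * (1 + C) + h r₀ * deriv h r₀ * (1 - C)) =
          (1 + C) * ((1 - C) * K ^ 2 * deriv h r₀ + f r₀ * deriv f r₀ * h r₀) +
          (1 - C) * deriv h r₀ * (h r₀ ^ 2 - (K ^ 2 + C * K ^ 2)) := by ring
      rw [this, hE, hh]
      ring
    have e4 : f r₀ * deriv f r₀ * (1 + C) + h r₀ * deriv h r₀ * (1 - C) = 0 := by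
      rcases mul_eq_zero.1 e3 with h5 | h5
      · exact absurd h5 hq.ne'
      · exact h5
    have e5 : f r₀ * deriv f r₀ * ((1 + C) ^ 2 * (K / h r₀ ^ 2) ^ 2) +
        h r₀ * deriv h r₀ * ((1 - C ^ 2) * (K / h r₀ ^ 2) ^ 2) =
        (1 + C) * (K / h r₀ ^ 2) ^ 2 *
          (f r₀ * deriv f r₀ * (1 + C) + h r₀ * deriv h r₀ * (1 - C)) := by ring
    rw [e5, e4, mul_zero]
  · intro t; rw [d_lin]; exact hB
  · intro t
    rw [d_lin]
    simp only
    rw [← hCK]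
    have : C * K ^ 2 * (K / h r₀ ^ 2 + C * (K / h r₀ ^ 2)) =
        C * K * ((K ^ 2 + C * K ^ 2) * (1 / h r₀ ^ 2)) := by ring
    rw [this, ← hh]
    field_simp
  · intro t
    rw [d_lin]
    simp only [deriv_const']
    rw [← hCK]
    have : (0 : ℝ) ^ 2 + C * K ^ 2 * (K / h r₀ ^ 2 + C * (K / h r₀ ^ 2)) ^ 2 +
        h r₀ ^ 2 * ((1 - C ^ 2) * (K / h r₀ ^ 2) ^ 2) =
        C * ((K ^ 2 + C * K ^ 2) * (1 / h r₀ ^ 2)) ^ 2 +
        (1 - C) * ((K ^ 2 + C * K ^ 2) * (1 / h r₀ ^ 2)) * (h r₀ ^ 2 * (1 / h r₀ ^ 2)) := by ring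
    rw [this, ← hh]
    field_simp
    ring
  · intro t
    have e : K / h r₀ ^ 2 * (t + π * (h r₀ ^ 2 / K)) = K / h r₀ ^ 2 * t + π := by
      field_simp
    rw [e]
    ring

end Pool.Agent.Helper60.CP
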