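import Pool.Agent.Helper60.CP.Stm3

/-!
# Geodesics of `Sp(n)Sp(1)`-invariant metrics on `ℍP^n` and `S^(4n)`
-/

set_option autoImplicit false

open Real Set MeasureTheory
open scoped ContDiff LinearAlgebra.Projectivization Quaternion

namespace Pool.Agent.Helper60.CP

/-- quaternionic `n`-space -/
abbrev Hn (n : ℕ) : Type := PiLp 2 (fun _ : Fin n => ℍ[ℝ])

/-- Homogeneous coordinates `[cos (πr/2L) : sin (πr/2L) z]` of the point of `ℍP^n` with coordinates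
`(r, z)`, `z ∈ S^(4n-1)`. -/
noncomputable def vecQ {n : ℕ} (L r : ℝ) (z : Hn n) : ℍ[ℝ] × Hn n :=
  ((Real.cos (π * r / (2 * L)) : ℍ[ℝ]), Real.sin (π * r / (2 * L)) • z)

/-- The vertical part of `w ∈ T_z S^(4n-1)`, an imaginary quaternion: `ν_z(w) = Im ∑ w_j conj(z_j)`. -/
noncomputable def nu {n : ℕ} (z w : Hn n) : ℍ[ℝ] := (∑ j, w j * star (z j)).im

/-- The momentum `h² z' + (f² - h²) ν(z') z`. -/
noncomputable def momQ {n : ℕ} (f h r : ℝ → ℝ) (z : ℝ → Hn n) (t : ℝ) : Hn n :=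
  h (r t) ^ 2 • deriv z t + (f (r t) ^ 2 - h (r t) ^ 2) • (nu (z t) (deriv z t) • z t)

/-- `γ` is a geodesic of speed `v` of the metric `dr² + f² |ν|² + h² (|dz|² - |ν|²)` on `ℍP^n`. -/
def IsGeodesicQ {n : ℕ} (L : ℝ) (f h : ℝ → ℝ) (v : ℝ) (γ : ℝ → ℙ ℍ[ℝ] (ℍ[ℝ] × Hn n)) : Prop :=
  ∃ (r : ℝ → ℝ) (z : ℝ → Hn n), ContDiff ℝ 2 r ∧ ContDiff ℝ 2 z ∧ (∀ t, ‖z t‖ = 1) ∧
    (∀ t, (γ t).submodule = Submodule.span ℍ[ℝ] {vecQ L (r t) (z t)}) ∧
    (∀ t, deriv (deriv r) t = f (r t) * deriv f (r t) * ‖nu (z t) (deriv z t)‖ ^ 2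
      + h (r t) * deriv h (r t) * (‖deriv z t‖ ^ 2 - ‖nu (z t) (deriv z t)‖ ^ 2)) ∧
    (∀ t, ∃ l : ℝ, deriv (momQ f h r z) t +
      (f (r t) ^ 2 - h (r t) ^ 2) • (nu (z t) (deriv z t) • deriv z t) = l • z t) ∧
    (∀ t, deriv r t ^ 2 + f (r t) ^ 2 * ‖nu (z t) (deriv z t)‖ ^ 2
      + h (r t) ^ 2 * (‖deriv z t‖ ^ 2 - ‖nu (z t) (deriv z t)‖ ^ 2) = v ^ 2)

/-- `γ` is a geodesic of speed `v` of the metric `dr² + f² |ν|² + h² (|dz|² - |ν|²)` on
`S^(4n) ⊂ ℍ^n × ℝ`, written in extended coordinates `(r, z)`. -/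
def IsGeodesicSQ {n : ℕ} (L : ℝ) (f h : ℝ → ℝ) (v : ℝ) (γ : ℝ → Hn n × ℝ) : Prop :=
  ∃ (r : ℝ → ℝ) (z : ℝ → Hn n), ContDiff ℝ 2 r ∧ ContDiff ℝ 2 z ∧ (∀ t, ‖z t‖ = 1) ∧
    (∀ t, γ t = (Real.sin (π * r t / L) • z t, Real.cos (π * r t / L))) ∧
    (∀ t, deriv (deriv r) t = f (r t) * deriv f (r t) * ‖nu (z t) (deriv z t)‖ ^ 2
      + h (r t) * deriv h (r t) * (‖deriv z t‖ ^ 2 - ‖nu (z t) (deriv z t)‖ ^ 2)) ∧
    (∀ t, ∃ l : ℝ, deriv (momQ f h r z) t +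
      (f (r t) ^ 2 - h (r t) ^ 2) • (nu (z t) (deriv z t) • deriv z t) = l • z t) ∧
    (∀ t, deriv r t ^ 2 + f (r t) ^ 2 * ‖nu (z t) (deriv z t)‖ ^ 2
      + h (r t) ^ 2 * (‖deriv z t‖ ^ 2 - ‖nu (z t) (deriv z t)‖ ^ 2) = v ^ 2)

/-- the embedding of `ℂ^n` in `ℍ^n` -/
noncomputable def iota {n : ℕ} : Cn n →ₗ[ℝ] Hn n where
  toFun v := WithLp.toLp 2 (fun j => ((v j : ℂ) : ℍ[ℝ]))
  map_add' v w := by
    ext j <;> simp
  map_smul' c v := by
    ext j <;> simp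

lemma iota_apply {n : ℕ} (v : Cn n) (j : Fin n) : (iota v) j = ((v j : ℂ) : ℍ[ℝ]) := rfl

lemma norm_coeC (c : ℂ) : ‖((c : ℂ) : ℍ[ℝ])‖ = ‖c‖ := by
  have h1 : ‖((c : ℂ) : ℍ[ℝ])‖ ^ 2 = ‖c‖ ^ 2 := by
    rw [← Complex.normSq_eq_norm_sq, sq, ← Quaternion.normSq_eq_norm_mul_self, Quaternion.normSq_def',
      Complex.normSq_apply]
    simp
    ring
  have h2 := norm_nonneg ((c : ℂ) : ℍ[ℝ])
  have h3 := norm_nonneg c
  exact (pow_left_inj₀ h2 h3 two_ne_zero).1 h1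

lemma norm_iota {n : ℕ} (v : Cn n) : ‖iota v‖ = ‖v‖ := by
  rw [PiLp.norm_eq_of_L2, EuclideanSpace.norm_eq]
  simp only [iota_apply, norm_coeC]

lemma iota_smul {n : ℕ} (c : ℂ) (v : Cn n) : iota (c • v) = (c : ℍ[ℝ]) • iota v := by
  ext j <;> simp [iota_apply]

lemma star_coeC (c : ℂ) : star ((c : ℂ) : ℍ[ℝ]) = (((starRingEnd ℂ) c : ℂ) : ℍ[ℝ]) := by
  ext <;> simp

lemma sum_iota {n : ℕ} (z w : Cn n) :
    ∑ j, (iota w) j * star ((iota z) j) = ((inner ℂ z w : ℂ) : ℍ[ℝ]) := by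
  rw [PiLp.inner_apply]
  have h1 : ((∑ j, inner ℂ (z j) (w j) : ℂ) : ℍ[ℝ]) = ∑ j, ((inner ℂ (z j) (w j) : ℂ) : ℍ[ℝ]) := by
    rw [← Quaternion.coe_ofComplex, map_sum]
  rw [h1]
  refine Finset.sum_congr rfl fun j _ => ?_
  rw [iota_apply, iota_apply, star_coeC, ← Quaternion.coeComplex_mul]
  rfl

lemma nu_iota {n : ℕ} (z w : Cn n) :
    nu (iota z) (iota w) = ((((eta z w : ℝ) : ℂ) * Complex.I : ℂ) : ℍ[ℝ]) := by
  unfold nu eta
  rw [sum_iota]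
  ext <;> simp

lemma norm_nu_iota {n : ℕ} (z w : Cn n) : ‖nu (iota z) (iota w)‖ ^ 2 = eta z w ^ 2 := by
  rw [nu_iota, norm_coeC, norm_mul, Complex.norm_I, mul_one, Complex.norm_real, Real.norm_eq_abs, sq_abs]

lemma coeC_real_smul {n : ℕ} (c : ℝ) (v : Cn n) : iota (((c : ℝ) : ℂ) • v) = c • iota v := by
  rw [Complex.coe_smul, map_smul]

/-- the continuous linear version of `iota` -/
noncomputable def iotaL {n : ℕ} : Cn n →L[ℝ] Hn n := LinearMap.toContinuousLinearMap iota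

lemma iotaL_apply {n : ℕ} (v : Cn n) : iotaL v = iota v := rfl

lemma deriv_iota {n : ℕ} {z : ℝ → Cn n} {t : ℝ} (hz : DifferentiableAt ℝ z t) :
    deriv (fun t => iota (z t)) t = iota (deriv z t) := by
  have h1 : HasDerivAt (fun t => iotaL (z t)) (iotaL (deriv z t)) t :=
    (iotaL (n := n)).hasFDerivAt.comp_hasDerivAt t hz.hasDerivAt
  exact h1.deriv

/-- the equations of the lift of a geodesic from `ℂ^n` to `ℍ^n` -/
theorem lift_eqs {n : ℕ} {f h : ℝ → ℝ} (hf : ContDiff ℝ ∞ f) (hh : ContDiff ℝ ∞ h) {v : ℝ}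
    {r : ℝ → ℝ} {z : ℝ → Cn n} (hr : ContDiff ℝ 2 r) (hz : ContDiff ℝ 2 z)
    (h1 : ∀ t, deriv (deriv r) t = f (r t) * deriv f (r t) * eta (z t) (deriv z t) ^ 2
      + h (r t) * deriv h (r t) * (‖deriv z t‖ ^ 2 - eta (z t) (deriv z t) ^ 2))
    (h2 : ∀ t, ∃ l : ℝ, deriv (mom f h r z) t +
      (((f (r t) ^ 2 - h (r t) ^ 2) * eta (z t) (deriv z t) : ℝ) : ℂ) • (Complex.I • deriv z t)
        = (l : ℂ) • z t)
    (h3 : ∀ t, deriv r t ^ 2 + f (r t) ^ 2 * eta (z t) (deriv z t) ^ 2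
      + h (r t) ^ 2 * (‖deriv z t‖ ^ 2 - eta (z t) (deriv z t) ^ 2) = v ^ 2) :
    ContDiff ℝ 2 (fun t => iota (z t)) ∧
    (∀ t, deriv (deriv r) t = f (r t) * deriv f (r t) *
        ‖nu (iota (z t)) (deriv (fun t => iota (z t)) t)‖ ^ 2
      + h (r t) * deriv h (r t) * (‖deriv (fun t => iota (z t)) t‖ ^ 2 -
        ‖nu (iota (z t)) (deriv (fun t => iota (z t)) t)‖ ^ 2)) ∧
    (∀ t, ∃ l : ℝ, deriv (momQ f h r (fun t => iota (z t))) t +
      (f (r t) ^ 2 - h (r t) ^ 2) • (nu (iota (z t)) (deriv (fun t => iota (z t)) t) •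
        deriv (fun t => iota (z t)) t) = l • iota (z t)) ∧
    (∀ t, deriv r t ^ 2 + f (r t) ^ 2 * ‖nu (iota (z t)) (deriv (fun t => iota (z t)) t)‖ ^ 2
      + h (r t) ^ 2 * (‖deriv (fun t => iota (z t)) t‖ ^ 2 -
        ‖nu (iota (z t)) (deriv (fun t => iota (z t)) t)‖ ^ 2) = v ^ 2) := by
  obtain ⟨hz1, hz2⟩ := cd2 hz
  have hd : ∀ t, deriv (fun t => iota (z t)) t = iota (deriv z t) := fun t =>
    deriv_iota (hz1 t).differentiableAt
  have hmom : momQ f h r (fun t => iota (z t)) = fun t => iota (mom f h r z t) := by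
    funext t
    unfold momQ mom
    rw [hd, nu_iota, ← iota_smul, ← coeC_real_smul, ← coeC_real_smul, ← map_add]
    congr 2
    rw [smul_smul, smul_smul]
    congr 1
    push_cast
    ring
  have hznu : ∀ t, nu (iota (z t)) (deriv (fun t => iota (z t)) t) =
      ((((eta (z t) (deriv z t) : ℝ) : ℂ) * Complex.I : ℂ) : ℍ[ℝ]) := fun t => by rw [hd, nu_iota]
  have hnn : ∀ t, ‖nu (iota (z t)) (deriv (fun t => iota (z t)) t)‖ ^ 2 =
      eta (z t) (deriv z t) ^ 2 := fun t => by rw [hd, norm_nu_iota]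
  have hnd : ∀ t, ‖deriv (fun t => iota (z t)) t‖ = ‖deriv z t‖ := fun t => by rw [hd, norm_iota]
  have hdm : ∀ t, DifferentiableAt ℝ (mom f h r z) t := by
    intro t
    have hf1 : HasDerivAt (fun t => f (r t)) (deriv f (r t) * deriv r t) t :=
      ((hf.differentiable (by simp)).differentiableAt.hasDerivAt).comp t ((cd2 hr).1 t)
    have hh1 : HasDerivAt (fun t => h (r t)) (deriv h (r t) * deriv r t) t :=
      ((hh.differentiable (by simp)).differentiableAt.hasDerivAt).comp t ((cd2 hr).1 t)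
    have he : DifferentiableAt ℝ (fun t => eta (z t) (deriv z t)) t := by
      unfold eta
      have h5 : DifferentiableAt ℝ (fun t => (inner ℂ (z t) (deriv z t) : ℂ)) t :=
        ((hz1 t).inner ℂ (hz2 t)).differentiableAt
      exact (Complex.imCLM.differentiableAt).comp t h5
    have k1 : DifferentiableAt ℝ (fun t => ((h (r t) ^ 2 : ℝ) : ℂ)) t :=
      (Complex.ofRealCLM.differentiableAt (x := h (r t) ^ 2)).comp t (hh1.differentiableAt.pow 2)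
    have k2 : DifferentiableAt ℝ
        (fun t => (((f (r t) ^ 2 - h (r t) ^ 2) * eta (z t) (deriv z t) : ℝ) : ℂ)) t :=
      (Complex.ofRealCLM.differentiableAt
        (x := (f (r t) ^ 2 - h (r t) ^ 2) * eta (z t) (deriv z t))).comp t
        (((hf1.differentiableAt.pow 2).sub (hh1.differentiableAt.pow 2)).mul he)
    have k3 : DifferentiableAt ℝ (fun t => (Complex.I • z t : Cn n)) t :=
      (hz1 t).differentiableAt.const_smul Complex.I
    have k4 : DifferentiableAt ℝ (fun t => ((h (r t) ^ 2 : ℝ) : ℂ) • deriv z t) t :=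
      k1.smul (hz2 t).differentiableAt
    have k5 : DifferentiableAt ℝ (fun t =>
        (((f (r t) ^ 2 - h (r t) ^ 2) * eta (z t) (deriv z t) : ℝ) : ℂ) • (Complex.I • z t : Cn n)) t :=
      k2.smul k3
    have k6 := k4.add k5
    unfold mom
    exact k6
  refine ⟨(iotaL (n := n)).contDiff.comp hz, ?_, ?_, ?_⟩
  · intro t
    rw [hnn, hnd, h1]
  · intro t
    obtain ⟨l, hl⟩ := h2 t
    refine ⟨l, ?_⟩
    rw [hmom, deriv_iota (hdm t), hznu, hd, ← iota_smul, ← coeC_real_smul, ← map_add,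
      ← coeC_real_smul, ← hl]
    congr 2
    rw [smul_smul, smul_smul]
    congr 1
    push_cast
    ring
  · intro t
    rw [hnn, hnd, h3]

/-- `ℂP^n` is totally geodesic in `ℍP^n`. -/
theorem lift_geodesic {n : ℕ} {L : ℝ} {f h : ℝ → ℝ} (hf : ContDiff ℝ ∞ f) (hh : ContDiff ℝ ∞ h) {v : ℝ}
    {γ : ℝ → ℙ ℂ (ℂ × Cn n)} {T : ℝ} (hγ : IsGeodesicC L f h v γ) (hper : ∀ t, γ (t + T) = γ t) :
    ∃ γ' : ℝ → ℙ ℍ[ℝ] (ℍ[ℝ] × Hn n), IsGeodesicQ L f h v γ' ∧ ∀ t, γ' (t + T) = γ' t := by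
  obtain ⟨r, z, hr, hz, hn, hs, h1, h2, h3⟩ := hγ
  obtain ⟨g1, g2, g3, g4⟩ := lift_eqs hf hh hr hz h1 h2 h3
  have hne : ∀ t, vecQ L (r t) (iota (z t)) ≠ 0 := by
    intro t h0
    have e1 := congrArg Prod.fst h0
    have e2 := congrArg Prod.snd h0
    simp only [vecQ, Prod.fst_zero, Prod.snd_zero] at e1 e2
    have e3 : Real.cos (π * r t / (2 * L)) = 0 := by
      have := congrArg QuaternionAlgebra.re e1
      simpa using this
    have e4 : iota (z t) ≠ 0 := by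
      intro h5
      have := norm_iota (z t)
      rw [h5, norm_zero, hn] at this
      exact zero_ne_one this
    rcases smul_eq_zero.1 e2 with e5 | e5
    · have := Real.sin_sq_add_cos_sq (π * r t / (2 * L))
      rw [e3, e5] at this
      norm_num at this
    · exact e4 e5
  have hvec : ∀ t, vecQ L (r t) (iota (z t)) =
      (((vec L (r t) (z t)).1 : ℍ[ℝ]), iota (vec L (r t) (z t)).2) := by
    intro t
    simp only [vec, vecQ, coeC_real_smul, Quaternion.coeComplex_coe]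
  refine ⟨fun t => Projectivization.mk ℍ[ℝ] (vecQ L (r t) (iota (z t))) (hne t),
    ⟨r, fun t => iota (z t), hr, g1, fun t => by rw [norm_iota, hn],
      fun t => Projectivization.submodule_mk _ _, g2, g3, g4⟩, ?_⟩
  intro t
  apply Projectivization.submodule_injective
  rw [Projectivization.submodule_mk, Projectivization.submodule_mk]
  have e1 := hs t
  have e2 := hs (t + T)
  rw [hper t, e1] at e2
  have e3 : vec L (r (t + T)) (z (t + T)) ∈ Submodule.span ℂ {vec L (r t) (z t)} := by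
    rw [e2]
    exact Submodule.mem_span_singleton_self _
  obtain ⟨c, hc⟩ := Submodule.mem_span_singleton.1 e3
  have hc0 : c ≠ 0 := by
    intro h5
    rw [h5, zero_smul] at hc
    exact vec_ne L (r (t + T)) (hn (t + T)) hc.symm
  have e4 : vecQ L (r (t + T)) (iota (z (t + T))) = (c : ℍ[ℝ]) • vecQ L (r t) (iota (z t)) := by
    rw [hvec, hvec, ← hc, Prod.smul_mk]
    simp only [smul_eq_mul, Quaternion.coeComplex_mul, iota_smul]
    rfl
  have hc1 : ((c : ℂ) : ℍ[ℝ]) ≠ 0 := by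
    intro h5
    have := norm_coeC c
    rw [h5, norm_zero] at this
    exact hc0 (norm_eq_zero.1 this.symm)
  rw [e4, Submodule.span_singleton_smul_eq (IsUnit.mk0 _ hc1)]

/-- `S^(2n)` is totally geodesic in `S^(4n)`. -/
theorem lift_geodesicS {n : ℕ} {L : ℝ} {f h : ℝ → ℝ} (hf : ContDiff ℝ ∞ f) (hh : ContDiff ℝ ∞ h)
    {v : ℝ} {γ : ℝ → Cn n × ℝ} {T : ℝ} (hγ : IsGeodesicS L f h v γ) (hper : ∀ t, γ (t + T) = γ t) :
    ∃ γ' : ℝ → Hn n × ℝ, IsGeodesicSQ L f h v γ' ∧ ∀ t, γ' (t + T) = γ' t := by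
  obtain ⟨r, z, hr, hz, hn, hs, h1, h2, h3⟩ := hγ
  obtain ⟨g1, g2, g3, g4⟩ := lift_eqs hf hh hr hz h1 h2 h3
  refine ⟨fun t => (iota (γ t).1, (γ t).2),
    ⟨r, fun t => iota (z t), hr, g1, fun t => by rw [norm_iota, hn], fun t => ?_, g2, g3, g4⟩,
    fun t => by simp only [hper]⟩
  simp only [hs]
  rw [← coeC_real_smul]

end Pool.Agent.Helper60.CP
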