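import Pool.Agent.Helper60.CP.Stm2

/-!
# Quaternionic versions: volume bounds for the exponents `3` and `4n - 4`
-/

set_option autoImplicit false

open Real Set MeasureTheory
open scoped ContDiff

namespace Pool.Agent.Helper60.CP

open Pool.Agent.H206R2.Rot2 (Veff well actW)

/-- PART 3V: volume bound for `ℍP^n`. -/
def S3_V : Prop := ∀ (L R : ℝ) (f h : ℝ → ℝ) (n : ℕ), 2 ≤ n → 0 < L → 0 < R →
  Continuous f → Continuous h → (∀ r ∈ Ioo 0 L, 0 < f r) → (∀ r ∈ Ioo 0 L, 0 < h r) →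
  (∃ r ∈ Ioo 0 L, R < h r) →
  (∀ c ∈ Reg R, π * (R - c.1 - KK c) ≤ 2 * ∫ r in Ioo 0 L, √(1 - Veff f h c.1 c.2 r)) →
  R ^ (4 * n) < 4 * n * (2 * n + 1) * ∫ r in (0 : ℝ)..L, f r ^ 3 * h r ^ (4 * n - 4)

/-- PART 4V: volume bound for `S^(4n)`. -/
def S4_V : Prop := ∀ (L R : ℝ) (f h : ℝ → ℝ) (n : ℕ), 2 ≤ n → 0 < L → 0 < R →
  Continuous f → Continuous h → (∀ r ∈ Ioo 0 L, 0 < f r) → (∀ r ∈ Ioo 0 L, 0 < h r) →
  (∃ r ∈ Ioo 0 L, R < h r) →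
  (∀ c ∈ Dsk R, 2 * π * (R - KK c) ≤ 2 * ∫ r in Ioo 0 L, √(1 - Veff f h c.1 c.2 r)) →
  R ^ (4 * n) * (∫ t in (0 : ℝ)..π, Real.sin t ^ (4 * n - 1))
    < ∫ r in (0 : ℝ)..L, f r ^ 3 * h r ^ (4 * n - 4)

end Pool.Agent.Helper60.CP
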