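import Pool.Agent.Helper60.CP.SMain
import Pool.Agent.Helper60.CP.QGeo
import Pool.Agent.Helper65.CPR.V4

/-!
# Short periodic geodesics of `Sp(n)Sp(1)`-invariant metrics on `ℍP^n` and `S^(4n)`
-/

set_option autoImplicit false

open Real Set MeasureTheory
open scoped ContDiff LinearAlgebra.Projectivization Topology Quaternion

namespace Pool.Agent.Helper60.CP

open Pool.Agent.H206R2.Rot2 (Veff well actW)

section
open Asm

theorem action_bound {L R : ℝ} {f h : ℝ → ℝ} (hf : IsProfileC L f h) {n : ℕ} (hn : 2 ≤ n)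
    (hR : 0 < R) (hno : Long n L f h R) :
    (∃ r ∈ Ioo 0 L, R < h r) ∧
      ∀ c ∈ Reg R, π * (R - c.1 - KK c) ≤ 2 * ∫ r in Ioo 0 L, √(1 - Veff f h c.1 c.2 r) := by
  have hE := Pool.Agent.Helper93.CPE.t_E
  have hO := Pool.Agent.Helper74.CP.O.t_O
  have hM := Pool.Agent.Helper60.CP.M.t_M
  have hCr := Pool.Agent.Helper74.CP.C.t_C
  have hS := Pool.Agent.Helper44.CP.t_S
  have hT := Pool.Agent.Helper44.CP.t_T
  have hfc : Continuous f := hf.smooth_f.continuous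
  have hhc : Continuous h := hf.smooth_h.continuous
  have hLpos := hf.pos
  have hpi := Real.pi_pos
  -- explicit closed geodesics
  have hL2 : π * R < 2 * L := by
    obtain ⟨γ, hγ, hper⟩ := meridian (n := n) (f := f) (h := h) hn hLpos.ne'
    exact hno γ _ (by linarith) hγ hper
  have hRh : R < h L := by
    obtain ⟨γ, hγ, hper⟩ := bolt hn hf
    have := hf.h_pos L hLpos le_rfl
    exact lt_of_mul_lt_mul_left (hno γ _ (by positivity) hγ hper) hpi.le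
  have hcf : ∀ r ∈ Ioo 0 L, deriv f r = 0 → R / 2 < f r := by
    intro r hr h2
    obtain ⟨γ, hγ, hper⟩ := circle_f hn hf hr.1 hr.2 h2
    have hfr := hf.f_pos r hr.1 hr.2
    have h3 := hno γ _ (by positivity) hγ hper
    have h4 : π * R < π * (2 * f r) := by linarith
    have h5 := lt_of_mul_lt_mul_left h4 hpi.le
    linarith
  have hcw : ∀ r ∈ Ioo 0 L, (h r ^ 2 - 2 * f r ^ 2) * deriv h r + f r * deriv f r * h r = 0 →
      2 * f r ^ 2 ≤ h r ^ 2 → R ^ 2 * (h r ^ 2 - f r ^ 2) < h r ^ 4 := by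
    intro r hr h1 h2
    obtain ⟨γ, hγ, hper⟩ := wtype hn hf hr.1 hr.2 h1 h2
    have hfr := hf.f_pos r hr.1 hr.2
    have hhr := hf.h_pos r hr.1 hr.2.le
    have hD : 0 < h r ^ 2 - f r ^ 2 := by nlinarith
    have hs := Real.sqrt_pos.2 hD
    have hs2 := Real.sq_sqrt hD.le
    have h3 := lt_of_mul_lt_mul_left (hno γ _ (by positivity) hγ hper) hpi.le
    rw [lt_div_iff₀ hs] at h3
    have h4 : (R * √(h r ^ 2 - f r ^ 2)) ^ 2 < (h r ^ 2) ^ 2 :=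
      pow_lt_pow_left₀ h3 (by positivity) two_ne_zero
    rw [mul_pow, hs2] at h4
    calc R ^ 2 * (h r ^ 2 - f r ^ 2) < (h r ^ 2) ^ 2 := h4
      _ = h r ^ 4 := by ring
  obtain ⟨S, a, hRS, ha, haL, hfa, hdec, hSh, hwS⟩ := hT L R f h hf hR hcf hRh hcw
  obtain ⟨s, b, ρ, η, hab, hbL, hη, hρ, hhb, hs, hsI, hsρ, hsf, hsb⟩ :=
    hS L R S a f h hf hR hRS ha haL hfa hdec hSh hwS
  have hs1 : ∀ c ∈ Reg R, Veff f h c.1 c.2 (s c) < 1 := fun c hc => (hsρ c hc).trans_lt hρ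
  by_cases hneg : ∃ c ∈ Reg R, Dc L R f h s c < 0
  swap
  · push Not at hneg
    have hRr : ∃ r ∈ Ioo 0 L, R < h r := ⟨b, ⟨ha.trans hab, hbL⟩, hRS.trans_le (hhb b ⟨le_rfl, hbL.le⟩)⟩
    refine ⟨hRr, fun c hc => ?_⟩
    have h2 := hneg c hc
    have h3 := actW_le (L := L) hfc hhc c.1 c.2 (s c)
    unfold Dc at h2
    linarith
  exfalso
  obtain ⟨c, hc, hDneg, hmin⟩ := hM L R S a b ρ η f h s hf hR hRS ha hab hbL hη hρ hfa hdec hhb hs hsI
    hsρ hsf hsb hL2.le (edge_f hE hf hn hR hRS ha haL hfa hL2.le hno)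
    (edge_h hE hO hf hn hR hRh hL2.le hno) hneg
  obtain ⟨p, q, hp, hps, hsq, hq, hVp, hVq, hw, hin, hp', hq', hint, hΦ1, hΦ2⟩ :=
    hCr L R f h s c hf hR hs (fun c h1 h2 => ⟨ha.trans_le (hsI c h1 h2).1, (hsI c h1 h2).2.trans_lt hbL⟩)
      hs1 hc hmin
  have hc1 : 0 < c.1 := hc.1
  have hc2 : 0 < c.2 := hc.2.1
  have hpq : p < q := hps.trans hsq
  have hfne : ∀ x ∈ Icc p q, f x ≠ 0 := fun x hx =>
    (hf.f_pos x (hp.trans_le hx.1) (hx.2.trans_lt hq)).ne'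
  have hhne : ∀ x ∈ Icc p q, h x ≠ 0 := fun x hx =>
    (hf.h_pos x (hp.trans_le hx.1) (hx.2.trans hq.le)).ne'
  obtain ⟨γ, hγ, hTpos, hper⟩ := orbit_main hf hn hc1 hc2 hp hpq hq hVp hVq hin hp' hq' hΦ1 hΦ2
  have h1 := hno γ _ hTpos hγ hper
  rw [T_id hfc hhc hfne hhne hin hint, hΦ1, hΦ2] at h1
  unfold Dc at hDneg
  rw [actW, hw] at hDneg
  have hK0 := KK_pos (c := c) hc1
  have hK2 := KK_sq c
  have h3 : c.1 * (π * (1 + c.1 / KK c)) + c.2 * (π * (c.2 / KK c)) = π * (c.1 + KK c) := by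
    field_simp
    linear_combination -hK2
  nlinarith

end


namespace Sph
open Asm

theorem action_boundS {L R : ℝ} {f h : ℝ → ℝ} (hf : IsProfileS L f h) {n : ℕ} (hn : 2 ≤ n)
    (hR : 0 < R) (hno : ∀ (γ : ℝ → Cn n × ℝ) (T : ℝ), 0 < T → IsGeodesicS L f h 1 γ →
      (∀ t, γ (t + T) = γ t) → 2 * π * R < T) :
    (∃ r ∈ Ioo 0 L, R < h r) ∧
      ∀ c ∈ Dsk R, 2 * π * (R - KK c) ≤ 2 * ∫ r in Ioo 0 L, √(1 - Veff f h c.1 c.2 r) := by
  have hE := Pool.Agent.Helper93.CPE.t_E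
  have hM := Pool.Agent.Helper44.CP.t2_M
  have hCr := Pool.Agent.Helper97.CPS.t_2C
  have hT := Pool.Agent.Helper64.CP.t_2T
  have hfc : Continuous f := hf.smooth_f.continuous
  have hhc : Continuous h := hf.smooth_h.continuous
  have hLpos := hf.pos
  have hpi := Real.pi_pos
  have h2π : 0 < 2 * π := by positivity
  have hL2 : π * R < L := by
    obtain ⟨γ, hγ, hper⟩ := meridian_s (n := n) (f := f) (h := h) hn hLpos.ne'
    have := hno γ _ (by linarith) hγ hper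
    linarith
  have hcf : ∀ r ∈ Ioo 0 L, deriv f r = 0 → R < f r := by
    intro r hr h2
    obtain ⟨γ, hγ, hper⟩ := circle_f hn hf hr.1 hr.2 h2
    have hfr := hf.f_pos r hr.1 hr.2
    exact lt_of_mul_lt_mul_left (hno γ _ (by positivity) hγ hper) h2π.le
  have hch : ∀ r ∈ Ioo 0 L, deriv h r = 0 → R < h r := by
    intro r hr h2
    obtain ⟨γ, hγ, hper⟩ := circle_h hn hf hr.1 hr.2 h2
    have hfr := hf.h_pos r hr.1 hr.2
    exact lt_of_mul_lt_mul_left (hno γ _ (by positivity) hγ hper) h2π.le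
  have hcx : ∀ r ∈ Ioo 0 L, f r = h r → deriv f r * deriv h r < 0 → R < f r := by
    intro r hr h1 h2
    obtain ⟨γ, hγ, hper⟩ := crossing hn hf hr.1 hr.2 h1 h2
    have hfr := hf.f_pos r hr.1 hr.2
    exact lt_of_mul_lt_mul_left (hno γ _ (by positivity) hγ hper) h2π.le
  obtain ⟨s₀, hs₀, hsf, hsh⟩ := hT L R f h hf hR hcf hch hcx
  by_cases hneg : ∃ c ∈ Dsk R, Ds L R f h s₀ c < 0
  swap
  · push Not at hneg
    refine ⟨⟨s₀, hs₀, hsh⟩, fun c hc => ?_⟩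
    have h2 := hneg c hc
    have h3 := actW_le (L := L) hfc hhc c.1 c.2 s₀
    unfold Ds at h2
    linarith
  have hEf : ∀ t ∈ Ioo 0 R, 2 * π * (R - t) ≤ actW L (fun x => (t / f x) ^ 2) s₀ := fun t ht =>
    hE L s₀ R f hLpos hf.smooth_f (fun x hx => hf.f_pos x hx.1 hx.2) (f_0 hf) (f_L hf) hs₀ hR hsf
      hL2.le (fun c p q hc _ hp hpa haq hq hfp hfq hin hp' hq' _ hΦ => by
        obtain ⟨γ, hγ, hT, hper⟩ := orbit_f hf hn hc hp (hpa.trans haq) hq hfp hfq hin hp' hq' hΦ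
        exact (hno γ _ hT hγ hper).le) t ht.1 ht.2
  have hEh : ∀ t ∈ Ioo 0 R, 2 * π * (R - t) ≤ actW L (fun x => (t / h x) ^ 2) s₀ := fun t ht =>
    hE L s₀ R h hLpos hf.smooth_h (fun x hx => hf.h_pos x hx.1 hx.2) (h_0 hf) (h_L hf) hs₀ hR hsh
      hL2.le (fun c p q hc _ hp hpa haq hq hfp hfq hin hp' hq' _ hΦ => by
        obtain ⟨γ, hγ, hT, hper⟩ := orbit_h hf hn hc hp (hpa.trans haq) hq hfp hfq hin hp' hq' hΦ
        exact (hno γ _ hT hγ hper).le) t ht.1 ht.2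
  exfalso
  obtain ⟨c, hc, hDneg, hmin⟩ := hM L R s₀ f h hf hR hs₀ hsf hsh hL2.le hEf hEh hneg
  obtain ⟨p, q, hp, hps, hsq, hq, hVp, hVq, hw, hin, hp', hq', hint, hΦ1, hΦ2⟩ :=
    hCr L R s₀ f h c hf hR hs₀ hsf hsh hc hmin
  have hc1 : 0 < c.1 := hc.1
  have hc2 : 0 < c.2 := hc.2.1
  have hpq : p < q := hps.trans hsq
  have hfne : ∀ x ∈ Icc p q, f x ≠ 0 := fun x hx =>
    (hf.f_pos x (hp.trans_le hx.1) (hx.2.trans_lt hq)).ne'
  have hhne : ∀ x ∈ Icc p q, h x ≠ 0 := fun x hx =>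
    (hf.h_pos x (hp.trans_le hx.1) (hx.2.trans_lt hq)).ne'
  obtain ⟨γ, hγ, hTpos, hper⟩ := orbit_main hf hn hc1 hc2 hp hpq hq hVp hVq hin hp' hq' hΦ1 hΦ2
  have h1 := hno γ _ hTpos hγ hper
  rw [T_id hfc hhc hfne hhne hin hint, hΦ1, hΦ2] at h1
  unfold Ds at hDneg
  rw [actW, hw] at hDneg
  have hK0 := KK_pos (c := c) hc1
  have hK2 := KK_sq c
  have h3 : c.1 * (2 * π * (c.1 / KK c)) + c.2 * (2 * π * (c.2 / KK c)) = 2 * π * KK c := by
    field_simp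
    linear_combination -hK2
  nlinarith

end Sph

end Pool.Agent.Helper60.CP
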