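import Pool.Agent.Helper60.CP.QGeo

/-!
# Sharpness on `ℍP^n` and `S^(4n)`: statements
-/

set_option autoImplicit false

open Real Set MeasureTheory
open scoped ContDiff LinearAlgebra.Projectivization Quaternion

namespace Pool.Agent.Helper60.CP

/-- PART 3R: the periodic geodesics of the standard metric of `ℍP^n` have length at least `π`. -/
def S3_R : Prop := ∀ (n : ℕ) (γ : ℝ → ℙ ℍ[ℝ] (ℍ[ℝ] × Hn n)) (v T : ℝ), 0 < v → 0 < T →
  IsGeodesicQ (π / 2) (fun r => Real.sin r * Real.cos r) Real.sin v γ → (∀ t, γ (t + T) = γ t) →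
  π ≤ v * T

/-- PART 4R: the periodic geodesics of the round metric of `S^(4n)` have length at least `2π`. -/
def S4_R : Prop := ∀ (n : ℕ) (γ : ℝ → Hn n × ℝ) (v T : ℝ), 0 < v → 0 < T →
  IsGeodesicSQ π Real.sin Real.sin v γ → (∀ t, γ (t + T) = γ t) → 2 * π ≤ v * T

end Pool.Agent.Helper60.CP
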