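import Pool.Agent.Helper60.CP.QAct
import Pool.Agent.Helper60.CP.Stm4

/-!
# Short periodic geodesics of `Sp(n)Sp(1)`-invariant metrics on `ℍP^n` and `S^(4n)`
-/

set_option autoImplicit false

open Real Set MeasureTheory
open scoped ContDiff LinearAlgebra.Projectivization Topology Quaternion

namespace Pool.Agent.Helper60.CP

theorem shortQ_of (hV : S3_V) {L : ℝ} {f h : ℝ → ℝ} (hf : IsProfileC L f h) {n : ℕ} (hn : 2 ≤ n) :
    ∃ (γ : ℝ → ℙ ℍ[ℝ] (ℍ[ℝ] × Hn n)) (T : ℝ), 0 < T ∧ IsGeodesicQ L f h 1 γ ∧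
      (∀ t, γ (t + T) = γ t) ∧
      T ^ (4 * n) ≤ 4 * n * (2 * n + 1) * π ^ (4 * n) * ∫ r in (0 : ℝ)..L, f r ^ 3 * h r ^ (4 * n - 4) := by
  have hfc : Continuous f := hf.smooth_f.continuous
  have hhc : Continuous h := hf.smooth_h.continuous
  have hLpos := hf.pos
  have hpi := Real.pi_pos
  have hn0 : (0 : ℝ) < n := by
    have : (2 : ℝ) ≤ n := by exact_mod_cast hn
    linarith
  set V : ℝ := ∫ r in (0 : ℝ)..L, f r ^ 3 * h r ^ (4 * n - 4) with hVdef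
  have hVpos : 0 < V := by
    refine intervalIntegral.intervalIntegral_pos_of_pos_on
      (((hfc.pow 3).mul (hhc.pow _)).intervalIntegrable _ _) (fun x hx => ?_) hLpos
    exact mul_pos (pow_pos (hf.f_pos x hx.1 hx.2) _) (pow_pos (hf.h_pos x hx.1 hx.2.le) _)
  have hVp2 : 0 < 4 * n * (2 * n + 1) * V := by positivity
  obtain ⟨R, hR, hRn⟩ : ∃ R : ℝ, 0 < R ∧ R ^ (4 * n) = 4 * n * (2 * n + 1) * V := by
    refine ⟨(4 * n * (2 * n + 1) * V) ^ (((4 * n : ℕ) : ℝ)⁻¹), Real.rpow_pos_of_pos hVp2 _, ?_⟩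
    rw [Real.rpow_inv_natCast_pow hVp2.le (by omega)]
  suffices hmain : ∃ (γ : ℝ → ℙ ℂ (ℂ × Cn n)) (T : ℝ),
      0 < T ∧ IsGeodesicC L f h 1 γ ∧ (∀ t, γ (t + T) = γ t) ∧ T ≤ π * R by
    obtain ⟨γ, T, hT, hγ, hper, hle⟩ := hmain
    obtain ⟨γ', hγ', hper'⟩ := lift_geodesic hf.smooth_f hf.smooth_h hγ hper
    refine ⟨γ', T, hT, hγ', hper', ?_⟩
    calc T ^ (4 * n) ≤ (π * R) ^ (4 * n) := pow_le_pow_left₀ hT.le hle _
      _ = π ^ (4 * n) * R ^ (4 * n) := by rw [mul_pow]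
      _ = 4 * n * (2 * n + 1) * π ^ (4 * n) * V := by rw [hRn]; ring
  by_contra hcon
  have hno : Asm.Long n L f h R := by
    intro γ T hT hγ hper
    by_contra hle
    exact hcon ⟨γ, T, hT, hγ, hper, not_lt.1 hle⟩
  obtain ⟨h1, h2⟩ := action_bound hf hn hR hno
  have h3 := hV L R f h n hn hLpos hR hfc hhc (fun r hr => hf.f_pos r hr.1 hr.2)
    (fun r hr => hf.h_pos r hr.1 hr.2.le) h1 h2
  rw [hRn] at h3
  exact lt_irrefl _ h3

theorem shortSQ {L : ℝ} {f h : ℝ → ℝ} (hf : IsProfileS L f h) {n : ℕ} (hn : 2 ≤ n) :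
    ∃ (γ : ℝ → Hn n × ℝ) (T : ℝ), 0 < T ∧ IsGeodesicSQ L f h 1 γ ∧ (∀ t, γ (t + T) = γ t) ∧
      T ^ (4 * n) * (∫ t in (0 : ℝ)..π, Real.sin t ^ (4 * n - 1)) ≤
        (2 * π) ^ (4 * n) * ∫ r in (0 : ℝ)..L, f r ^ 3 * h r ^ (4 * n - 4) := by
  have hfc : Continuous f := hf.smooth_f.continuous
  have hhc : Continuous h := hf.smooth_h.continuous
  have hLpos := hf.pos
  have hpi := Real.pi_pos
  set V : ℝ := ∫ r in (0 : ℝ)..L, f r ^ 3 * h r ^ (4 * n - 4) with hVdef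
  set W : ℝ := ∫ t in (0 : ℝ)..π, Real.sin t ^ (4 * n - 1) with hWdef
  have hVpos : 0 < V := by
    refine intervalIntegral.intervalIntegral_pos_of_pos_on
      (((hfc.pow 3).mul (hhc.pow _)).intervalIntegrable _ _) (fun x hx => ?_) hLpos
    exact mul_pos (pow_pos (hf.f_pos x hx.1 hx.2) _) (pow_pos (hf.h_pos x hx.1 hx.2) _)
  have hWpos : 0 < W := by
    refine intervalIntegral.intervalIntegral_pos_of_pos_on
      ((Real.continuous_sin.pow _).intervalIntegrable _ _) (fun x hx => ?_) hpi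
    exact pow_pos (Real.sin_pos_of_pos_of_lt_pi hx.1 hx.2) _
  obtain ⟨R, hR, hRn⟩ : ∃ R : ℝ, 0 < R ∧ R ^ (4 * n) * W = V := by
    refine ⟨(V / W) ^ (((4 * n : ℕ) : ℝ)⁻¹), Real.rpow_pos_of_pos (div_pos hVpos hWpos) _, ?_⟩
    rw [Real.rpow_inv_natCast_pow (div_pos hVpos hWpos).le (by omega)]
    field_simp
  suffices hmain : ∃ (γ : ℝ → Cn n × ℝ) (T : ℝ),
      0 < T ∧ IsGeodesicS L f h 1 γ ∧ (∀ t, γ (t + T) = γ t) ∧ T ≤ 2 * π * R by
    obtain ⟨γ, T, hT, hγ, hper, hle⟩ := hmain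
    obtain ⟨γ', hγ', hper'⟩ := lift_geodesicS hf.smooth_f hf.smooth_h hγ hper
    refine ⟨γ', T, hT, hγ', hper', ?_⟩
    calc T ^ (4 * n) * W ≤ (2 * π * R) ^ (4 * n) * W :=
          mul_le_mul_of_nonneg_right (pow_le_pow_left₀ hT.le hle _) hWpos.le
      _ = (2 * π) ^ (4 * n) * (R ^ (4 * n) * W) := by rw [mul_pow]; ring
      _ = (2 * π) ^ (4 * n) * V := by rw [hRn]
  by_contra hcon
  have hno : ∀ (γ : ℝ → Cn n × ℝ) (T : ℝ), 0 < T → IsGeodesicS L f h 1 γ →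
      (∀ t, γ (t + T) = γ t) → 2 * π * R < T := by
    intro γ T hT hγ hper
    by_contra hle
    exact hcon ⟨γ, T, hT, hγ, hper, not_lt.1 hle⟩
  obtain ⟨h1, h2⟩ := Sph.action_boundS hf hn hR hno
  have h3 := Pool.Agent.Helper65.CPR.t_4V L R f h n hn hLpos hR hfc hhc
    (fun r hr => hf.f_pos r hr.1 hr.2) (fun r hr => hf.h_pos r hr.1 hr.2) h1 h2
  rw [hRn] at h3
  exact lt_irrefl _ h3

end Pool.Agent.Helper60.CP
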