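import Pool.Agent.Helper60.CP.SGeo

/-!
# `U(n)`-invariant metrics on `S^(2n)`: the theorem from the parts
-/

set_option autoImplicit false

open Real Set MeasureTheory
open scoped ContDiff

namespace Pool.Agent.Helper60.CP.Sph

open Pool.Agent.H206R2.Rot2 (Veff well actW)
open Asm

/-- closed geodesics over the interior minima -/
theorem orbit_main {L : ℝ} {f h : ℝ → ℝ} (hf : IsProfileS L f h) {n : ℕ} (hn : 2 ≤ n) {c : ℝ × ℝ}
    (hc1 : 0 < c.1) (hc2 : 0 < c.2) {p q : ℝ} (hp : 0 < p) (hpq : p < q) (hq : q < L)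
    (hVp : Veff f h c.1 c.2 p = 1) (hVq : Veff f h c.1 c.2 q = 1)
    (hin : ∀ x ∈ Ioo p q, Veff f h c.1 c.2 x < 1)
    (hp' : deriv (Veff f h c.1 c.2) p < 0) (hq' : 0 < deriv (Veff f h c.1 c.2) q)
    (hΦ1 : 2 * (∫ r in Ioo p q, c.1 / (f r ^ 2 * √(1 - Veff f h c.1 c.2 r))) = 2 * π * (c.1 / KK c))
    (hΦ2 : 2 * (∫ r in Ioo p q, c.2 / (h r ^ 2 * √(1 - Veff f h c.1 c.2 r))) = 2 * π * (c.2 / KK c)) :
    ∃ γ : ℝ → Cn n × ℝ, IsGeodesicS L f h 1 γ ∧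
      (0 < 2 * ∫ x in Ioo p q, 1 / √(1 - Veff f h c.1 c.2 x)) ∧
      ∀ t, γ (t + 2 * ∫ x in Ioo p q, 1 / √(1 - Veff f h c.1 c.2 x)) = γ t := by
  obtain ⟨K, hK⟩ : ∃ K, KK c = K := ⟨_, rfl⟩
  have hK0 : 0 < K := hK ▸ KK_pos hc1
  have hK2 : K ^ 2 = c.1 ^ 2 + c.2 ^ 2 := hK ▸ KK_sq c
  rw [hK] at hΦ1 hΦ2
  have hC0 : 0 < c.1 / K := div_pos hc1 hK0
  have hC1 : c.1 / K ≤ 1 := by
    rw [div_le_one hK0]
    nlinarith
  have hVc : ContDiffOn ℝ ∞ (Veff f h c.1 c.2) (Ioo 0 L) :=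
    (contDiffOn_V1 hf.smooth_f c.1 fun x hx => hf.f_pos x hx.1 hx.2).add
      (contDiffOn_V1 hf.smooth_h c.2 fun x hx => hf.h_pos x hx.1 hx.2)
  obtain ⟨r, T, hT, hTeq, hr, hrI, hr2, hr1, hrT, hrint⟩ :=
    Pool.Agent.H206R2.Rot2.TH.oscillator hp hpq hq hVc hVp hVq hp' hq' hin
  have hfne : ∀ x ∈ Icc p q, f x ≠ 0 := fun x hx =>
    (hf.f_pos x (hp.trans_le hx.1) (hx.2.trans_lt hq)).ne'
  have hhne : ∀ x ∈ Icc p q, h x ≠ 0 := fun x hx =>
    (hf.h_pos x (hp.trans_le hx.1) (hx.2.trans_lt hq)).ne'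
  obtain ⟨θ₁, hθ₁, hθ₁d, hθ₁T⟩ := angle (c := c.1) hr hrI hf.smooth_f hfne (T := T) (fun t => by rw [hrT])
  obtain ⟨θ₂, hθ₂, hθ₂d, hθ₂T⟩ := angle (c := 1) hr hrI hf.smooth_h hhne (T := T) (fun t => by rw [hrT])
  have hA1 : ∫ t in (0 : ℝ)..T, c.1 / f (r t) ^ 2 = 2 * π * (c.1 / K) := by
    rw [hrint (fun x => c.1 / f x ^ 2)
      (continuousOn_const.div (hf.smooth_f.continuous.continuousOn.pow 2) fun x hx =>
        pow_ne_zero 2 (hfne x hx)), ← hΦ1]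
    simp only [div_div]
  have hA2 : ∫ t in (0 : ℝ)..T, 1 / h (r t) ^ 2 = 2 * π / K := by
    rw [hrint (fun x => 1 / h x ^ 2)
      (continuousOn_const.div (hf.smooth_h.continuous.continuousOn.pow 2) fun x hx =>
        pow_ne_zero 2 (hhne x hx))]
    have e : (∫ r in Ioo p q, c.2 / (h r ^ 2 * √(1 - Veff f h c.1 c.2 r))) =
        c.2 * ∫ r in Ioo p q, 1 / h r ^ 2 / √(1 - Veff f h c.1 c.2 r) := by
      rw [← integral_const_mul]
      congr 1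
      funext x
      rw [div_div, mul_one_div]
    rw [e] at hΦ2
    have h3 : c.2 * (2 * ∫ r in Ioo p q, 1 / h r ^ 2 / √(1 - Veff f h c.1 c.2 r)) =
        c.2 * (2 * π / K) := by
      rw [← mul_assoc, mul_comm c.2 2, mul_assoc, hΦ2]
      ring
    exact mul_left_cancel₀ hc2.ne' h3
  have hdB : ∀ (k t : ℝ), deriv (fun t => k * θ₂ t) t = k * (1 / h (r t) ^ 2) := fun k t => by
    rw [deriv_const_mul _ (hθ₂.differentiable (by norm_num)).differentiableAt, hθ₂d]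
  have hdA : ∀ t, deriv (fun t => θ₁ t - c.1 * θ₂ t) t = c.1 / f (r t) ^ 2 - c.1 * (1 / h (r t) ^ 2) := by
    intro t
    have h1 := (hθ₁.differentiable (by norm_num)).differentiableAt (x := t)
    have h2 := (hθ₂.differentiable (by norm_num)).differentiableAt (x := t)
    rw [deriv_fun_sub h1 (h2.const_mul c.1), hdB, hθ₁d]
  rw [← hTeq]
  have hs : ∀ t, c.1 / f (r t) ^ 2 - c.1 * (1 / h (r t) ^ 2) + c.1 / K * (K * (1 / h (r t) ^ 2)) =
      c.1 / f (r t) ^ 2 := fun t => by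
    field_simp
    ring
  have hs2 : ∀ t, (1 - (c.1 / K) ^ 2) * (K * (1 / h (r t) ^ 2)) ^ 2 = (c.2 / h (r t) ^ 2) ^ 2 := by
    intro t
    have hh0 := hhne (r t) ⟨(hrI t).1, (hrI t).2⟩
    have e1 : (1 - (c.1 / K) ^ 2) * K ^ 2 = c.2 ^ 2 := by
      rw [div_pow, sub_mul, div_mul_cancel₀ _ (by positivity), hK2]
      ring
    calc (1 - (c.1 / K) ^ 2) * (K * (1 / h (r t) ^ 2)) ^ 2 =
        ((1 - (c.1 / K) ^ 2) * K ^ 2) * (1 / h (r t) ^ 2) ^ 2 := by ring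
      _ = (c.2 / h (r t) ^ 2) ^ 2 := by rw [e1]; ring
  obtain ⟨γ, hγ, hper⟩ := geod_s hn (L := L) (f := f) (h := h) (r := r)
    (A := fun t => θ₁ t - c.1 * θ₂ t)
    (B := fun t => K * θ₂ t) (K := K) (C := c.1 / K) (T := T) (by linarith) hC1 hr
    (hθ₁.sub (contDiff_const.mul hθ₂)) (contDiff_const.mul hθ₂)
    (fun t => by
      rw [hdA, hdB, hs, hs2, hr2, (Veff_hasDerivAt hf.smooth_f hf.smooth_h c.1 c.2
        (hfne (r t) ⟨(hrI t).1, (hrI t).2⟩) (hhne (r t) ⟨(hrI t).1, (hrI t).2⟩)).deriv]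
      ring)
    (fun t => by
      rw [hdB]
      have := hhne (r t) ⟨(hrI t).1, (hrI t).2⟩
      field_simp)
    (fun t => by
      rw [hdA, hdB, hs]
      have := hfne (r t) ⟨(hrI t).1, (hrI t).2⟩
      field_simp)
    (fun t => by
      rw [hdA, hdB, hs, hs2, hr1]
      have h1 := hfne (r t) ⟨(hrI t).1, (hrI t).2⟩
      have h2 := hhne (r t) ⟨(hrI t).1, (hrI t).2⟩
      unfold Veff
      field_simp
      ring)
    hrT (fun t => by
      rw [hθ₁T, hθ₂T, hA1, hA2]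
      field_simp
      ring) (Or.inr fun t => by
      rw [hθ₁T, hθ₂T, hA1, hA2]
      field_simp
      ring)
  exact ⟨γ, hγ, hT, hper⟩

lemma f_0 {L : ℝ} {f h : ℝ → ℝ} (hf : IsProfileS L f h) : f 0 = 0 := by
  have := hf.f_odd 0
  simp only [neg_zero] at this
  linarith

lemma h_0 {L : ℝ} {f h : ℝ → ℝ} (hf : IsProfileS L f h) : h 0 = 0 := by
  have := hf.h_odd 0
  simp only [neg_zero] at this
  linarith

lemma f_L {L : ℝ} {f h : ℝ → ℝ} (hf : IsProfileS L f h) : f L = 0 := by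
  have := hf.f_odd_L 0
  simp only [add_zero, sub_zero] at this
  linarith

lemma h_L {L : ℝ} {f h : ℝ → ℝ} (hf : IsProfileS L f h) : h L = 0 := by
  have := hf.h_odd_L 0
  simp only [add_zero, sub_zero] at this
  linarith

/-- The theorem for `S^(2n)`, from the parts. -/
theorem short_geodesicS (hE : S_E) (hV : S2_V) (hM : S2_M) (hCr : S2_C) (hT : S2_T)
    {L : ℝ} {f h : ℝ → ℝ} (hf : IsProfileS L f h) {n : ℕ} (hn : 2 ≤ n) :
    ∃ (γ : ℝ → Cn n × ℝ) (T : ℝ), 0 < T ∧ IsGeodesicS L f h 1 γ ∧ (∀ t, γ (t + T) = γ t) ∧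
      T ^ (2 * n) * (∫ t in (0 : ℝ)..π, Real.sin t ^ (2 * n - 1)) ≤
        (2 * π) ^ (2 * n) * ∫ r in (0 : ℝ)..L, f r * h r ^ (2 * n - 2) := by
  have hfc : Continuous f := hf.smooth_f.continuous
  have hhc : Continuous h := hf.smooth_h.continuous
  have hLpos := hf.pos
  have hpi := Real.pi_pos
  set V : ℝ := ∫ r in (0 : ℝ)..L, f r * h r ^ (2 * n - 2) with hVdef
  set W : ℝ := ∫ t in (0 : ℝ)..π, Real.sin t ^ (2 * n - 1) with hWdef
  have hVpos : 0 < V := by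
    refine intervalIntegral.intervalIntegral_pos_of_pos_on
      ((hfc.mul (hhc.pow _)).intervalIntegrable _ _) (fun x hx => ?_) hLpos
    exact mul_pos (hf.f_pos x hx.1 hx.2) (pow_pos (hf.h_pos x hx.1 hx.2) _)
  have hWpos : 0 < W := by
    refine intervalIntegral.intervalIntegral_pos_of_pos_on
      ((Real.continuous_sin.pow _).intervalIntegrable _ _) (fun x hx => ?_) hpi
    exact pow_pos (Real.sin_pos_of_pos_of_lt_pi hx.1 hx.2) _
  obtain ⟨R, hR, hRn⟩ : ∃ R : ℝ, 0 < R ∧ R ^ (2 * n) * W = V := by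
    refine ⟨(V / W) ^ (((2 * n : ℕ) : ℝ)⁻¹), Real.rpow_pos_of_pos (div_pos hVpos hWpos) _, ?_⟩
    rw [Real.rpow_inv_natCast_pow (div_pos hVpos hWpos).le (by omega)]
    field_simp
  suffices hmain : ∃ (γ : ℝ → Cn n × ℝ) (T : ℝ),
      0 < T ∧ IsGeodesicS L f h 1 γ ∧ (∀ t, γ (t + T) = γ t) ∧ T ≤ 2 * π * R by
    obtain ⟨γ, T, hT, hγ, hper, hle⟩ := hmain
    refine ⟨γ, T, hT, hγ, hper, ?_⟩
    calc T ^ (2 * n) * W ≤ (2 * π * R) ^ (2 * n) * W :=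
          mul_le_mul_of_nonneg_right (pow_le_pow_left₀ hT.le hle _) hWpos.le
      _ = (2 * π) ^ (2 * n) * (R ^ (2 * n) * W) := by rw [mul_pow]; ring
      _ = (2 * π) ^ (2 * n) * V := by rw [hRn]
  by_contra hcon
  have hno : ∀ (γ : ℝ → Cn n × ℝ) (T : ℝ), 0 < T → IsGeodesicS L f h 1 γ →
      (∀ t, γ (t + T) = γ t) → 2 * π * R < T := by
    intro γ T hT hγ hper
    by_contra hle
    exact hcon ⟨γ, T, hT, hγ, hper, not_lt.1 hle⟩
  have h2π : 0 < 2 * π := by positivity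
  have hL2 : π * R < L := by
    obtain ⟨γ, hγ, hper⟩ := meridian_s (n := n) (f := f) (h := h) hn hLpos.ne'
    have := hno γ _ (by linarith) hγ hper
    linarith
  have hcf : ∀ r ∈ Ioo 0 L, deriv f r = 0 → R < f r := by
    intro r hr h2
    obtain ⟨γ, hγ, hper⟩ := circle_f hn hf hr.1 hr.2 h2
    have hfr := hf.f_pos r hr.1 hr.2
    exact lt_of_mul_lt_mul_left (hno γ _ (by positivity) hγ hper) h2π.le
  have hch : ∀ r ∈ Ioo 0 L, deriv h r = 0 → R < h r := by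
    intro r hr h2
    obtain ⟨γ, hγ, hper⟩ := circle_h hn hf hr.1 hr.2 h2
    have hfr := hf.h_pos r hr.1 hr.2
    exact lt_of_mul_lt_mul_left (hno γ _ (by positivity) hγ hper) h2π.le
  have hcx : ∀ r ∈ Ioo 0 L, f r = h r → deriv f r * deriv h r < 0 → R < f r := by
    intro r hr h1 h2
    obtain ⟨γ, hγ, hper⟩ := crossing hn hf hr.1 hr.2 h1 h2
    have hfr := hf.f_pos r hr.1 hr.2
    exact lt_of_mul_lt_mul_left (hno γ _ (by positivity) hγ hper) h2π.le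
  obtain ⟨s₀, hs₀, hsf, hsh⟩ := hT L R f h hf hR hcf hch hcx
  by_cases hneg : ∃ c ∈ Dsk R, Ds L R f h s₀ c < 0
  swap
  · push Not at hneg
    have h1 := hV L R f h n hn hLpos hR hfc hhc (fun r hr => hf.f_pos r hr.1 hr.2)
      (fun r hr => hf.h_pos r hr.1 hr.2) ⟨s₀, hs₀, hsh⟩ (fun c hc => by
        have h2 := hneg c hc
        have h3 := actW_le (L := L) hfc hhc c.1 c.2 s₀
        unfold Ds at h2
        linarith)
    rw [hRn] at h1
    exact lt_irrefl _ h1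
  have hEf : ∀ t ∈ Ioo 0 R, 2 * π * (R - t) ≤ actW L (fun x => (t / f x) ^ 2) s₀ := fun t ht =>
    hE L s₀ R f hLpos hf.smooth_f (fun x hx => hf.f_pos x hx.1 hx.2) (f_0 hf) (f_L hf) hs₀ hR hsf
      hL2.le (fun c p q hc _ hp hpa haq hq hfp hfq hin hp' hq' _ hΦ => by
        obtain ⟨γ, hγ, hT, hper⟩ := orbit_f hf hn hc hp (hpa.trans haq) hq hfp hfq hin hp' hq' hΦ
        exact (hno γ _ hT hγ hper).le) t ht.1 ht.2
  have hEh : ∀ t ∈ Ioo 0 R, 2 * π * (R - t) ≤ actW L (fun x => (t / h x) ^ 2) s₀ := fun t ht =>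
    hE L s₀ R h hLpos hf.smooth_h (fun x hx => hf.h_pos x hx.1 hx.2) (h_0 hf) (h_L hf) hs₀ hR hsh
      hL2.le (fun c p q hc _ hp hpa haq hq hfp hfq hin hp' hq' _ hΦ => by
        obtain ⟨γ, hγ, hT, hper⟩ := orbit_h hf hn hc hp (hpa.trans haq) hq hfp hfq hin hp' hq' hΦ
        exact (hno γ _ hT hγ hper).le) t ht.1 ht.2
  obtain ⟨c, hc, hDneg, hmin⟩ := hM L R s₀ f h hf hR hs₀ hsf hsh hL2.le hEf hEh hneg
  obtain ⟨p, q, hp, hps, hsq, hq, hVp, hVq, hw, hin, hp', hq', hint, hΦ1, hΦ2⟩ :=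
    hCr L R s₀ f h c hf hR hs₀ hsf hsh hc hmin
  have hc1 : 0 < c.1 := hc.1
  have hc2 : 0 < c.2 := hc.2.1
  have hpq : p < q := hps.trans hsq
  have hfne : ∀ x ∈ Icc p q, f x ≠ 0 := fun x hx =>
    (hf.f_pos x (hp.trans_le hx.1) (hx.2.trans_lt hq)).ne'
  have hhne : ∀ x ∈ Icc p q, h x ≠ 0 := fun x hx =>
    (hf.h_pos x (hp.trans_le hx.1) (hx.2.trans_lt hq)).ne'
  obtain ⟨γ, hγ, hTpos, hper⟩ := orbit_main hf hn hc1 hc2 hp hpq hq hVp hVq hin hp' hq' hΦ1 hΦ2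
  have h1 := hno γ _ hTpos hγ hper
  rw [T_id hfc hhc hfne hhne hin hint, hΦ1, hΦ2] at h1
  unfold Ds at hDneg
  rw [actW, hw] at hDneg
  have hK0 := KK_pos (c := c) hc1
  have hK2 := KK_sq c
  have h3 : c.1 * (2 * π * (c.1 / KK c)) + c.2 * (2 * π * (c.2 / KK c)) = 2 * π * KK c := by
    field_simp
    linear_combination -hK2
  nlinarith

end Pool.Agent.Helper60.CP.Sph
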