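import Pool.Agent.Helper60.CP.Stm2
import Pool.Agent.Helper60.CP.Asm3

/-!
# Closed geodesics of `U(n)`-invariant metrics on `S^(2n)`
-/

set_option autoImplicit false

open Real Set MeasureTheory
open scoped ContDiff

namespace Pool.Agent.Helper60.CP.Sph

open Pool.Agent.H206R2.Rot2 (Veff well actW)
open Asm

section
variable {n : ℕ} (hn : 2 ≤ n) {L : ℝ} {f h : ℝ → ℝ} {r A B : ℝ → ℝ} {K C T : ℝ}

include hn

/-- closed geodesics -/
theorem geod_s (hC1 : -1 ≤ C) (hC2 : C ≤ 1) (hr : ContDiff ℝ 2 r) (hA : ContDiff ℝ 2 A)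
    (hB : ContDiff ℝ 2 B)
    (h1 : ∀ t, deriv (deriv r) t = f (r t) * deriv f (r t) * (deriv A t + C * deriv B t) ^ 2
      + h (r t) * deriv h (r t) * ((1 - C ^ 2) * deriv B t ^ 2))
    (h2 : ∀ t, h (r t) ^ 2 * deriv B t = K)
    (h3 : ∀ t, f (r t) ^ 2 * (deriv A t + C * deriv B t) = C * K)
    (h4 : ∀ t, deriv r t ^ 2 + f (r t) ^ 2 * (deriv A t + C * deriv B t) ^ 2
      + h (r t) ^ 2 * ((1 - C ^ 2) * deriv B t ^ 2) = 1)
    (hrT : ∀ t, r (t + T) = r t) (hAB : ∀ t, A (t + T) + B (t + T) = A t + B t + 2 * π)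
    (hC : C = 1 ∨ ∀ t, A (t + T) - B (t + T) = A t - B t + -(2 * π)) :
    ∃ γ : ℝ → Cn n × ℝ, IsGeodesicS L f h 1 γ ∧ ∀ t, γ (t + T) = γ t := by
  obtain ⟨g1, g2, g3, g4, g5⟩ := geod_eqs hn (r := r) hC1 hC2 hA hB h1 h2 h3 h4
  refine ⟨fun t => ((Real.sin (π * r t / L) : ℂ) • zc hn C A B t, Real.cos (π * r t / L)),
    ⟨r, zc hn C A B, hr, g1, g2, fun _ => rfl, g3, g4, g5⟩, fun t => ?_⟩
  have hz : zc hn C A B (t + T) = zc hn C A B t := by
    unfold zc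
    have e1 : ph √((1 + C) / 2) (fun t => A t + B t) (t + T) = ph √((1 + C) / 2) (fun t => A t + B t) t := by
      rw [ph_add √((1 + C) / 2) (fun t => A t + B t) (hAB t), exp_two_pi, one_mul]
    rw [e1]
    rcases hC with hC | hC
    · rw [hC]
      simp [ph]
    · have e3 : Complex.exp (((-(2 * π) : ℝ) : ℂ) * Complex.I) = 1 := by
        push_cast
        rw [neg_mul, Complex.exp_neg, Complex.exp_two_pi_mul_I, inv_one]
      rw [ph_add √((1 - C) / 2) (fun t => A t - B t) (hC t), e3, one_mul]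
  simp only
  rw [hz, hrT]

/-- the meridians -/
theorem meridian_s (hL : L ≠ 0) :
    ∃ γ : ℝ → Cn n × ℝ, IsGeodesicS L f h 1 γ ∧ ∀ t, γ (t + 2 * L) = γ t := by
  obtain ⟨g1, g2, g3, g4, g5⟩ := geod_eqs (f := f) (h := h) hn (C := 0) (A := fun _ => 0)
    (B := fun _ => 0) (r := fun t => t) (K := 0) (by norm_num)
    (by norm_num) contDiff_const contDiff_const (fun t => by simp)
    (fun t => by simp) (fun t => by simp) (fun t => by simp)
  refine ⟨fun t => ((Real.sin (π * t / L) : ℂ) • zc hn 0 (fun _ => 0) (fun _ => 0) t,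
    Real.cos (π * t / L)),
    ⟨fun t => t, zc hn 0 (fun _ => 0) (fun _ => 0), contDiff_id, g1, g2, fun _ => rfl, g3, g4, g5⟩,
    fun t => ?_⟩
  have hx : π * (t + 2 * L) / L = π * t / L + 2 * π := by
    field_simp
  simp only
  rw [hx, Real.cos_add_two_pi, Real.sin_add_two_pi]
  rfl

end

/-- the circles over critical points of `f` -/
theorem circle_f {n : ℕ} (hn : 2 ≤ n) {L : ℝ} {f h : ℝ → ℝ} (hf : IsProfileS L f h) {r₀ : ℝ}
    (h0 : 0 < r₀) (hL : r₀ < L) (hd : deriv f r₀ = 0) :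
    ∃ γ : ℝ → Cn n × ℝ, IsGeodesicS L f h 1 γ ∧ ∀ t, γ (t + 2 * π * f r₀) = γ t := by
  have hp : 0 < f r₀ := hf.f_pos _ h0 hL
  have hq : 0 < h r₀ := hf.h_pos _ h0 hL
  refine geod_s hn (r := fun _ => r₀) (A := fun t => (1 / f r₀ - f r₀ / h r₀ ^ 2) * t)
    (B := fun t => (f r₀ / h r₀ ^ 2) * t) (K := f r₀) (C := 1) (by norm_num) le_rfl
    contDiff_const (contDiff_const.mul contDiff_id) (contDiff_const.mul contDiff_id) ?_ ?_ ?_ ?_
    (fun _ => rfl) ?_ (Or.inl rfl)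
  · intro t; simp [hd]
  · intro t; rw [d_lin]; field_simp
  · intro t; rw [d_lin, d_lin]; field_simp; ring
  · intro t
    rw [d_lin, d_lin]
    simp only [deriv_const']
    field_simp
    ring
  · intro t
    field_simp
    ring

/-- the circles over critical points of `h` -/
theorem circle_h {n : ℕ} (hn : 2 ≤ n) {L : ℝ} {f h : ℝ → ℝ} (hf : IsProfileS L f h) {r₀ : ℝ}
    (h0 : 0 < r₀) (hL : r₀ < L) (hd : deriv h r₀ = 0) :
    ∃ γ : ℝ → Cn n × ℝ, IsGeodesicS L f h 1 γ ∧ ∀ t, γ (t + 2 * π * h r₀) = γ t := by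
  have hq : 0 < h r₀ := hf.h_pos _ h0 hL
  refine geod_s hn (r := fun _ => r₀) (A := fun _ => 0)
    (B := fun t => (1 / h r₀) * t) (K := h r₀) (C := 0) (by norm_num) (by norm_num)
    contDiff_const contDiff_const (contDiff_const.mul contDiff_id) ?_ ?_ ?_ ?_
    (fun _ => rfl) ?_ (Or.inr ?_)
  · intro t; simp [hd]
  · intro t; rw [d_lin]; field_simp
  · intro t; simp
  · intro t
    rw [d_lin]
    simp only [deriv_const']
    field_simp
    norm_num
  · intro t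
    field_simp
    ring
  · intro t
    field_simp
    ring

/-- the closed geodesics over the crossings of `f` and `h` -/
theorem crossing {n : ℕ} (hn : 2 ≤ n) {L : ℝ} {f h : ℝ → ℝ} (hf : IsProfileS L f h) {r₀ : ℝ}
    (h0 : 0 < r₀) (hL : r₀ < L) (hfh : f r₀ = h r₀) (hd : deriv f r₀ * deriv h r₀ < 0) :
    ∃ γ : ℝ → Cn n × ℝ, IsGeodesicS L f h 1 γ ∧ ∀ t, γ (t + 2 * π * f r₀) = γ t := by
  have hp : 0 < f r₀ := hf.f_pos _ h0 hL
  obtain ⟨D, hD⟩ : ∃ D, D = deriv h r₀ / (deriv h r₀ - deriv f r₀) := ⟨_, rfl⟩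
  have hne : deriv h r₀ - deriv f r₀ ≠ 0 := by
    intro h1
    have h2 : deriv h r₀ = deriv f r₀ := by linarith
    rw [h2] at hd
    nlinarith [sq_nonneg (deriv f r₀)]
  have hD0 : 0 ≤ D := by
    rw [hD]
    have : deriv h r₀ / (deriv h r₀ - deriv f r₀) =
        (deriv h r₀ ^ 2 - deriv f r₀ * deriv h r₀) / (deriv h r₀ - deriv f r₀) ^ 2 := by
      field_simp
    rw [this]
    have : 0 ≤ deriv h r₀ ^ 2 - deriv f r₀ * deriv h r₀ := by nlinarith [sq_nonneg (deriv h r₀)]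
    positivity
  have hD1 : D ≤ 1 := by
    have : 1 - D = (deriv f r₀ ^ 2 - deriv f r₀ * deriv h r₀) / (deriv h r₀ - deriv f r₀) ^ 2 := by
      rw [hD]
      field_simp
      ring
    have h2 : 0 ≤ (deriv f r₀ ^ 2 - deriv f r₀ * deriv h r₀) / (deriv h r₀ - deriv f r₀) ^ 2 := by
      have : 0 ≤ deriv f r₀ ^ 2 - deriv f r₀ * deriv h r₀ := by nlinarith [sq_nonneg (deriv f r₀)]
      positivity
    linarith
  have hDe : D * deriv f r₀ + (1 - D) * deriv h r₀ = 0 := by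
    rw [hD]
    field_simp
    ring
  have hC2 : √D ^ 2 = D := Real.sq_sqrt hD0
  have hC1 : √D ≤ 1 := Real.sqrt_le_one.2 hD1
  have hC0 : 0 ≤ √D := Real.sqrt_nonneg _
  refine geod_s hn (r := fun _ => r₀) (A := fun _ => 0)
    (B := fun t => (1 / h r₀) * t) (K := h r₀) (C := √D) (by linarith) hC1
    contDiff_const contDiff_const (contDiff_const.mul contDiff_id) ?_ ?_ ?_ ?_
    (fun _ => rfl) ?_ (Or.inr ?_)
  · intro t
    rw [d_lin, ← hfh]
    simp only [deriv_const']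
    have : f r₀ * deriv f r₀ * (0 + √D * (1 / f r₀)) ^ 2 +
        f r₀ * deriv h r₀ * ((1 - √D ^ 2) * (1 / f r₀) ^ 2) =
        f r₀ * (1 / f r₀) ^ 2 * (√D ^ 2 * deriv f r₀ + (1 - √D ^ 2) * deriv h r₀) := by ring
    rw [this, hC2, hDe, mul_zero]
  · intro t; rw [d_lin, ← hfh]; field_simp
  · intro t
    rw [d_lin, ← hfh]
    simp only [deriv_const']
    field_simp
    ring
  · intro t
    rw [d_lin, ← hfh]
    simp only [deriv_const']
    field_simp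
    ring
  · intro t
    rw [← hfh]
    field_simp
    ring
  · intro t
    rw [← hfh]
    field_simp
    ring

/-- closed geodesics in the spheres `z ∈ ℂ z₀` -/
theorem orbit_f {L : ℝ} {f h : ℝ → ℝ} (hf : IsProfileS L f h) {n : ℕ} (hn : 2 ≤ n) {c p q : ℝ}
    (hc : 0 < c) (hp : 0 < p) (hpq : p < q) (hq : q < L) (hfp : f p = c) (hfq : f q = c)
    (hin : ∀ x ∈ Ioo p q, c < f x) (hp' : 0 < deriv f p) (hq' : deriv f q < 0)
    (hΦ : 2 * (∫ x in Ioo p q, c / (f x ^ 2 * √(1 - (c / f x) ^ 2))) = 2 * π) :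
    ∃ γ : ℝ → Cn n × ℝ, IsGeodesicS L f h 1 γ ∧
      (0 < 2 * ∫ x in Ioo p q, 1 / √(1 - (c / f x) ^ 2)) ∧
      ∀ t, γ (t + 2 * ∫ x in Ioo p q, 1 / √(1 - (c / f x) ^ 2)) = γ t := by
  have hfpos : ∀ x ∈ Ioo 0 L, 0 < f x := fun x hx => hf.f_pos x hx.1 hx.2
  obtain ⟨hVp, hVq, hVp', hVq', hVin, hfne⟩ := ends hf.smooth_f hfpos hc hp hpq hq hfp hfq hin hp' hq'
  obtain ⟨r, T, hT, hTeq, hr, hrI, hr2, hr1, hrT, hrint⟩ :=
    Pool.Agent.H206R2.Rot2.TH.oscillator hp hpq hq (contDiffOn_V1 hf.smooth_f c hfpos) hVp hVq hVp' hVq' hVin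
  have hhne : ∀ x ∈ Icc p q, h x ≠ 0 := fun x hx =>
    (hf.h_pos x (hp.trans_le hx.1) (hx.2.trans_lt hq)).ne'
  obtain ⟨θ₁, hθ₁, hθ₁d, hθ₁T⟩ := angle (c := c) hr hrI hf.smooth_f hfne (T := T) (fun t => by rw [hrT])
  obtain ⟨θ₂, hθ₂, hθ₂d, hθ₂T⟩ := angle (c := 1) hr hrI hf.smooth_h hhne (T := T) (fun t => by rw [hrT])
  have hA1 : ∫ t in (0 : ℝ)..T, c / f (r t) ^ 2 = 2 * π := by
    rw [hrint (fun x => c / f x ^ 2)
      (continuousOn_const.div (hf.smooth_f.continuous.continuousOn.pow 2) fun x hx =>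
        pow_ne_zero 2 (hfne x hx)), ← hΦ]
    simp only [div_div]
  have hdB : ∀ t, deriv (fun t => c * θ₂ t) t = c * (1 / h (r t) ^ 2) := fun t => by
    rw [deriv_const_mul _ (hθ₂.differentiable (by norm_num)).differentiableAt, hθ₂d]
  have hdA : ∀ t, deriv (fun t => θ₁ t - c * θ₂ t) t = c / f (r t) ^ 2 - c * (1 / h (r t) ^ 2) := by
    intro t
    have h1 := (hθ₁.differentiable (by norm_num)).differentiableAt (x := t)
    have h2 := (hθ₂.differentiable (by norm_num)).differentiableAt (x := t)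
    rw [deriv_fun_sub h1 (h2.const_mul c), hdB, hθ₁d]
  rw [← hTeq]
  have hs : ∀ t, c / f (r t) ^ 2 - c * (1 / h (r t) ^ 2) + 1 * (c * (1 / h (r t) ^ 2)) =
      c / f (r t) ^ 2 := fun t => by ring
  obtain ⟨γ, hγ, hper⟩ := geod_s hn (L := L) (f := f) (h := h) (r := r) (A := fun t => θ₁ t - c * θ₂ t)
    (B := fun t => c * θ₂ t) (K := c) (C := 1) (T := T) (by norm_num) le_rfl hr
    (hθ₁.sub (contDiff_const.mul hθ₂)) (contDiff_const.mul hθ₂)
    (fun t => by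
      rw [hdA, hdB, hs, hr2, (hasDerivAt_V1 hf.smooth_f c (hfne (r t) ⟨(hrI t).1, (hrI t).2⟩)).deriv]
      ring)
    (fun t => by
      rw [hdB]
      have := hhne (r t) ⟨(hrI t).1, (hrI t).2⟩
      field_simp)
    (fun t => by
      rw [hdA, hdB, hs]
      have := hfne (r t) ⟨(hrI t).1, (hrI t).2⟩
      field_simp)
    (fun t => by
      rw [hdA, hdB, hs, hr1]
      have := hfne (r t) ⟨(hrI t).1, (hrI t).2⟩
      field_simp
      ring)
    hrT (fun t => by rw [hθ₁T, hA1]; ring) (Or.inl rfl)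
  exact ⟨γ, hγ, hT, hper⟩

/-- closed geodesics in the spheres `z` real -/
theorem orbit_h {L : ℝ} {f h : ℝ → ℝ} (hf : IsProfileS L f h) {n : ℕ} (hn : 2 ≤ n) {c p q : ℝ}
    (hc : 0 < c) (hp : 0 < p) (hpq : p < q) (hq : q < L) (hhp : h p = c) (hhq : h q = c)
    (hin : ∀ x ∈ Ioo p q, c < h x) (hp' : 0 < deriv h p) (hq' : deriv h q < 0)
    (hΦ : 2 * (∫ x in Ioo p q, c / (h x ^ 2 * √(1 - (c / h x) ^ 2))) = 2 * π) :
    ∃ γ : ℝ → Cn n × ℝ, IsGeodesicS L f h 1 γ ∧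
      (0 < 2 * ∫ x in Ioo p q, 1 / √(1 - (c / h x) ^ 2)) ∧
      ∀ t, γ (t + 2 * ∫ x in Ioo p q, 1 / √(1 - (c / h x) ^ 2)) = γ t := by
  have hpos : ∀ x ∈ Ioo 0 L, 0 < h x := fun x hx => hf.h_pos x hx.1 hx.2
  obtain ⟨hVp, hVq, hVp', hVq', hVin, hhne⟩ := ends hf.smooth_h hpos hc hp hpq hq hhp hhq hin hp' hq'
  obtain ⟨r, T, hT, hTeq, hr, hrI, hr2, hr1, hrT, hrint⟩ :=
    Pool.Agent.H206R2.Rot2.TH.oscillator hp hpq hq (contDiffOn_V1 hf.smooth_h c hpos) hVp hVq hVp' hVq' hVin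
  obtain ⟨θ, hθ, hθd, hθT⟩ := angle (c := c) hr hrI hf.smooth_h hhne (T := T) (fun t => by rw [hrT])
  have hA1 : ∫ t in (0 : ℝ)..T, c / h (r t) ^ 2 = 2 * π := by
    rw [hrint (fun x => c / h x ^ 2)
      (continuousOn_const.div (hf.smooth_h.continuous.continuousOn.pow 2) fun x hx =>
        pow_ne_zero 2 (hhne x hx)), ← hΦ]
    simp only [div_div]
  rw [← hTeq]
  obtain ⟨γ, hγ, hper⟩ := geod_s hn (L := L) (f := f) (h := h) (r := r) (A := fun _ => 0)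
    (B := θ) (K := c) (C := 0) (T := T) (by norm_num) (by norm_num) hr contDiff_const hθ
    (fun t => by
      rw [hr2, (hasDerivAt_V1 hf.smooth_h c (hhne (r t) ⟨(hrI t).1, (hrI t).2⟩)).deriv, hθd]
      simp only [deriv_const']
      ring)
    (fun t => by
      rw [hθd]
      have := hhne (r t) ⟨(hrI t).1, (hrI t).2⟩
      field_simp)
    (fun t => by simp)
    (fun t => by
      rw [hr1, hθd]
      simp only [deriv_const']
      have := hhne (r t) ⟨(hrI t).1, (hrI t).2⟩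
      field_simp
      ring)
    hrT (fun t => by rw [hθT, hA1]; ring) (Or.inr fun t => by rw [hθT, hA1]; ring)
  exact ⟨γ, hγ, hT, hper⟩

end Pool.Agent.Helper60.CP.Sph
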