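import Pool.Agent.Helper60.CP.Geo

/-!
# Further parts: sharpness on `ℂP^n`, and the `U(n)`-invariant metrics on `S^(2n)`
-/

set_option autoImplicit false

open Real Set MeasureTheory
open scoped ContDiff LinearAlgebra.Projectivization

namespace Pool.Agent.Helper60.CP

open Pool.Agent.H206R2.Rot2 (Veff well actW)

/-- PART R: the periodic geodesics of the Fubini-Study metric have length at least `π`. -/
def S_R : Prop := ∀ (n : ℕ) (γ : ℝ → ℙ ℂ (ℂ × Cn n)) (v T : ℝ), 0 < v → 0 < T →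
  IsGeodesicC (π / 2) (fun r => Real.sin r * Real.cos r) Real.sin v γ → (∀ t, γ (t + T) = γ t) →
  π ≤ v * T

/-- The pairs of profile functions of the smooth `U(n)`-invariant metrics `dr² + f(r)² η² + h(r)² g_FS`,
`0 ≤ r ≤ L`, on `S^(2n)`: `r` is the distance from one of the two fixed points, the other orbits are
spheres `S^(2n-1)` with contact form `η`. -/
structure IsProfileS (L : ℝ) (f h : ℝ → ℝ) : Prop where
  pos : 0 < L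
  smooth_f : ContDiff ℝ ∞ f
  smooth_h : ContDiff ℝ ∞ h
  f_odd : ∀ r, f (-r) = -f r
  f_odd_L : ∀ r, f (L + r) = -f (L - r)
  h_odd : ∀ r, h (-r) = -h r
  h_odd_L : ∀ r, h (L + r) = -h (L - r)
  f_pos : ∀ r, 0 < r → r < L → 0 < f r
  h_pos : ∀ r, 0 < r → r < L → 0 < h r
  f_deriv : deriv f 0 = 1
  h_deriv : deriv h 0 = 1
  f_deriv_L : deriv f L = -1
  h_deriv_L : deriv h L = -1

/-- The quarter disk `c₁, c₂ > 0`, `K < R`. -/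
def Dsk (R : ℝ) : Set (ℝ × ℝ) := {c | 0 < c.1 ∧ 0 < c.2 ∧ KK c < R}

/-- The action defect on `S^(2n)`. -/
noncomputable def Ds (L R : ℝ) (f h : ℝ → ℝ) (s₀ : ℝ) (c : ℝ × ℝ) : ℝ :=
  actW L (Veff f h c.1 c.2) s₀ - 2 * π * (R - KK c)

/-- PART 2V: volume bound. -/
def S2_V : Prop := ∀ (L R : ℝ) (f h : ℝ → ℝ) (n : ℕ), 2 ≤ n → 0 < L → 0 < R →
  Continuous f → Continuous h → (∀ r ∈ Ioo 0 L, 0 < f r) → (∀ r ∈ Ioo 0 L, 0 < h r) →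
  (∃ r ∈ Ioo 0 L, R < h r) →
  (∀ c ∈ Dsk R, 2 * π * (R - KK c) ≤ 2 * ∫ r in Ioo 0 L, √(1 - Veff f h c.1 c.2 r)) →
  R ^ (2 * n) * (∫ t in (0 : ℝ)..π, Real.sin t ^ (2 * n - 1))
    < ∫ r in (0 : ℝ)..L, f r * h r ^ (2 * n - 2)

/-- PART 2M: existence of the minimum of the action defect. -/
def S2_M : Prop := ∀ (L R s₀ : ℝ) (f h : ℝ → ℝ), IsProfileS L f h → 0 < R → s₀ ∈ Ioo 0 L →
  R < f s₀ → R < h s₀ → π * R ≤ L →
  (∀ t ∈ Ioo 0 R, 2 * π * (R - t) ≤ actW L (fun x => (t / f x) ^ 2) s₀) →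
  (∀ t ∈ Ioo 0 R, 2 * π * (R - t) ≤ actW L (fun x => (t / h x) ^ 2) s₀) →
  (∃ c ∈ Dsk R, Ds L R f h s₀ c < 0) →
  ∃ c ∈ Dsk R, Ds L R f h s₀ c < 0 ∧ ∀ c' ∈ Dsk R, Ds L R f h s₀ c ≤ Ds L R f h s₀ c'

/-- PART 2C: the equations at a minimum. -/
def S2_C : Prop := ∀ (L R s₀ : ℝ) (f h : ℝ → ℝ) (c : ℝ × ℝ), IsProfileS L f h → 0 < R →
  s₀ ∈ Ioo 0 L → R < f s₀ → R < h s₀ → c ∈ Dsk R →
  (∀ c' ∈ Dsk R, Ds L R f h s₀ c ≤ Ds L R f h s₀ c') →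
  ∃ p q, 0 < p ∧ p < s₀ ∧ s₀ < q ∧ q < L ∧ Veff f h c.1 c.2 p = 1 ∧ Veff f h c.1 c.2 q = 1 ∧
    well L (Veff f h c.1 c.2) s₀ = Ioo p q ∧ (∀ x ∈ Ioo p q, Veff f h c.1 c.2 x < 1) ∧
    deriv (Veff f h c.1 c.2) p < 0 ∧ 0 < deriv (Veff f h c.1 c.2) q ∧
    IntegrableOn (fun r => 1 / √(1 - Veff f h c.1 c.2 r)) (Ioo p q) ∧
    2 * (∫ r in Ioo p q, c.1 / (f r ^ 2 * √(1 - Veff f h c.1 c.2 r))) = 2 * π * (c.1 / KK c) ∧
    2 * (∫ r in Ioo p q, c.2 / (h r ^ 2 * √(1 - Veff f h c.1 c.2 r))) = 2 * π * (c.2 / KK c)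

/-- PART 2T: a common point of the wells. -/
def S2_T : Prop := ∀ (L R : ℝ) (f h : ℝ → ℝ), IsProfileS L f h → 0 < R →
  (∀ r ∈ Ioo 0 L, deriv f r = 0 → R < f r) → (∀ r ∈ Ioo 0 L, deriv h r = 0 → R < h r) →
  (∀ r ∈ Ioo 0 L, f r = h r → deriv f r * deriv h r < 0 → R < f r) →
  ∃ s₀ ∈ Ioo 0 L, R < f s₀ ∧ R < h s₀

/-- `γ` is a geodesic of speed `v` of the metric `dr² + f² η² + h² g_FS` on `S^(2n) ⊂ ℂ^n × ℝ`, written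
in extended coordinates `(r, z)`. -/
def IsGeodesicS {n : ℕ} (L : ℝ) (f h : ℝ → ℝ) (v : ℝ) (γ : ℝ → Cn n × ℝ) : Prop :=
  ∃ (r : ℝ → ℝ) (z : ℝ → Cn n), ContDiff ℝ 2 r ∧ ContDiff ℝ 2 z ∧ (∀ t, ‖z t‖ = 1) ∧
    (∀ t, γ t = ((Real.sin (π * r t / L) : ℂ) • z t, Real.cos (π * r t / L))) ∧
    (∀ t, deriv (deriv r) t = f (r t) * deriv f (r t) * eta (z t) (deriv z t) ^ 2
      + h (r t) * deriv h (r t) * (‖deriv z t‖ ^ 2 - eta (z t) (deriv z t) ^ 2)) ∧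
    (∀ t, ∃ l : ℝ, deriv (mom f h r z) t +
      (((f (r t) ^ 2 - h (r t) ^ 2) * eta (z t) (deriv z t) : ℝ) : ℂ) • (Complex.I • deriv z t)
        = (l : ℂ) • z t) ∧
    (∀ t, deriv r t ^ 2 + f (r t) ^ 2 * eta (z t) (deriv z t) ^ 2
      + h (r t) ^ 2 * (‖deriv z t‖ ^ 2 - eta (z t) (deriv z t) ^ 2) = v ^ 2)

/-- PART 2R: the periodic geodesics of the round metric of `S^(2n)` have length at least `2π`. -/
def S2_R : Prop := ∀ (n : ℕ) (γ : ℝ → Cn n × ℝ) (v T : ℝ), 0 < v → 0 < T →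
  IsGeodesicS π Real.sin Real.sin v γ → (∀ t, γ (t + T) = γ t) → 2 * π ≤ v * T

end Pool.Agent.Helper60.CP
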