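import Pool.Agent.Helper60.CP.SAsm
import Pool.Agent.Helper60.CP.Main
import Pool.Agent.Helper59.CPS.V
import Pool.Agent.Helper44.CP.M2
import Pool.Agent.Helper97.CPS.C
import Pool.Agent.Helper64.CP.T2

/-!
# Short periodic geodesics of `U(n)`-invariant metrics on `S^(2n)`
-/

set_option autoImplicit false

open Real Set MeasureTheory
open scoped ContDiff

namespace Pool.Agent.Helper60.CP

theorem shortS {L : ℝ} {f h : ℝ → ℝ} (hf : IsProfileS L f h) {n : ℕ} (hn : 2 ≤ n) :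
    ∃ (γ : ℝ → Cn n × ℝ) (T : ℝ), 0 < T ∧ IsGeodesicS L f h 1 γ ∧ (∀ t, γ (t + T) = γ t) ∧
      T ^ (2 * n) * (∫ t in (0 : ℝ)..π, Real.sin t ^ (2 * n - 1)) ≤
        (2 * π) ^ (2 * n) * ∫ r in (0 : ℝ)..L, f r * h r ^ (2 * n - 2) :=
  Sph.short_geodesicS Pool.Agent.Helper93.CPE.t_E Pool.Agent.Helper59.CPS.t_2V
    Pool.Agent.Helper44.CP.t2_M Pool.Agent.Helper97.CPS.t_2C Pool.Agent.Helper64.CP.t_2T hf hn

theorem round_s : ∀ (n : ℕ) (γ : ℝ → Cn n × ℝ) (v T : ℝ), 0 < v → 0 < T →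
    IsGeodesicS π Real.sin Real.sin v γ → (∀ t, γ (t + T) = γ t) → 2 * π ≤ v * T :=
  Pool.Agent.Helper64.CP.t_2R

end Pool.Agent.Helper60.CP
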